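import Pool.Agent.H37.M3F.Ria
import Pool.Agent.H55.KS3.SML

/-!
# Filling a cell with a polynomial chart
-/

set_option autoImplicit false

namespace Pool.M3F

open Finset Real
open Pool.Agent.H49.Ent Pool.Agent.H32.Dense Pool.STK Pool.KAF Pool.KAL Pool.KS3

/-- The unit cube. -/
def ucube (d : ℕ) : Set (Fin d → ℝ) := {u | ∀ i, 0 ≤ u i ∧ u i ≤ 1}

/-- The point of a chart. -/
noncomputable def cpt {d : ℕ} {σ : Type} (Φ : σ → MvPolynomial (Fin d) ℝ) (u : Fin d → ℝ) :
    σ → ℝ := fun o => MvPolynomial.eval u (Φ o)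

/-- A polynomial chart of a cell: the unit cube of dimension `d` is divided into `Ng i` steps in
the direction `i`; a step moves the point by at most `C₀ / M`. -/
structure ChartOK {d : ℕ} {σ : Type} (k₀ : ℕ) (C₀ : ℝ) (M : ℕ) (Ng : Fin d → ℕ)
    (Φ : σ → MvPolynomial (Fin d) ℝ) : Prop where
  pos : ∀ i, 1 ≤ Ng i
  deg : ∀ o, (Φ o).totalDegree ≤ k₀
  step : ∀ u ∈ ucube d, ∀ u' ∈ ucube d, (∀ i, |u i - u' i| ≤ 1 / Ng i) →
    ∀ o, |cpt Φ u o - cpt Φ u' o| ≤ C₀ / M
  diam : ∀ u ∈ ucube d, ∀ u' ∈ ucube d, ∀ o, |cpt Φ u o - cpt Φ u' o| ≤ C₀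

/-- The position in the unit cube of the grid point `Y`. -/
noncomputable def gpos {d : ℕ} (Ng Y : Fin d → ℕ) : Fin d → ℝ := fun i => (Y i : ℝ) / Ng i

lemma gpos_mem {d : ℕ} {Ng Y : Fin d → ℕ} (h : ∀ i, Y i < Ng i) : gpos Ng Y ∈ ucube d := by
  intro i
  have h1 : (0 : ℝ) < Ng i := by
    have : 0 < Ng i := lt_of_le_of_lt (Nat.zero_le _) (h i)
    exact_mod_cast this
  refine ⟨?_, ?_⟩
  · unfold gpos
    positivity
  · unfold gpos
    rw [div_le_one h1]
    exact_mod_cast (h i).le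

/-- Admissible levels: the jet size of the test polynomial somewhere near the chart. -/
def admC {d : ℕ} {σ Γ Δ : Type} (D : ℕ) (h : ℝ) (Φ : Δ → σ → MvPolynomial (Fin d) ℝ)
    (P : Γ → MvPolynomial σ ℝ) (γ : Γ) (b : Δ) (s : ℝ) : Prop :=
  P γ ≠ 0 ∧ (P γ).totalDegree ≤ D ∧ ∃ u ∈ ucube d, ∃ z' : σ → ℝ,
    (∀ o, |z' o - cpt (Φ b) u o| ≤ h) ∧ s ≤ Real.log (Psi (P γ) h z')

lemma eval_bind {d : ℕ} {σ : Type} (Φ : σ → MvPolynomial (Fin d) ℝ) (Q : MvPolynomial σ ℝ)
    (u : Fin d → ℝ) :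
    MvPolynomial.eval u (MvPolynomial.bind₁ Φ Q) = MvPolynomial.eval (cpt Φ u) Q := by
  unfold MvPolynomial.eval
  rw [MvPolynomial.eval₂Hom_bind₁]
  rfl

/-- One jet is large at a point of the chart. -/
lemma exists_jetC {d : ℕ} {σ : Type} [Fintype σ] (Φ : σ → MvPolynomial (Fin d) ℝ)
    (Q : MvPolynomial σ ℝ) (D : ℕ) (hQ : Q.totalDegree ≤ D) (h : ℝ) (hh : 0 ≤ h)
    (u : Fin d → ℝ) (z' : σ → ℝ) (hz : ∀ o, |z' o - cpt Φ u o| ≤ h) :
    ∃ α ∈ expBox σ D, Psi Q h z' / (2 ^ D * (expBox σ D).card) ≤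
      |MvPolynomial.eval u (MvPolynomial.bind₁ Φ (jet Q h α))| := by
  classical
  have hne : (expBox σ D).Nonempty := ⟨0, by rw [mem_expBox]; simp⟩
  have hB : (0 : ℝ) < (expBox σ D).card := by exact_mod_cast hne.card_pos
  have h1 : Psi Q h z' ≤ 2 ^ D * Psi Q h (cpt Φ u) :=
    (Psi_le_of_near Q h hh _ z' hz).trans
      (mul_le_mul_of_nonneg_right (FIL.two_pow_mono hQ) (Psi_nonneg _ _ _))
  rw [Psi_eq_box Q D hQ h (cpt Φ u)] at h1
  by_contra hcon
  push Not at hcon
  have h2 : ∑ α ∈ expBox σ D, |MvPolynomial.eval (cpt Φ u) (jet Q h α)| <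
      ∑ _α ∈ expBox σ D, Psi Q h z' / (2 ^ D * (expBox σ D).card) := by
    refine Finset.sum_lt_sum_of_nonempty hne ?_
    intro α hα
    have := hcon α hα
    rwa [eval_bind] at this
  rw [Finset.sum_const, nsmul_eq_mul] at h2
  have h3 : (2 : ℝ) ^ D * (((expBox σ D).card : ℝ) *
      (Psi Q h z' / (2 ^ D * (expBox σ D).card))) = Psi Q h z' := by
    field_simp
  have h4 := mul_lt_mul_of_pos_left h2 (by positivity : (0 : ℝ) < 2 ^ D)
  rw [h3] at h4
  linarith

lemma jet_le_PsiC {σ : Type} [Fintype σ] (Q : MvPolynomial σ ℝ) (D : ℕ)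
    (hQ : Q.totalDegree ≤ D) (h : ℝ) (x : σ → ℝ) (α : σ →₀ ℕ) (hα : α ∈ expBox σ D) :
    |MvPolynomial.eval x (jet Q h α)| ≤ Psi Q h x := by
  rw [Psi_eq_box Q D hQ h x]
  exact Finset.single_le_sum (f := fun β => |MvPolynomial.eval x (jet Q h β)|)
    (fun _ _ => abs_nonneg _) hα

/-- Filling of cells with polynomial charts. -/
theorem fil_chart (hRIK : RIKStmt) (σ : Type) [Fintype σ] (d D k₀ : ℕ) :
    ∃ C : ℝ, 0 ≤ C ∧
    ∀ (C₀ : ℝ) (Ω Ξ Γ Δ : Type) [Fintype Ω] (p : Ω → ℝ) (x : Ω → Ξ) (M : ℕ) (cl : Ξ → Δ)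
      (Ng : Δ → Fin d → ℕ) (Φ : Δ → σ → MvPolynomial (Fin d) ℝ) (Y : Ξ → Fin d → ℕ)
      (z : Ξ → σ → ℝ) (P : Γ → MvPolynomial σ ℝ), 1 ≤ C₀ → 1 ≤ M →
      (∀ ω, 0 < p ω → ChartOK k₀ C₀ M (Ng (cl (x ω))) (Φ (cl (x ω)))) →
      (∀ ω, 0 < p ω → ∀ i, Y (x ω) i < Ng (cl (x ω)) i) →
      (∀ ω, 0 < p ω → ∀ o, |z (x ω) o - cpt (Φ (cl (x ω)))
        (gpos (Ng (cl (x ω))) (Y (x ω))) o| ≤ C₀ / M) →
      FillP p x cl Y (fun γ ξ => Real.log (Psi (P γ) (C₀ / M) (z ξ)))
        (admC D (C₀ / M) Φ P) (((2 * k₀ + 1) * D + 1 : ℕ) : ℝ)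
        (fun b => ∑ i, Real.log (Ng b i)) C := by
  classical
  set κ : ℕ := (2 * k₀ + 1) * D + 1 with hκ
  obtain ⟨C, hC, hR⟩ := ria hRIK d (k₀ * D) κ (by rw [hκ]; nlinarith)
  have hne : (expBox σ D).Nonempty := ⟨0, by rw [mem_expBox]; simp⟩
  set B : ℕ := (expBox σ D).card with hB
  have hB1 : (1 : ℝ) ≤ B := by exact_mod_cast hne.card_pos
  have hlogB : 0 ≤ Real.log B := Real.log_nonneg hB1
  have hlog2 : 0 ≤ Real.log 2 := Real.log_nonneg (by norm_num)
  refine ⟨C + (4 * D * Real.log 2 + Real.log B), by positivity, ?_⟩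
  intro C₀ Ω Ξ Γ Δ _ p x M cl Ng Φ Y z P hC₀ hM hch hY hz V _ r X g S hr hsup hadm
  have hr0 := hr.nonneg
  have hM1 : (1 : ℝ) ≤ M := by exact_mod_cast hM
  have hM0 : (0 : ℝ) < M := by linarith
  set h : ℝ := C₀ / M with hh
  have hh0 : 0 < h := by positivity
  have hκ1 : (1 : ℝ) ≤ κ := by
    have : 1 ≤ κ := by omega
    exact_mod_cast this
  -- the data on the support
  have hch' : ∀ v, 0 < r v → ChartOK k₀ C₀ M (Ng (cl (X v))) (Φ (cl (X v))) := by
    intro v hv
    obtain ⟨ω, hω, hx⟩ := hsup v hv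
    have := hch ω hω
    rwa [hx] at this
  have hY' : ∀ v, 0 < r v → ∀ i, Y (X v) i < Ng (cl (X v)) i := by
    intro v hv
    obtain ⟨ω, hω, hx⟩ := hsup v hv
    have := hY ω hω
    rwa [hx] at this
  have hz' : ∀ v, 0 < r v → ∀ o, |z (X v) o - cpt (Φ (cl (X v)))
        (gpos (Ng (cl (X v))) (Y (X v))) o| ≤ h := by
    intro v hv
    obtain ⟨ω, hω, hx⟩ := hsup v hv
    have := hz ω hω
    rwa [hx] at this
  set c : V → Γ × Δ := fun v => (g v, cl (X v)) with hc
  set SS : Γ × Δ → ℝ := fun γ => S γ.1 γ.2 with hSS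
  set cp : Γ × Δ → ℝ := fun γ => ∑ i, Real.log (Ng γ.2 i) with hcp
  set YY : V → Fin d → ℕ := fun v => Y (X v) with hYY
  set K₀ : ℝ := C + (4 * D * Real.log 2 + Real.log B) with hK₀
  have key : ∀ γ ∈ univ.image c, law r c γ * (Ex (cond r c γ) (fun v => SS (c v)) -
      κ * ((Ex (cond r c γ) (fun v => cp (c v)) - H (cond r c γ) YY) + K₀)) ≤
      law r c γ * Ex (cond r c γ) (fun v => Real.log (Psi (P (g v)) h (z (X v)))) := by
    intro γ _
    rcases (law_nonneg hr0 c γ).eq_or_lt with h0 | h0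
    · rw [← h0]
      simp
    refine mul_le_mul_of_nonneg_left ?_ h0.le
    obtain ⟨v₀, hv₀, rfl⟩ : ∃ v, 0 < r v ∧ c v = γ := by
      by_contra hcon
      push Not at hcon
      have : law r c γ = 0 := by
        unfold law
        refine Finset.sum_eq_zero fun v _ => ?_
        split_ifs with h
        · exact le_antisymm (not_lt.mp fun h' => hcon v h' h) (hr0 v)
        · rfl
      rw [this] at h0
      exact lt_irrefl _ h0
    set q : V → ℝ := cond r c (c v₀) with hq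
    have hqlaw : IsLaw q := ⟨fun v => cond_nonneg hr0 c _ v, sum_cond r c h0.ne'⟩
    have hqpos : ∀ v, 0 < q v → 0 < r v ∧ g v = g v₀ ∧ cl (X v) = cl (X v₀) := by
      intro v hv
      obtain ⟨h1, h2⟩ := (cond_pos_iff hr0 c (c v₀) v).mp hv
      exact ⟨h1, (Prod.ext_iff.mp h2).1, (Prod.ext_iff.mp h2).2⟩
    have hconst : ∀ f : Γ × Δ → ℝ, Ex q (fun v => f (c v)) = f (c v₀) := by
      intro f
      have h3 : Ex q (fun v => f (c v)) = Ex q (fun _ => f (c v₀)) := by
        unfold Ex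
        refine Finset.sum_congr rfl fun v _ => ?_
        by_cases hv : 0 < q v
        · obtain ⟨_, h2, h3⟩ := hqpos v hv
          have : c v = c v₀ := Prod.ext h2 h3
          simp only [this]
        · have : q v = 0 := le_antisymm (not_lt.mp hv) (hqlaw.nonneg v)
          rw [this]
          ring
      rw [h3, Ex_const hqlaw.sum_one]
    obtain ⟨hPne, hPdeg, u₀, hu₀, z₀, hz₀, hS₀⟩ := hadm v₀ hv₀
    have hchart := hch' v₀ hv₀
    obtain ⟨α, hαbox, hα⟩ := exists_jetC (Φ (cl (X v₀))) (P (g v₀)) D hPdeg h hh0.le u₀ z₀ hz₀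
    set T : MvPolynomial (Fin d) ℝ := MvPolynomial.bind₁ (Φ (cl (X v₀))) (jet (P (g v₀)) h α)
      with hT
    have hjdeg : (jet (P (g v₀)) h α).totalDegree ≤ D := (totalDegree_jet_le _ _ _).trans hPdeg
    have hTdeg : T.totalDegree ≤ k₀ * D :=
      (SML.totalDegree_bind_le _ k₀ hchart.deg _).trans (Nat.mul_le_mul_left _ hjdeg)
    have hψ0 : ∀ zz : σ → ℝ, 0 < Psi (P (g v₀)) h zz := fun zz => Psi_pos _ hPne h hh0 zz
    set S₁ : ℝ := Psi (P (g v₀)) h z₀ / (2 ^ D * B) with hS₁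
    have hS₁0 : 0 < S₁ := by
      have := hψ0 z₀
      positivity
    -- the common number of steps
    set N : ℕ := M * ∏ i, Ng (cl (X v₀)) i with hN
    have hprod : 0 < ∏ i, Ng (cl (X v₀)) i :=
      Finset.prod_pos fun i _ => hchart.pos i
    have hN1 : 1 ≤ N := Nat.mul_pos hM hprod
    have hNM : (M : ℝ) ≤ N := by
      have : M ≤ N := Nat.le_mul_of_pos_right M hprod
      exact_mod_cast this
    have hN0 : (0 : ℝ) < N := by linarith
    have h1 := hR V q (Ng (cl (X v₀))) N YY T S₁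
      (fun v => 4 ^ D * 2 ^ D * Psi (P (g v₀)) h (z (X v))) hqlaw
      (fun i => Dvd.dvd.mul_left (Finset.dvd_prod_of_mem _ (Finset.mem_univ i)) M) hN1
      (by
        intro v hv i
        obtain ⟨h2, h3, h4⟩ := hqpos v hv
        have := hY' v h2 i
        rwa [h4] at this)
      hTdeg hS₁0
      ⟨u₀, fun i => ⟨(hu₀ i).1, (hu₀ i).2⟩, hα⟩
      (by
        intro v hv u hu
        obtain ⟨h2, h3, h4⟩ := hqpos v hv
        have hYv := hY' v h2
        have hzv := hz' v h2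
        rw [h4] at hYv hzv
        have hgu := gpos_mem hYv
        have huc : u ∈ ucube d := by
          intro i
          have h5 := hu i
          have h6 := hgu i
          have h7 : (0 : ℝ) < Ng (cl (X v₀)) i := by exact_mod_cast hchart.pos i
          refine ⟨h6.1.trans h5.1, h5.2.trans ?_⟩
          rw [div_le_one h7]
          exact_mod_cast (hYv i)
        have hst := hchart.step u huc _ hgu (by
          intro i
          have h5 := hu i
          have e1 : ((YY v i : ℝ) + 1) / Ng (cl (X v₀)) i =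
              (YY v i : ℝ) / Ng (cl (X v₀)) i + 1 / Ng (cl (X v₀)) i := by ring
          rw [e1] at h5
          have e2 : gpos (Ng (cl (X v₀))) (Y (X v)) i = (YY v i : ℝ) / Ng (cl (X v₀)) i := rfl
          rw [e2, abs_le]
          have h7 : (0 : ℝ) < Ng (cl (X v₀)) i := by exact_mod_cast hchart.pos i
          have h8 : (0 : ℝ) ≤ 1 / Ng (cl (X v₀)) i := by positivity
          constructor <;> linarith [h5.1, h5.2])
        rw [hT, eval_bind]
        refine (jet_le_PsiC _ D hPdeg h _ α hαbox).trans ?_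
        have g1 : Psi (P (g v₀)) h (cpt (Φ (cl (X v₀))) u) ≤
            2 ^ D * Psi (P (g v₀)) h (cpt (Φ (cl (X v₀))) (gpos (Ng (cl (X v₀))) (Y (X v)))) :=
          (Psi_le_of_near _ h hh0.le _ _ hst).trans
            (mul_le_mul_of_nonneg_right (FIL.two_pow_mono hPdeg) (Psi_nonneg _ _ _))
        have g2 : Psi (P (g v₀)) h (cpt (Φ (cl (X v₀))) (gpos (Ng (cl (X v₀))) (Y (X v)))) ≤
            2 ^ D * Psi (P (g v₀)) h (z (X v)) :=
          (Psi_le_of_near _ h hh0.le _ _ (fun o => by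
            rw [abs_sub_comm]
            exact hzv o)).trans
            (mul_le_mul_of_nonneg_right (FIL.two_pow_mono hPdeg) (Psi_nonneg _ _ _))
        have g3 : (4 : ℝ) ^ D = 2 ^ D * 2 ^ D := by rw [← mul_pow]; norm_num
        have g4 : (1 : ℝ) ≤ 2 ^ D := one_le_pow₀ (by norm_num)
        have g5 := Psi_nonneg (P (g v₀)) h (z (X v))
        calc Psi (P (g v₀)) h (cpt (Φ (cl (X v₀))) u) ≤ 2 ^ D * (2 ^ D * Psi (P (g v₀)) h (z (X v))) :=
              g1.trans (mul_le_mul_of_nonneg_left g2 (by positivity))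
          _ = 4 ^ D * Psi (P (g v₀)) h (z (X v)) * 1 := by rw [g3]; ring
          _ ≤ 4 ^ D * Psi (P (g v₀)) h (z (X v)) * 2 ^ D :=
              mul_le_mul_of_nonneg_left g4 (by positivity)
          _ = 4 ^ D * 2 ^ D * Psi (P (g v₀)) h (z (X v)) := by ring)
      (by
        intro v hv
        obtain ⟨h2, h3, h4⟩ := hqpos v hv
        have hYv := hY' v h2
        have hzv := hz' v h2
        rw [h4] at hYv hzv
        have hgu := gpos_mem hYv
        have g0 := Psi_nonneg (P (g v₀)) h (z (X v))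
        have g1 : Psi (P (g v₀)) h z₀ ≤ 2 ^ D * Psi (P (g v₀)) h (cpt (Φ (cl (X v₀))) u₀) :=
          (Psi_le_of_near _ h hh0.le _ _ hz₀).trans
            (mul_le_mul_of_nonneg_right (FIL.two_pow_mono hPdeg) (Psi_nonneg _ _ _))
        have g2 : Psi (P (g v₀)) h (cpt (Φ (cl (X v₀))) u₀) ≤ (1 + (M : ℝ)) ^ D *
            Psi (P (g v₀)) h (cpt (Φ (cl (X v₀))) (gpos (Ng (cl (X v₀))) (Y (X v)))) := by
          refine (Psi_le_of_dist (P (g v₀)) h M hh0 (by positivity) _ _ ?_).trans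
            (mul_le_mul_of_nonneg_right (pow_le_pow_right₀ (by linarith) hPdeg)
              (Psi_nonneg _ _ _))
          intro o
          have e1 : (M : ℝ) * h = C₀ := by
            rw [hh]
            field_simp
          rw [e1]
          exact hchart.diam u₀ hu₀ _ hgu o
        have g3 : Psi (P (g v₀)) h (cpt (Φ (cl (X v₀))) (gpos (Ng (cl (X v₀))) (Y (X v)))) ≤
            2 ^ D * Psi (P (g v₀)) h (z (X v)) :=
          (Psi_le_of_near _ h hh0.le _ _ (fun o => by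
            rw [abs_sub_comm]
            exact hzv o)).trans
            (mul_le_mul_of_nonneg_right (FIL.two_pow_mono hPdeg) (Psi_nonneg _ _ _))
        have g4 : (1 + (M : ℝ)) ^ D ≤ 2 ^ D * (N : ℝ) ^ κ := by
          have e1 : (1 + (M : ℝ)) ^ D ≤ (2 * N) ^ D :=
            pow_le_pow_left₀ (by positivity) (by linarith) D
          have e2 : (N : ℝ) ^ D ≤ (N : ℝ) ^ κ :=
            pow_le_pow_right₀ (by linarith) (by rw [hκ]; nlinarith)
          rw [mul_pow] at e1
          exact e1.trans (mul_le_mul_of_nonneg_left e2 (by positivity))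
        rw [div_le_iff₀ (by positivity)]
        have e5 : S₁ ≤ Psi (P (g v₀)) h z₀ := by
          rw [hS₁]
          refine div_le_self (hψ0 z₀).le ?_
          have : (1 : ℝ) ≤ 2 ^ D := one_le_pow₀ (by norm_num)
          nlinarith
        have e3 : (4 : ℝ) ^ D = 2 ^ D * 2 ^ D := by rw [← mul_pow]; norm_num
        calc S₁ ≤ Psi (P (g v₀)) h z₀ := e5
          _ ≤ 2 ^ D * Psi (P (g v₀)) h (cpt (Φ (cl (X v₀))) u₀) := g1
          _ ≤ 2 ^ D * ((1 + (M : ℝ)) ^ D *
              Psi (P (g v₀)) h (cpt (Φ (cl (X v₀))) (gpos (Ng (cl (X v₀))) (Y (X v))))) :=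
            mul_le_mul_of_nonneg_left g2 (by positivity)
          _ ≤ 2 ^ D * ((2 ^ D * (N : ℝ) ^ κ) * (2 ^ D * Psi (P (g v₀)) h (z (X v)))) :=
            mul_le_mul_of_nonneg_left (mul_le_mul g4 g3 (Psi_nonneg _ _ _) (by positivity))
              (by positivity)
          _ = 4 ^ D * 2 ^ D * Psi (P (g v₀)) h (z (X v)) * (N : ℝ) ^ κ := by rw [e3]; ring)
    have h2 : Ex q (fun v => Real.log (4 ^ D * 2 ^ D * Psi (P (g v₀)) h (z (X v)))) =
        3 * D * Real.log 2 + Ex q (fun v => Real.log (Psi (P (g v)) h (z (X v)))) := by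
      have e1 : Ex q (fun v => Real.log (4 ^ D * 2 ^ D * Psi (P (g v₀)) h (z (X v)))) =
          Ex q (fun v => 3 * D * Real.log 2 + Real.log (Psi (P (g v)) h (z (X v)))) := by
        unfold Ex
        refine Finset.sum_congr rfl fun v _ => ?_
        by_cases hv : 0 < q v
        · obtain ⟨_, h3, h4⟩ := hqpos v hv
          beta_reduce
          rw [h3, Real.log_mul (by positivity) (hψ0 _).ne', Real.log_mul (by positivity)
            (by positivity), Real.log_pow, Real.log_pow]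
          have : Real.log 4 = 2 * Real.log 2 := by
            rw [show (4 : ℝ) = 2 ^ 2 by norm_num, Real.log_pow]
            norm_num
          rw [this]
          ring
        · have : q v = 0 := le_antisymm (not_lt.mp hv) (hqlaw.nonneg v)
          rw [this]
          ring
      rw [e1, Ex_add, Ex_const hqlaw.sum_one]
    have h5 : SS (c v₀) ≤ Real.log S₁ + (D * Real.log 2 + Real.log B) := by
      rw [hS₁, Real.log_div (hψ0 z₀).ne' (by positivity), Real.log_mul (by positivity)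
        (by positivity), Real.log_pow]
      have : SS (c v₀) ≤ Real.log (Psi (P (g v₀)) h z₀) := hS₀
      linarith
    rw [hconst SS, hconst cp]
    rw [h2] at h1
    have h6 : (4 * D * Real.log 2 + Real.log B) ≤ κ * (4 * D * Real.log 2 + Real.log B) := by
      have : 0 ≤ 4 * D * Real.log 2 + Real.log B := by positivity
      nlinarith
    have h7 : cp (c v₀) = ∑ i, Real.log (Ng (cl (X v₀)) i) := rfl
    rw [h7, hK₀]
    nlinarith [h1, h5, h6]
  have hsum := Finset.sum_le_sum key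
  rw [← rix_ex r hr0 c (fun v => Real.log (Psi (P (g v)) h (z (X v))))] at hsum
  have e1 : ∀ γ ∈ univ.image c, law r c γ *
      (Ex (cond r c γ) (fun v => SS (c v)) - κ * ((Ex (cond r c γ) (fun v => cp (c v)) -
        H (cond r c γ) YY) + K₀)) =
      law r c γ * Ex (cond r c γ) (fun v => SS (c v)) -
        κ * (law r c γ * Ex (cond r c γ) (fun v => cp (c v)) - law r c γ * H (cond r c γ) YY +
          K₀ * law r c γ) := by
    intro γ _
    ring
  rw [Finset.sum_congr rfl e1, Finset.sum_sub_distrib, ← Finset.mul_sum,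
    Finset.sum_add_distrib, Finset.sum_sub_distrib, ← Finset.mul_sum, sum_law, hr.sum_one,
    ← CH_eq_sum hr0, ← rix_ex r hr0 c, ← rix_ex r hr0 c] at hsum
  change Ex r (fun v => S (g v) (cl (X v))) ≤ Ex r (fun v => Real.log (Psi (P (g v)) h (z (X v))))
    + κ * ((Ex r (fun v => cp (c v)) - CH r YY c) + K₀)
  linarith

end Pool.M3F
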