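import Pool.Agent.H37.M3F.Jts
import Pool.Agent.H5.M3F.Nlb

/-!
# Degree control for a family with closed labels on natural boxes
-/

set_option autoImplicit false

namespace Pool.M3F

open Finset Real MvPolynomial
open Pool.Agent.H49.Ent Pool.Agent.H32.Dense Pool.STK Pool.KA Pool.K2S Pool.PB Pool.STAT Pool.GEN
open Pool.KAF Pool.KAL

section scale

variable {d : ℕ} {W : ℕ}

/-- The substitution of the scaled base variables. -/
noncomputable def scv (d W : ℕ) (l : ℕ) : MvPolynomial (Fin d) ℝ :=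
  if h : l < d then C (1 / 2 ^ W : ℝ) * MvPolynomial.X ⟨l, h⟩ else 0

/-- The polynomial in the scaled base variables. -/
noncomputable def toF (d W : ℕ) (P : PN) : MvPolynomial (Fin d) ℝ :=
  C ((2 : ℝ) ^ W) * bind₁ (scv d W) P

/-- The point in the variables of the label. -/
noncomputable def unF (d W : ℕ) (y : Fin d → ℝ) (l : ℕ) : ℝ :=
  if h : l < d then y ⟨l, h⟩ / 2 ^ W else 0

lemma eval_scv (y : Fin d → ℝ) (l : ℕ) : eval y (scv d W l) = unF d W y l := by
  unfold scv unF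
  split_ifs with h
  · rw [map_mul, eval_C, eval_X]
    ring
  · rw [map_zero]

lemma eval_bscv (y : Fin d → ℝ) (P : PN) :
    eval y (bind₁ (scv d W) P) = eval (unF d W y) P := by
  unfold MvPolynomial.eval
  rw [MvPolynomial.eval₂Hom_bind₁]
  congr 2
  funext l
  exact eval_scv y l

lemma eval_toF (y : Fin d → ℝ) (P : PN) :
    eval y (toF d W P) = 2 ^ W * eval (unF d W y) P := by
  unfold toF
  rw [map_mul, eval_C, eval_bscv]

lemma pderiv_scv (l : Fin d) (k : ℕ) :
    pderiv l (scv d W k) = if k = l.val then C (1 / 2 ^ W : ℝ) else 0 := by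
  classical
  unfold scv
  by_cases h : k < d
  · rw [dif_pos h, pderiv_C_mul, pderiv_X]
    by_cases hk : k = l.val
    · have : (⟨k, h⟩ : Fin d) = l := Fin.ext hk
      rw [if_pos hk, this, Pi.single_eq_same, mul_one]
    · have : (⟨k, h⟩ : Fin d) ≠ l := fun h' => hk (by rw [← h'])
      rw [if_neg hk, Pi.single_eq_of_ne this, mul_zero]
  · rw [dif_neg h, map_zero, if_neg (fun h' => h (by rw [h']; exact l.2))]

lemma pderiv_bscv (l : Fin d) (P : PN) :
    pderiv l (bind₁ (scv d W) P) = C (1 / 2 ^ W : ℝ) * bind₁ (scv d W) (pderiv l.val P) := by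
  classical
  induction P using MvPolynomial.induction_on with
  | C a => simp
  | add p q hp hq => simp only [map_add, hp, hq, mul_add]
  | mul_X p k hp =>
    rw [map_mul, Derivation.leibniz, hp, bind₁_X_right, pderiv_scv, Derivation.leibniz, pderiv_X]
    simp only [smul_eq_mul, map_add, map_mul, bind₁_X_right]
    by_cases hk : k = l.val
    · subst hk
      rw [if_pos rfl, Pi.single_eq_same, map_one]
      ring
    · rw [if_neg hk, Pi.single_eq_of_ne hk, map_zero]
      ring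

lemma eval_pderiv_toF (y : Fin d → ℝ) (P : PN) (l : Fin d) :
    eval y (pderiv l (toF d W P)) = eval (unF d W y) (pderiv l.val P) := by
  unfold toF
  rw [pderiv_C_mul, pderiv_bscv, map_mul, map_mul, eval_C, eval_C, eval_bscv]
  have : (2 : ℝ) ^ W ≠ 0 := by positivity
  field_simp

lemma deg_toF (P : PN) : (toF d W P).totalDegree ≤ P.totalDegree := by
  unfold toF
  refine (totalDegree_mul _ _).trans ?_
  rw [totalDegree_C, zero_add]
  refine (KS3.SML.totalDegree_bind_le _ 1 (fun l => ?_) P).trans (by rw [one_mul])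
  unfold scv
  split_ifs with h
  · refine (totalDegree_mul _ _).trans ?_
    rw [totalDegree_C, zero_add, totalDegree_X]
  · rw [totalDegree_zero]
    exact Nat.zero_le _

lemma triP_toF {Φ : ℕ → PN} (hΦ : TriN Φ) : TriP (fun i : Fin d => toF d W (Φ i)) := by
  intro i l hil
  change pderiv l (toF d W (Φ i)) = 0
  unfold toF
  rw [pderiv_C_mul, pderiv_bscv]
  have h1 : pderiv l.val (Φ i) = 0 := by
    refine pderiv_eq_zero_of_notMem_vars fun h => ?_
    have h2 := Finset.mem_range.1 (hΦ i h)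
    have h3 : i.val ≤ l.val := hil
    omega
  rw [h1, map_zero, mul_zero, mul_zero]

/-- The values at a point whose base coordinates are known. -/
lemma eval_eq_unF {P : PN} (hP : P.vars ⊆ range d) {b : ℕ → ℝ} {y : Fin d → ℝ}
    (h : ∀ i : Fin d, y i = 2 ^ W * b i) : eval b P = eval (unF d W y) P := by
  refine eval₂Hom_congr' rfl ?_ rfl
  intro l hl _
  have hl' := Finset.mem_range.1 (hP hl)
  unfold unF
  rw [dif_pos hl', h ⟨l, hl'⟩]
  have : (2 : ℝ) ^ W ≠ 0 := by positivity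
  field_simp

/-- The substitution of the variables of the label. -/
noncomputable def bkv (d W : ℕ) (o : Option (Fin d)) : PN :=
  o.elim (C ((2 : ℝ) ^ W) * MvPolynomial.X d) (fun i => C ((2 : ℝ) ^ W) * MvPolynomial.X i.val)

lemma deg_bkv (o : Option (Fin d)) : (bkv d W o).totalDegree ≤ 1 := by
  cases o with
  | none =>
    change (C ((2 : ℝ) ^ W) * MvPolynomial.X d : PN).totalDegree ≤ 1
    refine (totalDegree_mul _ _).trans ?_
    rw [totalDegree_C, zero_add, totalDegree_X]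
  | some i =>
    change (C ((2 : ℝ) ^ W) * MvPolynomial.X i.val : PN).totalDegree ≤ 1
    refine (totalDegree_mul _ _).trans ?_
    rw [totalDegree_C, zero_add, totalDegree_X]

lemma vars_bkv (o : Option (Fin d)) : (bkv d W o).vars ⊆ range (d + 1) := by
  classical
  cases o with
  | none =>
    change (C ((2 : ℝ) ^ W) * MvPolynomial.X d : PN).vars ⊆ _
    refine (vars_mul _ _).trans ?_
    rw [vars_C, vars_X, Finset.empty_union]
    exact Finset.singleton_subset_iff.2 (Finset.mem_range.2 (Nat.lt_succ_self d))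
  | some i =>
    change (C ((2 : ℝ) ^ W) * MvPolynomial.X i.val : PN).vars ⊆ _
    refine (vars_mul _ _).trans ?_
    rw [vars_C, vars_X, Finset.empty_union]
    exact Finset.singleton_subset_iff.2 (Finset.mem_range.2 (i.2.trans (Nat.lt_succ_self d)))

lemma eval_bkv (Q : MvPolynomial (Option (Fin d)) ℝ) {b : ℕ → ℝ} {B : Option (Fin d) → ℝ}
    (h0 : B none = 2 ^ W * b d) (h : ∀ i : Fin d, B (some i) = 2 ^ W * b i) :
    eval b (bind₁ (bkv d W) Q) = eval B Q := by
  unfold MvPolynomial.eval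
  rw [MvPolynomial.eval₂Hom_bind₁]
  congr 2
  funext o
  cases o with
  | none =>
    change eval b (C ((2 : ℝ) ^ W) * MvPolynomial.X d) = _
    rw [map_mul, eval_C, eval_X, h0]
  | some i =>
    change eval b (C ((2 : ℝ) ^ W) * MvPolynomial.X i.val) = _
    rw [map_mul, eval_C, eval_X, h i]

lemma pderiv_bkv (Q : MvPolynomial (Option (Fin d)) ℝ) :
    pderiv d (bind₁ (bkv d W) Q) = C ((2 : ℝ) ^ W) * bind₁ (bkv d W) (pderiv none Q) := by
  classical
  induction Q using MvPolynomial.induction_on with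
  | C a => simp
  | add p q hp hq => simp only [map_add, hp, hq, mul_add]
  | mul_X p k hp =>
    rw [map_mul, Derivation.leibniz, hp, bind₁_X_right, Derivation.leibniz, pderiv_X]
    simp only [smul_eq_mul, map_add, map_mul, bind₁_X_right]
    cases k with
    | none =>
      have h1 : pderiv d (bkv d W none) = C ((2 : ℝ) ^ W) := by
        change pderiv d (C ((2 : ℝ) ^ W) * MvPolynomial.X d) = _
        rw [pderiv_C_mul, pderiv_X, Pi.single_eq_same, mul_one]
      rw [h1, Pi.single_eq_same, map_one]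
      ring
    | some i =>
      have h1 : pderiv d (bkv d W (some i)) = 0 := by
        change pderiv d (C ((2 : ℝ) ^ W) * MvPolynomial.X i.val) = _
        rw [pderiv_C_mul, pderiv_X, Pi.single_eq_of_ne i.2.ne, mul_zero]
      rw [h1, Pi.single_eq_of_ne (by simp), map_zero]
      ring

lemma iter_bkv (Q : MvPolynomial (Option (Fin d)) ℝ) (k : ℕ) :
    (fun R : PN => pderiv d R)^[k] (bind₁ (bkv d W) Q) =
      C (((2 : ℝ) ^ W) ^ k) * bind₁ (bkv d W) (dnn k Q) := by
  induction k with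
  | zero =>
    change bind₁ (bkv d W) Q = C (((2 : ℝ) ^ W) ^ 0) * bind₁ (bkv d W) Q
    rw [pow_zero, map_one, one_mul]
  | succ k ih =>
    rw [Function.iterate_succ_apply', ih, dnn_succ, pderiv_C_mul, pderiv_bkv,
      ← mul_assoc, ← map_mul, pow_succ]

end scale

section near

variable {m J : ℕ} {F : Fam m J}

/-- The digits of the time between the window and the precision. -/
def tdg (W P₀ : ℕ) (ξ : PtT F) : ℕ := ξ.2.1 / 2 ^ (J - P₀) % 2 ^ (P₀ - W)

/-- The position of a line at the beginning of the window. -/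
noncomputable def aval (c : ℕ → Fin m) (W : ℕ) (l : LnT F) (i : ℕ) : ℝ :=
  if i = 0 then (l.2.2 : ℝ) else 2 ^ W * l.1.1 (c (i - 1)) + l.2.2 * l.1.2 (c (i - 1))

/-- The direction of a line. -/
noncomputable def bval (c : ℕ → Fin m) (l : LnT F) (i : ℕ) : ℝ :=
  if i = 0 then 1 else l.1.2 (c (i - 1))

lemma tim_fam (W P₀ : ℕ) (hWP : W ≤ P₀) (hPJ : P₀ ≤ J) (ω : F.Ω) :
    |2 ^ W * F.t ω - ((F.T1 W ω : ℝ) + (tdg W P₀ (K2S.Fam.pt F ω) : ℝ) /
      ((2 ^ (P₀ - W) : ℕ) : ℝ))| ≤ 1 / ((2 ^ (P₀ - W) : ℕ) : ℝ) := by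
  set M : ℕ := 2 ^ (P₀ - W) with hM
  have hM0 : (0 : ℝ) < M := by
    rw [hM]
    positivity
  set n : ℕ := F.T ω / 2 ^ (J - P₀) with hn
  have h1 : n / M = F.T1 W ω := by
    rw [hn, hM, Nat.div_div_eq_div_mul, ← pow_add]
    have : J - P₀ + (P₀ - W) = J - W := by omega
    rw [this]
    rfl
  have h2 : tdg W P₀ (K2S.Fam.pt F ω) = n % M := rfl
  have h3 : (n : ℝ) = M * (F.T1 W ω : ℝ) + (tdg W P₀ (K2S.Fam.pt F ω) : ℝ) := by
    rw [h2, ← h1]
    exact_mod_cast (Nat.div_add_mod n M).symm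
  have hD : (0 : ℝ) < 2 ^ (J - P₀) := by positivity
  have h4 : (n : ℝ) * 2 ^ (J - P₀) ≤ F.T ω := by
    have := Nat.div_mul_le_self (F.T ω) (2 ^ (J - P₀))
    exact_mod_cast this
  have h5 : (F.T ω : ℝ) < ((n : ℝ) + 1) * 2 ^ (J - P₀) := by
    have h6 : F.T ω < 2 ^ (J - P₀) * (F.T ω / 2 ^ (J - P₀) + 1) :=
      Nat.lt_mul_div_succ _ (by positivity)
    have h7 : (F.T ω : ℝ) < 2 ^ (J - P₀) * ((n : ℝ) + 1) := by exact_mod_cast h6
    linarith
  have e1 : (2 : ℝ) ^ J = 2 ^ (J - P₀) * (M * 2 ^ W) := by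
    rw [hM]
    push_cast
    rw [← pow_add, ← pow_add]
    congr 1
    omega
  have e2 : 2 ^ W * F.t ω = (F.T ω : ℝ) / 2 ^ (J - P₀) / M := by
    unfold Fam.t
    rw [e1]
    have hW : (0 : ℝ) < 2 ^ W := by positivity
    field_simp
  have e3 : 2 ^ W * F.t ω - ((F.T1 W ω : ℝ) + (tdg W P₀ (K2S.Fam.pt F ω) : ℝ) / M) =
      ((F.T ω : ℝ) / 2 ^ (J - P₀) - n) / M := by
    rw [e2, h3]
    field_simp
  rw [e3, abs_div, abs_of_pos hM0]
  refine div_le_div_of_nonneg_right ?_ hM0.le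
  have h8 : (n : ℝ) ≤ (F.T ω : ℝ) / 2 ^ (J - P₀) := (le_div_iff₀ hD).2 h4
  have h9 : (F.T ω : ℝ) / 2 ^ (J - P₀) ≤ n + 1 := ((div_lt_iff₀ hD).2 h5).le
  rw [abs_le]
  constructor <;> linarith

lemma near_fam (c : ℕ → Fin m) (W P₀ : ℕ) (hWP : W ≤ P₀) (hPJ : P₀ ≤ J) (ω : F.Ω) (i : ℕ) :
    |2 ^ W * px c (K2S.Fam.pt F ω) i - (aval c W (KSAT.slam F W ω) i +
      (tdg W P₀ (K2S.Fam.pt F ω) : ℝ) / ((2 ^ (P₀ - W) : ℕ) : ℝ) *
        bval c (KSAT.slam F W ω) i)| ≤ 2 / ((2 ^ (P₀ - W) : ℕ) : ℝ) := by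
  have ht := tim_fam (F := F) W P₀ hWP hPJ ω
  set M : ℕ := 2 ^ (P₀ - W) with hM
  have hM0 : (0 : ℝ) < M := by
    rw [hM]
    positivity
  set td : ℝ := (tdg W P₀ (K2S.Fam.pt F ω) : ℝ) with htd
  have h12 : (1 : ℝ) / M ≤ 2 / M := div_le_div_of_nonneg_right (by norm_num) hM0.le
  by_cases hi : i = 0
  · subst hi
    have e1 : px c (K2S.Fam.pt F ω) 0 = F.t ω := rfl
    have e2 : aval c W (KSAT.slam F W ω) 0 = (F.T1 W ω : ℝ) := rfl
    have e3 : bval c (KSAT.slam F W ω) 0 = 1 := rfl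
    rw [e1, e2, e3, mul_one]
    exact ht.trans h12
  · have e1 : px c (K2S.Fam.pt F ω) i = ((⌊(2 : ℝ) ^ J * F.x ω (c (i - 1))⌋ : ℤ) : ℝ) / 2 ^ J := by
      unfold px
      rw [if_neg hi]
      rfl
    have e2 : aval c W (KSAT.slam F W ω) i = 2 ^ W * F.u ω (c (i - 1)) +
        (F.T1 W ω : ℝ) * F.d ω (c (i - 1)) := by
      unfold aval
      rw [if_neg hi]
      rfl
    have e3 : bval c (KSAT.slam F W ω) i = F.d ω (c (i - 1)) := by
      unfold bval
      rw [if_neg hi]
      rfl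
    rw [e1, e2, e3]
    set x := F.x ω (c (i - 1)) with hx
    set dd := F.d ω (c (i - 1)) with hdd
    have hx' : x = F.u ω (c (i - 1)) + F.t ω * dd := rfl
    have hd1 : |dd| ≤ 1 := F.dir ω _
    have hJ : (0 : ℝ) < 2 ^ J := by positivity
    have hW : (0 : ℝ) < 2 ^ W := by positivity
    have e4 : 2 ^ W * (((⌊(2 : ℝ) ^ J * x⌋ : ℤ) : ℝ) / 2 ^ J) - (2 ^ W * F.u ω (c (i - 1)) +
        (F.T1 W ω : ℝ) * dd + td / M * dd) =
        2 ^ W / 2 ^ J * ((⌊(2 : ℝ) ^ J * x⌋ : ℤ) - 2 ^ J * x) +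
          (2 ^ W * F.t ω - ((F.T1 W ω : ℝ) + td / M)) * dd := by
      rw [hx']
      field_simp
      ring
    rw [e4]
    have h1 : |2 ^ W / 2 ^ J * (((⌊(2 : ℝ) ^ J * x⌋ : ℤ) : ℝ) - 2 ^ J * x)| ≤ 1 / M := by
      rw [abs_mul, abs_of_pos (by positivity : (0 : ℝ) < 2 ^ W / 2 ^ J)]
      have h2 : |((⌊(2 : ℝ) ^ J * x⌋ : ℤ) : ℝ) - 2 ^ J * x| ≤ 1 := by
        have f1 := Int.floor_le ((2 : ℝ) ^ J * x)
        have f2 := Int.lt_floor_add_one ((2 : ℝ) ^ J * x)
        rw [abs_le]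
        constructor <;> linarith
      have h3 : (2 : ℝ) ^ W / 2 ^ J ≤ 1 / M := by
        rw [div_le_div_iff₀ hJ hM0, one_mul, hM]
        push_cast
        rw [← pow_add]
        exact pow_le_pow_right₀ (by norm_num) (by omega)
      calc 2 ^ W / 2 ^ J * |((⌊(2 : ℝ) ^ J * x⌋ : ℤ) : ℝ) - 2 ^ J * x| ≤ 1 / M * 1 :=
            mul_le_mul h3 h2 (abs_nonneg _) (by positivity)
        _ = 1 / M := mul_one _
    have h2 : |(2 ^ W * F.t ω - ((F.T1 W ω : ℝ) + td / M)) * dd| ≤ 1 / M := by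
      rw [abs_mul]
      calc |2 ^ W * F.t ω - ((F.T1 W ω : ℝ) + td / M)| * |dd| ≤ 1 / M * 1 :=
            mul_le_mul ht hd1 (abs_nonneg _) (by positivity)
        _ = 1 / M := mul_one _
    refine (abs_add_le _ _).trans ((add_le_add h1 h2).trans (le_of_eq ?_))
    ring

end near

section main

/-- The point of the leaf of the coordinate `r + 1` over `b`. -/
noncomputable def lfpt (r : ℕ) (Φ : ℕ → PN) (b : ℕ → ℝ) : ℕ → ℝ :=
  Function.update b (r + 1) (eval b (Φ (r + 1)))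

/-- The scaled positions. -/
noncomputable def zsc {m J : ℕ} {F : Fam m J} (c : ℕ → Fin m) (r W : ℕ) (ξ : PtT F)
    (o : Option (Fin (r + 1))) : ℝ := 2 ^ W * px c ξ (o.elim (r + 1) (fun i => i.val))

lemma unF_bse {m J : ℕ} {F : Fam m J} (c : ℕ → Fin m) (r W : ℕ) (ξ : PtT F) {P : PN} {i : ℕ}
    (hi : i ≤ r + 1) (hP : P.vars ⊆ range i) :
    eval (px c ξ) P = eval (unF (r + 1) W (bse (zsc c r W ξ))) P :=
  eval_eq_unF (hP.trans (Finset.range_mono hi)) (fun _ => rfl)

lemma nd_eq {m J : ℕ} {F : Fam m J} {c : ℕ → Fin m} {r W : ℕ} {P₀ : ℕ} {V : Type}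
    (hWP : W ≤ P₀) (z : PtT F → V) (P : V → ℕ → PN) (hP : ∀ v, TriN (P v)) (ξ : PtT F) :
    nd (2 ^ (P₀ - W)) (zsc c r W) z (fun v (i : Fin (r + 1)) => toF (r + 1) W (P v i)) ξ =
      fun i : Fin (r + 1) => ndp c P₀ (P (z ξ)) ξ i := by
  funext i
  unfold nd ndg ndp
  rw [eval_toF, ← unF_bse c r W ξ i.2.le (hP (z ξ) i)]
  congr 1
  have e1 : bse (zsc c r W ξ) i = 2 ^ W * px c ξ i := rfl
  have e2 : (2 : ℝ) ^ P₀ = 2 ^ (P₀ - W) * 2 ^ W := by
    rw [← pow_add]
    congr 1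
    omega
  rw [e1, e2]
  push_cast
  ring

/-- **Degree control for a family with closed labels on natural boxes.** The variables are the time
(`0`) and the coordinates `c 0, …, c r` (`1, …, r + 1`); the coordinate `c r` is passive. -/
theorem m3f_fam (r D j K₀ : ℕ)
    (hch : (j + (r + 1)).choose (r + 1) < (D + (r + 1) + 1).choose (r + 1 + 1))
    (hj : 6 * (r + 1) * D ≤ j) : ∃ (C : ℝ) (C' : ℕ), 0 ≤ C ∧
    ∀ {m J : ℕ} (F : Fam m J) (c : ℕ → Fin m) (W : ℕ) (g : ℕ → ℕ) (L : ℝ) (B : F.Ω → Prop)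
      (V : Type) (z : PtT F → V) (z' : LnT F → V) (P : V → ℕ → PN) (kap N : ℕ)
      (S : Type) [Fintype S] (q : S → ℝ) (o o' : ℕ → S → F.Ω) (l : ℕ → S → LnT F)
      (y : ℕ → S → PtT F) (e₁ e₂ e₄ e₄' : ℝ),
      NLab F c r W g K₀ L B z z' P → 0 ≤ L → 0 < law F.p B True → g r ≤ J → W ≤ g r →
      (∀ i < r + 1, W ≤ wid W g i + kap) → (∀ i < r + 1, wid W g i + (j + 2) * kap ≤ g r) →
      KS3.IsChain (cond F.p B True) (KSAT.slam F W) (K2S.Fam.pt F) N q o o' l y →
      0 ≤ e₁ → 0 ≤ e₂ → 0 ≤ e₄ → 0 ≤ e₄' →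
      ((g r : ℝ) - W) * Real.log 2 - CH (cond F.p B True)
        (fun ω => tdg W (g r) (K2S.Fam.pt F ω)) (KSAT.slam F W) ≤ e₁ →
      (∑ i : Fin (r + 1), ((g r : ℝ) - wid W g i) * Real.log 2) - CH (cond F.p B True)
        (fun ω (i : Fin (r + 1)) => ndp c (g r) (P (z (K2S.Fam.pt F ω))) (K2S.Fam.pt F ω) i)
        (fun ω => z (K2S.Fam.pt F ω)) ≤ e₂ →
      CH q (fun w (i : Fin (r + 1)) => ndp c (g r) (P (z (y N w))) (y N w) i)
          (fun w => z (y N w)) -
        CH q (fun w (i : Fin (r + 1)) => ndp c (g r) (P (z (y N w))) (y N w) i) (y 0) ≤ e₄ →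
      CH q (fun w (i : Fin (r + 1)) => ndp c (g r) (P (z (y 0 w))) (y 0 w) i)
          (fun w => z (y 0 w)) -
        CH q (fun w (i : Fin (r + 1)) => ndp c (g r) (P (z (y 0 w))) (y 0 w) i) (y N) ≤ e₄' →
      kap * Real.log 2 ≤ C * (e₂ + e₄ + e₄' + N * (e₁ + 1) + Real.log (1 + L) + 1) ∨
      ∃ ω, B ω ∧ 0 < F.p ω ∧ ∃ R : PN, R.totalDegree ≤ D ∧ R.vars ⊆ range (r + 2) ∧
        ∃ b₀, CLO.Bxr 2 (wid W g) (P (z (K2S.Fam.pt F ω))) (r + 1) b₀ ∧
          0 < |eval (lfpt r (P (z (K2S.Fam.pt F ω))) b₀) (pderiv (r + 1) R)| ∧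
          ∀ b, CLO.Bxr 2 (wid W g) (P (z (K2S.Fam.pt F ω))) (r + 1) b → ∀ k,
            ((2 : ℝ) ^ (C' * kap) / 2 ^ g r) ^ k *
              |eval (lfpt r (P (z (K2S.Fam.pt F ω))) b) ((fun S : PN => pderiv (r + 1) S)^[k] R)| ≤
            (2 : ℝ) ^ (C' * kap) / 2 ^ g r *
              |eval (lfpt r (P (z (K2S.Fam.pt F ω))) b₀) (pderiv (r + 1) R)| := by
  classical
  obtain ⟨C, hC, hlab⟩ := m3f_lab (r + 1) D j K₀ hch hj
  obtain ⟨K₁, hK₁, hjts⟩ := jts (r + 1) D K₀
  set E : ℕ := (K₀ + 1) ^ (r + 1 + 1) * D with hE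
  obtain ⟨c₁, hc₁⟩ : ∃ c₁ : ℕ, K₁ * 12 ^ E ≤ 2 ^ c₁ := by
    obtain ⟨n, hn⟩ := pow_unbounded_of_one_lt (K₁ * 12 ^ E) (by norm_num : (1 : ℝ) < 2)
    exact ⟨n, hn.le⟩
  refine ⟨2 * C, c₁ + E + j + 1, by positivity, ?_⟩
  intro m J F c W g L B V z z' P kap N S _ q o o' l y e₁ e₂ e₄ e₄' hN hL hB hgJ hWg hWw hwk hchn
    he₁0 he₂0 he₄0 he₄'0 he₁ he₂ he₄ he₄'
  set p := cond F.p B True with hp
  have hpl : IsLaw p :=
    { nonneg := cond_nonneg F.isLaw.nonneg B True
      sum_one := sum_cond F.p B hB.ne' }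
  have hpB : ∀ ω, 0 < p ω → B ω ∧ 0 < F.p ω := by
    intro ω hω
    rw [hp] at hω
    unfold Pool.Agent.H49.Ent.cond at hω
    split_ifs at hω with h
    · refine ⟨of_eq_true h, ?_⟩
      by_contra hcon
      have h1 : F.p ω = 0 := le_antisymm (not_lt.1 hcon) (F.isLaw.nonneg ω)
      rw [h1, zero_div] at hω
      exact lt_irrefl _ hω
    · exact absurd hω (lt_irrefl _)
  set P₀ : ℕ := g r with hP₀
  set M : ℕ := 2 ^ (P₀ - W) with hM
  set K : ℕ := 2 ^ kap with hK
  set Ng : Fin (r + 1) → ℕ := fun i => 2 ^ (P₀ - wid W g i - kap) with hNg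
  have hM1 : 1 ≤ M := Nat.one_le_two_pow
  have hK1 : 1 ≤ K := Nat.one_le_two_pow
  have hM0 : (0 : ℝ) < M := by exact_mod_cast hM1
  have hK0 : (0 : ℝ) < K := by exact_mod_cast hK1
  have hN1 : ∀ i, 1 ≤ Ng i := fun i => Nat.one_le_two_pow
  have hN0 : ∀ i, (0 : ℝ) < Ng i := fun i => by exact_mod_cast hN1 i
  have hW0 : (0 : ℝ) < 2 ^ W := by positivity
  have hkw : ∀ i : Fin (r + 1), wid W g i + kap ≤ P₀ := by
    intro i
    have h1 := hwk i i.2
    have h2 : kap ≤ (j + 2) * kap := Nat.le_mul_of_pos_left kap (by omega)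
    omega
  -- the natural width
  have hKN : ∀ i : Fin (r + 1), (K : ℝ) * Ng i / M = 2 ^ W / 2 ^ wid W g i := by
    intro i
    have h1 := hkw i
    rw [div_eq_div_iff hM0.ne' (by positivity)]
    simp only [hK, hNg, hM]
    push_cast
    rw [← pow_add, ← pow_add, ← pow_add]
    congr 1
    have h2 := hWw i i.2
    omega
  have hKNn : ∀ i : Fin (r + 1), K * Ng i = 2 ^ (P₀ - wid W g i) := by
    intro i
    have h1 := hkw i
    simp only [hK, hNg]
    rw [← pow_add]
    congr 1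
    omega
  set gg : V → Fin (r + 1) → MvPolynomial (Fin (r + 1)) ℝ :=
    fun v i => toF (r + 1) W (P v i) with hgg
  set gN : V → MvPolynomial (Fin (r + 1)) ℝ := fun v => toF (r + 1) W (P v (r + 1)) with hgN
  have htri : ∀ v, TriP (gg v) := fun v => triP_toF (hN.tri v)
  have hdeg : ∀ v i, (gg v i).totalDegree ≤ K₀ := fun v i => (deg_toF _).trans (hN.deg v _)
  have hdegN : ∀ v, (gN v).totalDegree ≤ K₀ := fun v => (deg_toF _).trans (hN.deg v _)
  have hnd : ∀ ξ, nd M (zsc c r W) z gg ξ =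
      fun i : Fin (r + 1) => ndp c P₀ (P (z ξ)) ξ i := fun ξ => nd_eq hWg z P hN.tri ξ
  -- the positions
  have hposi : ∀ ω, B ω → ∀ i : Fin (r + 1), |zsc c r W (K2S.Fam.pt F ω) (some i) -
      eval (bse (zsc c r W (K2S.Fam.pt F ω))) (gg (z (K2S.Fam.pt F ω)) i)| ≤ K * Ng i / M := by
    intro ω hω i
    set ξ := K2S.Fam.pt F ω with hξ
    rw [hgg]
    change |_ - eval _ (toF (r + 1) W (P (z ξ) i))| ≤ _
    rw [eval_toF, ← unF_bse c r W ξ i.2.le (hN.tri (z ξ) i), hKN]
    have e1 : zsc c r W ξ (some i) = 2 ^ W * px c ξ i := rfl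
    rw [e1, ← mul_sub, abs_mul, abs_of_pos hW0, div_eq_mul_one_div (2 ^ W : ℝ)]
    refine mul_le_mul_of_nonneg_left ?_ hW0.le
    rcases Nat.eq_zero_or_pos i.val with h0 | h0
    · have e2 : wid W g i = W := by
        unfold wid
        rw [if_pos h0]
      have h0z : P (z ξ) 0 = MvPolynomial.C ((F.T1 W ω : ℝ) / 2 ^ W) := hN.zero ω hω
      rw [e2, h0, h0z, eval_C]
      have h1 := tim_fam (F := F) W W le_rfl (hWg.trans hgJ) ω
      have e3 : px c ξ 0 = F.t ω := rfl
      have e4 : (tdg W W (K2S.Fam.pt F ω) : ℝ) = 0 := by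
        unfold tdg
        rw [Nat.sub_self, pow_zero, Nat.mod_one, Nat.cast_zero]
      rw [e4, zero_div, add_zero, Nat.sub_self, pow_zero, Nat.cast_one, div_one] at h1
      rw [e3]
      have e5 : F.t ω - (F.T1 W ω : ℝ) / 2 ^ W = (2 ^ W * F.t ω - F.T1 W ω) / 2 ^ W := by
        field_simp
      rw [e5, abs_div, abs_of_pos hW0]
      exact div_le_div_of_nonneg_right h1 hW0.le
    · obtain ⟨i', hi'⟩ : ∃ i', i.val = i' + 1 := ⟨i.val - 1, by omega⟩
      have e2 : wid W g i = g i' := by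
        unfold wid
        rw [if_neg (by omega), hi', Nat.add_sub_cancel]
      rw [e2, hi']
      exact hN.pos ω hω i' (by
        have := i.2
        omega)
  have hposN : ∀ ω, B ω → |zsc c r W (K2S.Fam.pt F ω) none -
      eval (bse (zsc c r W (K2S.Fam.pt F ω))) (gN (z (K2S.Fam.pt F ω)))| ≤ 1 / M := by
    intro ω hω
    set ξ := K2S.Fam.pt F ω with hξ
    rw [hgN]
    change |_ - eval _ (toF (r + 1) W (P (z ξ) (r + 1)))| ≤ _
    rw [eval_toF, ← unF_bse c r W ξ le_rfl (hN.tri (z ξ) (r + 1))]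
    have e1 : zsc c r W ξ none = 2 ^ W * px c ξ (r + 1) := rfl
    rw [e1, ← mul_sub, abs_mul, abs_of_pos hW0]
    have h1 := hN.pos ω hω r le_rfl
    have e2 : (1 : ℝ) / M = 2 ^ W * (1 / 2 ^ g r) := by
      rw [mul_one_div, div_eq_div_iff hM0.ne' (by positivity), hM, one_mul]
      push_cast
      rw [← pow_add]
      congr 1
      omega
    rw [e2]
    exact mul_le_mul_of_nonneg_left h1 hW0.le
  -- the index of the cell
  have hidx : ∀ ω, B ω → ∀ i : Fin (r + 1), |((nidx Ng (nd M (zsc c r W) z gg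
      (K2S.Fam.pt F ω)) i : ℤ) : ℝ)| ≤ K := by
    intro ω hω i
    have h1 := hposi ω hω i
    set ξ := K2S.Fam.pt F ω with hξ
    set s : ℝ := zsc c r W ξ (some i) - eval (bse (zsc c r W ξ)) (gg (z ξ) i) with hs
    have e1 : nd M (zsc c r W) z gg ξ i = ⌊(M : ℝ) * s⌋ := rfl
    rw [le_div_iff₀ hM0] at h1
    have h1' : |(M : ℝ) * s| ≤ K * Ng i := by
      rw [abs_mul, abs_of_pos hM0, mul_comm]
      exact h1
    rw [abs_le] at h1'
    have h2 : nd M (zsc c r W) z gg ξ i ≤ K * Ng i := by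
      rw [e1]
      have : (⌊(M : ℝ) * s⌋ : ℝ) ≤ ((K * Ng i : ℕ) : ℝ) := by
        push_cast
        linarith [Int.floor_le ((M : ℝ) * s), h1'.2]
      exact_mod_cast this
    have h3 : -((K * Ng i : ℕ) : ℤ) ≤ nd M (zsc c r W) z gg ξ i := by
      rw [e1, Int.le_floor]
      push_cast
      linarith [h1'.1]
    have hNi : (0 : ℤ) < Ng i := by exact_mod_cast hN1 i
    have h4 : nidx Ng (nd M (zsc c r W) z gg ξ) i ≤ K := by
      unfold nidx
      exact Int.ediv_le_of_le_mul hNi h2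
    have h5 : -(K : ℤ) ≤ nidx Ng (nd M (zsc c r W) z gg ξ) i := by
      unfold nidx
      rw [Int.le_ediv_iff_mul_le hNi]
      push_cast at h3
      linarith
    rw [abs_le]
    constructor
    · exact_mod_cast h5
    · exact_mod_cast h4
  -- from the box in the scaled variables to the box in the variables of the label
  have hbox : ∀ v : V, ∀ y : Fin (r + 1) → ℝ, (∀ i : Fin (r + 1), |y i - eval y (gg v i)| ≤
      2 * (K * Ng i / M)) → CLO.Bxr 2 (wid W g) (P v) (r + 1) (unF (r + 1) W y) := by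
    intro v y hy i hi
    have h1 := hy ⟨i, hi⟩
    rw [hgg] at h1
    change |_ - eval y (toF (r + 1) W (P v i))| ≤ _ at h1
    rw [eval_toF, hKN] at h1
    have e1 : y ⟨i, hi⟩ = 2 ^ W * unF (r + 1) W y i := by
      unfold unF
      rw [dif_pos hi]
      field_simp
    rw [e1, ← mul_sub, abs_mul, abs_of_pos hW0] at h1
    have e2 : (2 : ℝ) * (2 ^ W / 2 ^ wid W g i) = 2 ^ W * (2 / 2 ^ wid W g i) := by ring
    change _ ≤ 2 * (2 ^ W / 2 ^ wid W g i) at h1
    rw [e2] at h1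
    exact le_of_mul_le_mul_left h1 hW0
  have hcb : ∀ ω, B ω → ∀ y ∈ ncell M Ng (gg (z (K2S.Fam.pt F ω)))
      (nidx Ng (nd M (zsc c r W) z gg (K2S.Fam.pt F ω))), ∀ i : Fin (r + 1),
      |y i - eval y (gg (z (K2S.Fam.pt F ω)) i)| ≤ 2 * (K * Ng i / M) := by
    intro ω hω y hy i
    obtain ⟨h1, h2⟩ := hy i
    have h3 := hidx ω hω i
    rw [abs_le] at h3
    have h4 : 0 < (Ng i : ℝ) / M := div_pos (hN0 i) hM0
    have hK1' : (1 : ℝ) ≤ K := by exact_mod_cast hK1
    set b := ((nidx Ng (nd M (zsc c r W) z gg (K2S.Fam.pt F ω)) i : ℤ) : ℝ) with hb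
    have e1 : b * Ng i / M = b * (Ng i / M) := by ring
    have e2 : (K : ℝ) * Ng i / M = K * (Ng i / M) := by ring
    rw [e1] at h1 h2
    rw [e2, abs_le]
    constructor
    · nlinarith [h3.1]
    · nlinarith [h3.2]
  -- the incidences
  have hinc : Inc M 2 p (KSAT.slam F W) (K2S.Fam.pt F) (tdg W P₀) (zsc c r W)
      (fun l o => aval c W l (o.elim (r + 1) (fun i : Fin (r + 1) => i.val)))
      (fun l o => bval c l (o.elim (r + 1) (fun i : Fin (r + 1) => i.val))) := by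
    refine ⟨hpl, ?_, ?_, ?_⟩
    · intro ω _
      exact Nat.mod_lt _ (by positivity)
    · intro ω _ o
      exact near_fam c W P₀ hWg hgJ ω _
    · intro ω _ o
      unfold bval
      split_ifs
      · norm_num
      · exact (F.dir ω _).trans (by norm_num)
  -- the labels
  have hgr : ∀ ω, B ω → ∀ y ∈ ncell M Ng (gg (z (K2S.Fam.pt F ω)))
      (nidx Ng (nd M (zsc c r W) z gg (K2S.Fam.pt F ω))), ∀ i ≤ r + 1, ∀ l : Fin (r + 1),
      |eval y (pderiv l (toF (r + 1) W (P (z (K2S.Fam.pt F ω)) i)))| ≤ L := by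
    intro ω hω y hy i hi l
    rw [eval_pderiv_toF]
    by_cases hl : l.val < i
    · exact hN.grad ω hω _ ((hbox _ y (hcb ω hω y hy)).mono (by norm_num) le_rfl) i hi l hl
    · have h1 : pderiv l.val (P (z (K2S.Fam.pt F ω)) i) = 0 :=
        pderiv_eq_zero_of_notMem_vars fun h => hl (Finset.mem_range.1 (hN.tri _ i h))
      rw [h1, map_zero, abs_zero]
      exact hL
  have hlabD : LabD K₀ 2 L M K p (KSAT.slam F W) (K2S.Fam.pt F) (zsc c r W) z z' gg gN Ng := by
    refine ⟨hN1, ?_, ?_, fun ω _ => htri _, fun ω _ i => hdeg _ i, fun ω _ => hdegN _, ?_, ?_,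
      ?_, ?_⟩
    · intro i
      refine Nat.pow_le_pow_right (by norm_num) ?_
      have := hWw i i.2
      omega
    · intro ω hω
      exact hN.cls ω (hpB ω hω).1
    · intro ω hω i
      have h1 := hposi ω (hpB ω hω).1 i
      have h2 : 0 ≤ (K : ℝ) * Ng i / M := by
        have := hN0 i
        positivity
      exact h1.trans (by linarith)
    · intro ω hω
      exact (hposN ω (hpB ω hω).1).trans (div_le_div_of_nonneg_right (by norm_num) hM0.le)
    · intro ω hω y hy i l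
      exact hgr ω (hpB ω hω).1 y hy i i.2.le l
    · intro ω hω y hy l
      exact hgr ω (hpB ω hω).1 y hy (r + 1) le_rfl l
  have hlog2 : 0 < Real.log 2 := Real.log_pos (by norm_num)
  have hlog2' : Real.log 2 ≤ 1 := by
    have := Real.log_two_lt_d9
    linarith
  have hlL : 0 ≤ Real.log (1 + L) := Real.log_nonneg (by linarith)
  have hN' : (0 : ℝ) ≤ N := Nat.cast_nonneg N
  have hNe : 0 ≤ (N : ℝ) * (e₁ + 1) := by positivity
  rcases Nat.eq_zero_or_pos kap with hk0 | hk0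
  · left
    rw [hk0, Nat.cast_zero, zero_mul]
    positivity
  by_cases hbad : ∀ ω, 0 < p ω → BadL D ((K : ℝ) ^ (j + 1) / M) (gN (z (K2S.Fam.pt F ω)))
      (ncell M Ng (gg (z (K2S.Fam.pt F ω)))
        (nidx Ng (nd M (zsc c r W) z gg (K2S.Fam.pt F ω))))
  · left
    have key := hlab 2 L F.Ω (LnT F) (PtT F) S V p (KSAT.slam F W) (K2S.Fam.pt F) (tdg W P₀)
      (zsc c r W) (fun l o => aval c W l (o.elim (r + 1) (fun i : Fin (r + 1) => i.val)))
      (fun l o => bval c l (o.elim (r + 1) (fun i : Fin (r + 1) => i.val))) z z' gg gN Ng K M N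
      q o o' l y e₁ e₂ e₄ e₄' (by norm_num) hL hM1 hK1 hinc hlabD hchn (by
        intro i
        simp only [hK, hNg]
        rw [← pow_mul]
        refine Nat.pow_le_pow_right (by norm_num) ?_
        have h1 := hwk i i.2
        have h2 : kap * (j + 1) + kap = (j + 2) * kap := by ring
        omega) hbad he₁0 he₂0 he₄0 he₄'0 (by
        have e1 : Real.log (M : ℝ) = ((P₀ : ℝ) - W) * Real.log 2 := by
          rw [hM]
          push_cast
          rw [Real.log_pow, Nat.cast_sub hWg]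
        rw [e1]
        exact he₁) (by
        have e1 : (∑ i, Real.log ((K * Ng i : ℕ) : ℝ)) =
            ∑ i : Fin (r + 1), ((P₀ : ℝ) - wid W g i) * Real.log 2 := by
          refine Finset.sum_congr rfl fun i _ => ?_
          rw [hKNn i]
          push_cast
          have h1 := hkw i
          rw [Real.log_pow, Nat.cast_sub (by omega)]
        rw [e1]
        simp only [hnd]
        exact he₂) (by
        simp only [hnd]
        exact he₄) (by
        simp only [hnd]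
        exact he₄')
    have e1 : Real.log (K : ℝ) = kap * Real.log 2 := by
      rw [hK]
      push_cast
      rw [Real.log_pow]
    rw [e1] at key
    refine key.trans ?_
    calc C * (e₂ + e₄ + e₄' + N * (e₁ + 1) + Real.log 2 + Real.log (1 + L) + 1) ≤
          C * (2 * (e₂ + e₄ + e₄' + N * (e₁ + 1) + Real.log (1 + L) + 1)) :=
          mul_le_mul_of_nonneg_left (by linarith) hC
      _ = 2 * C * (e₂ + e₄ + e₄' + N * (e₁ + 1) + Real.log (1 + L) + 1) := by ring
  · right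
    push Not at hbad
    obtain ⟨ω, hω, hnb⟩ := hbad
    obtain ⟨hBω, hpω⟩ := hpB ω hω
    set ξ := K2S.Fam.pt F ω with hξ
    set v := z ξ with hv
    unfold BadL at hnb
    push Not at hnb
    obtain ⟨Q, hQ0, hQD, hQ⟩ := hnb
    set bi := nidx Ng (nd M (zsc c r W) z gg ξ) with hbi
    -- the box
    have hw : ∀ i, 0 < nwid M Ng i := fun i => div_pos (hN0 i) hM0
    have hK1' : (1 : ℝ) ≤ K := by exact_mod_cast hK1
    have hρ0 : (0 : ℝ) < 2 ^ ((c₁ + E + j + 1) * kap) / M := by positivity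
    obtain ⟨Q', hQ'D, y₀, hy₀, hy₀p, hy₀m⟩ := hjts (gg v) (gN v) (ncor M Ng bi) (nwid M Ng)
      (fun i => -(2 * (K * Ng i / M))) (fun i => 4 * (K * Ng i / M)) (4 * K)
      ((K : ℝ) ^ (j + 1) / M) (2 ^ ((c₁ + E + j + 1) * kap) / M) Q (htri v) (hdeg v) (hdegN v) hw
      (fun i => by
        have := hN0 i
        positivity)
      (fun i => by
        have h3 := hidx ω hBω i
        rw [abs_le] at h3
        have h4 := hw i
        unfold ncor
        unfold nwid at h4
        have e1 : (bi i : ℝ) * Ng i / M = bi i * (Ng i / M) := by ring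
        have e2 : (K : ℝ) * Ng i / M = K * (Ng i / M) := by ring
        rw [e1, e2]
        nlinarith [h3.1])
      (fun i => by
        have h3 := hidx ω hBω i
        rw [abs_le] at h3
        have h4 := hw i
        unfold ncor
        unfold nwid at h4 ⊢
        have e1 : (bi i : ℝ) * Ng i / M = bi i * (Ng i / M) := by ring
        have e2 : (K : ℝ) * Ng i / M = K * (Ng i / M) := by ring
        rw [e1, e2]
        nlinarith [h3.2])
      (fun i => by
        unfold nwid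
        exact le_of_eq (by ring)) (by linarith) hρ0 (by
        -- the size of the unit
        have e1 : (3 : ℝ) * (4 * K) = 12 * K := by ring
        have e2 : (2 : ℝ) ^ ((c₁ + E + j + 1) * kap) = 2 ^ (c₁ * kap) * (K : ℝ) ^ (E + (j + 1)) := by
          rw [hK]
          push_cast
          rw [← pow_mul, ← pow_add]
          congr 1
          ring
        rw [e1, mul_pow, e2]
        have h5 : K₁ * 12 ^ E ≤ 2 ^ (c₁ * kap) :=
          hc₁.trans (pow_le_pow_right₀ (by norm_num) (Nat.le_mul_of_pos_right c₁ hk0))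
        calc K₁ * (12 ^ E * (K : ℝ) ^ E) * ((K : ℝ) ^ (j + 1) / M) =
              K₁ * 12 ^ E * ((K : ℝ) ^ (E + (j + 1)) / M) := by rw [pow_add]; ring
          _ ≤ 2 ^ (c₁ * kap) * ((K : ℝ) ^ (E + (j + 1)) / M) :=
              mul_le_mul_of_nonneg_right h5 (by positivity)
          _ = _ := by ring) (by positivity) hQ0 hQD (by
        intro y' hy'
        exact hQ y' hy')
    -- back to the variables of the label
    have hbx : ∀ y, y ∈ bx (gg v) (fun i => -(2 * (K * Ng i / M)))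
        (fun i => 4 * (K * Ng i / M)) ↔ ∀ i, |y i - eval y (gg v i)| ≤ 2 * (K * Ng i / M) := by
      intro y
      constructor
      · intro h i
        obtain ⟨h1, h2⟩ := h i
        rw [abs_le]
        constructor <;> linarith
      · intro h i
        have h1 := h i
        rw [abs_le] at h1
        constructor <;> linarith [h1.1, h1.2]
    have hlf : ∀ (b : ℕ → ℝ) (y : Fin (r + 1) → ℝ), (∀ i : Fin (r + 1), y i = 2 ^ W * b i) →
        ∀ R : MvPolynomial (Option (Fin (r + 1))) ℝ,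
        eval (lfpt r (P v) b) (bind₁ (bkv (r + 1) W) R) = eval (lpt (gN v) y) R := by
      intro b y hby R
      refine eval_bkv R ?_ ?_
      · change eval y (toF (r + 1) W (P v (r + 1))) = _
        rw [eval_toF, ← eval_eq_unF (hN.tri v (r + 1)) hby]
        unfold lfpt
        rw [Function.update_self]
      · intro i
        change y i = _
        rw [hby i]
        unfold lfpt
        rw [Function.update_of_ne i.2.ne]
    have hun : ∀ y : Fin (r + 1) → ℝ, ∀ i : Fin (r + 1), y i = 2 ^ W * unF (r + 1) W y i := by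
      intro y i
      unfold unF
      rw [dif_pos i.2]
      field_simp
    refine ⟨ω, hBω, hpω, bind₁ (bkv (r + 1) W) Q', ?_, ?_, unF (r + 1) W y₀,
      hbox v y₀ ((hbx y₀).1 hy₀), ?_, ?_⟩
    · refine (KS3.SML.totalDegree_bind_le _ 1 deg_bkv Q').trans ?_
      rw [one_mul]
      exact hQ'D
    · refine (vars_bind₁ _ _).trans ?_
      rw [Finset.biUnion_subset]
      exact fun o _ => vars_bkv o
    · rw [pderiv_bkv, map_mul, eval_C, hlf _ y₀ (hun y₀), abs_mul, abs_of_pos hW0]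
      positivity
    · intro b hb k
      rw [iter_bkv, pderiv_bkv, map_mul, map_mul, eval_C, eval_C,
        hlf _ y₀ (hun y₀), hlf b (fun i => 2 ^ W * b i) (fun i => rfl), abs_mul, abs_mul,
        abs_of_pos hW0, abs_of_pos (by positivity : (0 : ℝ) < ((2 : ℝ) ^ W) ^ k)]
      have h1 := hy₀m (fun i => 2 ^ W * b i) ((hbx _).2 (by
        intro i
        have h2 := hb i i.2
        have h3 : eval (fun i : Fin (r + 1) => 2 ^ W * b i) (gg v i) = 2 ^ W * eval b (P v i) := by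
          rw [hgg]
          change eval _ (toF (r + 1) W (P v i)) = _
          rw [eval_toF, ← eval_eq_unF ((hN.tri v i).trans (Finset.range_mono i.2.le))
            (fun _ => rfl)]
        rw [h3, ← mul_sub, abs_mul, abs_of_pos hW0, hKN]
        calc 2 ^ W * |b i - eval b (P v i)| ≤ 2 ^ W * (2 / 2 ^ wid W g i) :=
              mul_le_mul_of_nonneg_left h2 hW0.le
          _ = 2 * (2 ^ W / 2 ^ wid W g i) := by ring)) k
      have e1 : (2 : ℝ) ^ ((c₁ + E + j + 1) * kap) / 2 ^ P₀ =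
          2 ^ ((c₁ + E + j + 1) * kap) / M / 2 ^ W := by
        have e2 : (2 : ℝ) ^ P₀ = M * 2 ^ W := by
          rw [hM]
          push_cast
          rw [← pow_add]
          congr 1
          omega
        rw [e2, div_div]
      rw [e1]
      set ρ : ℝ := 2 ^ ((c₁ + E + j + 1) * kap) / M with hρ
      have e3 : (ρ / 2 ^ W) ^ k * (((2 : ℝ) ^ W) ^ k *
          |eval (lpt (gN v) fun i => 2 ^ W * b i) (dnn k Q')|) =
          ρ ^ k * |eval (lpt (gN v) fun i => 2 ^ W * b i) (dnn k Q')| := by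
        rw [div_pow]
        field_simp
      have e4 : ρ / 2 ^ W * (2 ^ W * |eval (lpt (gN v) y₀) (pderiv none Q')|) =
          ρ * |eval (lpt (gN v) y₀) (pderiv none Q')| := by
        field_simp
      rw [e3, e4]
      exact h1

end main

end Pool.M3F
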