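import Pool.Agent.H37.M3F.Box

/-!
# Degree control in terms of labels

The label of a point gives polynomials `g i` (base coordinates, each one in the coordinates before
it) and `gN` (passive coordinate). The natural digits of a point are the digits of
`z i - g i (z)`. If they are full given the label and mix along a chain, then the leaf
`z none = gN (z)` satisfies on most cells an equation of universal degree.
-/

set_option autoImplicit false

namespace Pool.M3F

open Finset Real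
open Pool.Agent.H49.Ent Pool.Agent.H32.Dense Pool.STK Pool.KAF Pool.KAL Pool.KS3

/-- The base coordinates. -/
def bse {d : ℕ} (z : Option (Fin d) → ℝ) : Fin d → ℝ := fun i => z (some i)

/-- The point of the leaf over a base point. -/
noncomputable def lpt {d : ℕ} (gN : MvPolynomial (Fin d) ℝ) (y : Fin d → ℝ) :
    Option (Fin d) → ℝ := fun o => o.elim (MvPolynomial.eval y gN) y

/-- The natural digits. -/
noncomputable def ndg {d : ℕ} (M : ℕ) (g : Fin d → MvPolynomial (Fin d) ℝ) (y : Fin d → ℝ) :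
    Fin d → ℤ := fun i => ⌊(M : ℝ) * (y i - MvPolynomial.eval y (g i))⌋

/-- The natural cell with index `b`. -/
def ncell {d : ℕ} (M : ℕ) (Ng : Fin d → ℕ) (g : Fin d → MvPolynomial (Fin d) ℝ) (b : Fin d → ℤ) :
    Set (Fin d → ℝ) :=
  {y | ∀ i, (b i : ℝ) * Ng i / M ≤ y i - MvPolynomial.eval y (g i) ∧
    y i - MvPolynomial.eval y (g i) ≤ (b i : ℝ) * Ng i / M + (Ng i : ℝ) / M}

/-- The index of the cell of a point with the natural digits `n`. -/
def nidx {d : ℕ} (Ng : Fin d → ℕ) (n : Fin d → ℤ) : Fin d → ℤ := fun i => n i / (Ng i : ℤ)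

/-- The position in the cell. -/
def nrem {d : ℕ} (Ng : Fin d → ℕ) (n : Fin d → ℤ) : Fin d → ℕ := fun i => (n i % (Ng i : ℤ)).toNat

lemma nrem_cast {d : ℕ} {Ng : Fin d → ℕ} (hN : ∀ i, 1 ≤ Ng i) (n : Fin d → ℤ) (i : Fin d) :
    ((nrem Ng n i : ℕ) : ℤ) = n i - nidx Ng n i * Ng i := by
  have h1 : (0 : ℤ) < Ng i := by exact_mod_cast hN i
  have h2 : 0 ≤ n i % (Ng i : ℤ) := Int.emod_nonneg _ h1.ne'
  unfold nrem nidx
  rw [Int.toNat_of_nonneg h2, Int.emod_def]
  ring

lemma nrem_lt {d : ℕ} {Ng : Fin d → ℕ} (hN : ∀ i, 1 ≤ Ng i) (n : Fin d → ℤ) (i : Fin d) :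
    nrem Ng n i < Ng i := by
  have h1 : (0 : ℤ) < Ng i := by exact_mod_cast hN i
  have h2 : 0 ≤ n i % (Ng i : ℤ) := Int.emod_nonneg _ h1.ne'
  have h3 := Int.emod_lt_of_pos (n i) h1
  unfold nrem
  rw [Int.toNat_lt h2]
  exact h3

/-- The bad cells: no polynomial of degree at most `D` is small compared with its derivative in
the passive direction. -/
def BadL {d : ℕ} (D : ℕ) (lm : ℝ) (gN : MvPolynomial (Fin d) ℝ) (R : Set (Fin d → ℝ)) : Prop :=
  ∀ Q : MvPolynomial (Option (Fin d)) ℝ, Q ≠ 0 → Q.totalDegree ≤ D → ∃ y' ∈ R, ∀ y ∈ R,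
    lm * |MvPolynomial.eval (lpt gN y) (MvPolynomial.pderiv none Q)| <
      |MvPolynomial.eval (lpt gN y') Q|

/-- The relative position in the cell. -/
noncomputable def rpos {d : ℕ} (M : ℕ) (Ng : Fin d → ℕ) (g : Fin d → MvPolynomial (Fin d) ℝ)
    (b : Fin d → ℤ) (y : Fin d → ℝ) : Fin d → ℝ :=
  fun i => (y i - MvPolynomial.eval y (g i) - (b i : ℝ) * Ng i / M) / ((Ng i : ℝ) / M)

section chart

variable {d : ℕ} {M : ℕ} {Ng : Fin d → ℕ} {g : Fin d → MvPolynomial (Fin d) ℝ}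
  {gN : MvPolynomial (Fin d) ℝ} {b : Fin d → ℤ}

/-- The corner of the cell. -/
noncomputable def ncor (M : ℕ) (Ng : Fin d → ℕ) (b : Fin d → ℤ) : Fin d → ℝ :=
  fun i => (b i : ℝ) * Ng i / M

/-- The widths of the cell. -/
noncomputable def nwid (M : ℕ) (Ng : Fin d → ℕ) : Fin d → ℝ := fun i => (Ng i : ℝ) / M

/-- The chart of the cell. -/
noncomputable def nchi (M : ℕ) (Ng : Fin d → ℕ) (g : Fin d → MvPolynomial (Fin d) ℝ)
    (b : Fin d → ℤ) : Fin d → MvPolynomial (Fin d) ℝ := chi g (ncor M Ng b) (nwid M Ng)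

lemma rpos_mem (hM : 1 ≤ M) (hN : ∀ i, 1 ≤ Ng i) {y : Fin d → ℝ} (hy : y ∈ ncell M Ng g b) :
    rpos M Ng g b y ∈ ucube d := by
  intro i
  have hM0 : (0 : ℝ) < M := by exact_mod_cast hM
  have hN0 : (0 : ℝ) < Ng i := by exact_mod_cast hN i
  have hw : 0 < (Ng i : ℝ) / M := by positivity
  obtain ⟨h1, h2⟩ := hy i
  unfold rpos
  constructor
  · exact div_nonneg (by linarith) hw.le
  · rw [div_le_one hw]
    linarith

lemma nchi_rpos (hM : 1 ≤ M) (hN : ∀ i, 1 ≤ Ng i) (hg : TriP g) (y : Fin d → ℝ) :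
    cpt (nchi M Ng g b) (rpos M Ng g b y) = y := by
  have hM0 : (0 : ℝ) < M := by exact_mod_cast hM
  exact chi_onto g hg (ncor M Ng b) (nwid M Ng) (fun i => by
    have hN0 : (0 : ℝ) < Ng i := by exact_mod_cast hN i
    unfold nwid
    positivity) y

lemma nchi_mem (hM : 1 ≤ M) (hN : ∀ i, 1 ≤ Ng i) (hg : TriP g) {u : Fin d → ℝ}
    (hu : u ∈ ucube d) : cpt (nchi M Ng g b) u ∈ ncell M Ng g b := by
  intro i
  have hM0 : (0 : ℝ) < M := by exact_mod_cast hM
  have hN0 : (0 : ℝ) < Ng i := by exact_mod_cast hN i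
  have h1 := eval_chi g hg (ncor M Ng b) (nwid M Ng) u i
  have h2 : cpt (nchi M Ng g b) u i - MvPolynomial.eval (cpt (nchi M Ng g b) u) (g i) =
      (b i : ℝ) * Ng i / M + (Ng i : ℝ) / M * u i := by
    change cpt (chi g (ncor M Ng b) (nwid M Ng)) u i -
      MvPolynomial.eval (cpt (chi g (ncor M Ng b) (nwid M Ng)) u) (g i) = _
    rw [h1]
    unfold ncor nwid
    ring
  rw [h2]
  have hw : 0 < (Ng i : ℝ) / M := by positivity
  obtain ⟨h3, h4⟩ := hu i
  constructor
  · have : 0 ≤ (Ng i : ℝ) / M * u i := by positivity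
    linarith
  · have : (Ng i : ℝ) / M * u i ≤ (Ng i : ℝ) / M * 1 := mul_le_mul_of_nonneg_left h4 hw.le
    linarith

/-- The chart of the leaf over the cell, in the form of a triangular chart. -/
lemma triC_nchi (hg : TriP g) (i : Fin d) :
    triC (fun i => MvPolynomial.bind₁ (nchi M Ng g b) (g i) + MvPolynomial.C (ncor M Ng b i))
      (nwid M Ng) (MvPolynomial.bind₁ (nchi M Ng g b) gN) (some i) = nchi M Ng g b i := by
  refine MvPolynomial.funext fun v => ?_
  have h1 : cpt (nchi M Ng g b) v i = MvPolynomial.eval (cpt (nchi M Ng g b) v) (g i) +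
    ncor M Ng b i + nwid M Ng i * v i := eval_chi g hg (ncor M Ng b) (nwid M Ng) v i
  change MvPolynomial.eval v (MvPolynomial.bind₁ (nchi M Ng g b) (g i) +
    MvPolynomial.C (ncor M Ng b i) + MvPolynomial.C (nwid M Ng i) * MvPolynomial.X i) =
    MvPolynomial.eval v (nchi M Ng g b i)
  rw [map_add, map_add, map_mul, MvPolynomial.eval_C, MvPolynomial.eval_C, MvPolynomial.eval_X,
    eval_bind]
  exact h1.symm

lemma cpt_triC_nchi (hg : TriP g) (u : Fin d → ℝ) :
    cpt (triC (fun i => MvPolynomial.bind₁ (nchi M Ng g b) (g i) +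
      MvPolynomial.C (ncor M Ng b i)) (nwid M Ng)
      (MvPolynomial.bind₁ (nchi M Ng g b) gN)) u = lpt gN (cpt (nchi M Ng g b) u) := by
  funext o
  cases o with
  | none =>
    change MvPolynomial.eval u (MvPolynomial.bind₁ (nchi M Ng g b) gN) =
      MvPolynomial.eval (cpt (nchi M Ng g b) u) gN
    rw [eval_bind]
  | some i =>
    change MvPolynomial.eval u (triC _ _ _ (some i)) = cpt (nchi M Ng g b) u i
    rw [triC_nchi hg i]
    rfl

/-- The chart of the leaf has natural sizes. -/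
lemma tri_nchi {K₀ : ℕ} {Lp : ℝ} (hM : 1 ≤ M) (hN : ∀ i, 1 ≤ Ng i) (hNM : ∀ i, Ng i ≤ M)
    (hg : TriP g) (hLp : 0 ≤ Lp) (hdeg : ∀ i, (g i).totalDegree ≤ K₀)
    (hdegN : gN.totalDegree ≤ K₀)
    (hgr : ∀ y ∈ ncell M Ng g b, ∀ i l, |MvPolynomial.eval y (MvPolynomial.pderiv l (g i))| ≤ Lp)
    (hgrN : ∀ y ∈ ncell M Ng g b, ∀ l, |MvPolynomial.eval y (MvPolynomial.pderiv l gN)| ≤ Lp) :
    Tri ((K₀ + 1) ^ (d + 1)) (2 * (1 + d * Lp) ^ (d + 1)) M Ng
      (fun i => MvPolynomial.bind₁ (nchi M Ng g b) (g i) + MvPolynomial.C (ncor M Ng b i))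
      (nwid M Ng) (MvPolynomial.bind₁ (nchi M Ng g b) gN) := by
  classical
  have hM0 : (0 : ℝ) < M := by exact_mod_cast hM
  have hN0 : ∀ i, (0 : ℝ) < Ng i := fun i => by exact_mod_cast hN i
  have hw : ∀ i, 0 < nwid M Ng i := fun i => by
    have := hN0 i
    unfold nwid
    positivity
  have hd0 : (0 : ℝ) ≤ d := Nat.cast_nonneg d
  have hB : 1 ≤ 1 + (d : ℝ) * Lp := by
    have : (0 : ℝ) ≤ d * Lp := by positivity
    linarith
  have hB1 : 1 ≤ (1 + (d : ℝ) * Lp) ^ (d + 1) := one_le_pow₀ hB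
  have hC₀ : 1 ≤ 2 * (1 + (d : ℝ) * Lp) ^ (d + 1) := by linarith
  have hdchi : ∀ i, (nchi M Ng g b i).totalDegree ≤ (K₀ + 1) ^ d :=
    fun i => deg_chiN g (ncor M Ng b) (nwid M Ng) K₀ hdeg d i
  have hbdeg : ∀ Q : MvPolynomial (Fin d) ℝ, Q.totalDegree ≤ K₀ →
      (MvPolynomial.bind₁ (nchi M Ng g b) Q).totalDegree ≤ (K₀ + 1) ^ (d + 1) := by
    intro Q hQ
    refine (SML.totalDegree_bind_le _ ((K₀ + 1) ^ d) hdchi Q).trans ?_
    calc (K₀ + 1) ^ d * Q.totalDegree ≤ (K₀ + 1) ^ d * (K₀ + 1) :=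
          Nat.mul_le_mul_left _ (hQ.trans (Nat.le_succ _))
      _ = (K₀ + 1) ^ (d + 1) := (pow_succ _ _).symm
  -- the derivatives of the chart
  have hder : ∀ u ∈ ucube d, ∀ i l, |MvPolynomial.eval u (MvPolynomial.pderiv l
      (nchi M Ng g b i))| ≤ nwid M Ng l * (1 + d * Lp) ^ d := by
    intro u hu i l
    have h1 := abs_pderiv_chiN g hg (ncor M Ng b) (nwid M Ng) hw Lp hLp u
      (fun i l => hgr _ (nchi_mem hM hN hg hu) i l) i l
    refine h1.trans (mul_le_mul_of_nonneg_left ?_ (hw l).le)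
    exact pow_le_pow_right₀ hB i.2
  refine ⟨hN, ?_, ?_, hbdeg gN hdegN, ?_, hw, ?_, ?_, ?_, ?_⟩
  · intro i
    have h1 : (Ng i : ℝ) ≤ M := by exact_mod_cast hNM i
    nlinarith
  · intro i
    refine (MvPolynomial.totalDegree_add _ _).trans (max_le (hbdeg _ (hdeg i)) ?_)
    rw [MvPolynomial.totalDegree_C]
    exact Nat.zero_le _
  · intro i i' hii
    rw [map_add, MvPolynomial.pderiv_C, add_zero, pderiv_bind]
    refine Finset.sum_eq_zero fun r _ => ?_
    by_cases hr : i ≤ r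
    · rw [hg i r hr, map_zero, zero_mul]
    · have h1 : MvPolynomial.pderiv i' (nchi M Ng g b r) = 0 :=
        pderiv_chiN_zero g hg (ncor M Ng b) (nwid M Ng) d r i' ((not_le.mp hr).trans_le hii)
      rw [h1, mul_zero]
  · intro i
    change nwid M Ng i ≤ _ * nwid M Ng i
    have := hw i
    nlinarith
  · intro i
    change nwid M Ng i ≤ _ * nwid M Ng i
    have := hw i
    nlinarith
  · intro u hu i i'
    have e1 : MvPolynomial.bind₁ (nchi M Ng g b) (g i') + MvPolynomial.C (ncor M Ng b i') =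
        nchi M Ng g b i' - MvPolynomial.C (nwid M Ng i') * MvPolynomial.X i' := by
      rw [← triC_nchi (M := M) (Ng := Ng) (g := g) (gN := gN) (b := b) hg i']
      change _ = MvPolynomial.bind₁ (nchi M Ng g b) (g i') + MvPolynomial.C (ncor M Ng b i') +
        MvPolynomial.C (nwid M Ng i') * MvPolynomial.X i' -
        MvPolynomial.C (nwid M Ng i') * MvPolynomial.X i'
      rw [add_sub_cancel_right]
    rw [e1, map_sub, map_sub]
    have h1 := hder u hu i' i
    have h2 : |MvPolynomial.eval u (MvPolynomial.pderiv i (MvPolynomial.C (nwid M Ng i') *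
        MvPolynomial.X i'))| ≤ nwid M Ng i := by
      rw [Derivation.leibniz, MvPolynomial.pderiv_X, MvPolynomial.pderiv_C, smul_eq_mul,
        smul_eq_mul, mul_zero, add_zero, map_mul, MvPolynomial.eval_C]
      have := hw i
      by_cases h : i = i'
      · subst h
        rw [Pi.single_eq_same, map_one, mul_one, abs_of_pos this]
      · rw [Pi.single_eq_of_ne (fun h' => h h'.symm), map_zero, mul_zero, abs_zero]
        exact this.le
    refine (abs_sub _ _).trans ((add_le_add h1 h2).trans ?_)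
    change nwid M Ng i * _ + nwid M Ng i ≤ _ * nwid M Ng i
    have h3 : (1 + (d : ℝ) * Lp) ^ d ≤ (1 + d * Lp) ^ (d + 1) :=
      pow_le_pow_right₀ hB (Nat.le_succ d)
    have := hw i
    nlinarith
  · intro u hu i
    rw [pderiv_bind, map_sum]
    refine (Finset.abs_sum_le_sum_abs _ _).trans ?_
    calc ∑ r, |MvPolynomial.eval u (MvPolynomial.bind₁ (nchi M Ng g b)
          (MvPolynomial.pderiv r gN) * MvPolynomial.pderiv i (nchi M Ng g b r))| ≤
          ∑ _r : Fin d, Lp * (nwid M Ng i * (1 + d * Lp) ^ d) := by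
            refine Finset.sum_le_sum fun r _ => ?_
            rw [map_mul, abs_mul, eval_bind]
            exact mul_le_mul (hgrN _ (nchi_mem hM hN hg hu) r) (hder u hu r i) (abs_nonneg _) hLp
      _ = d * Lp * (nwid M Ng i * (1 + d * Lp) ^ d) := by
          rw [Finset.sum_const, Finset.card_univ, Fintype.card_fin, nsmul_eq_mul]
          ring
      _ ≤ (1 + d * Lp) * (nwid M Ng i * (1 + d * Lp) ^ d) := by
          have := hw i
          exact mul_le_mul_of_nonneg_right (by linarith) (by positivity)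
      _ = (1 + d * Lp) ^ (d + 1) * nwid M Ng i := by ring
      _ ≤ 2 * (1 + d * Lp) ^ (d + 1) * nwid M Ng i := by
          have := hw i
          nlinarith

end chart

end Pool.M3F
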