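import Pool.Agent.H37.M3F.Bud

/-!
# Degree control, abstract core

The core of `K3_S3`, 3.4, with abstract test functions: a test function of the cell of the first
point is small near that point, of size one in its cell; go along the chain, fill the last cell,
come back with a second chain which has the same end cells, fill the first cell. Only the base
position `v` of the points has to mix. Fans never enter.
-/

set_option autoImplicit false

namespace Pool.M3F

open Finset Real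
open Pool.Agent.H49.Ent Pool.Agent.H32.Dense Pool.STK Pool.KAF Pool.KAL Pool.KS3

/-- Filling of a cell, in the mean: `Yb` is the position in the cell, `cap` the logarithm of the
size of the cell, `g` a test function, `S` a level which the test function has somewhere in the
cell (`adm`). -/
def FillP {Ω Ξ Γ Δ Y : Type} [Fintype Ω] (p : Ω → ℝ) (x : Ω → Ξ) (cl : Ξ → Δ) (Yb : Ξ → Y)
    (ψ : Γ → Ξ → ℝ) (adm : Γ → Δ → ℝ → Prop) (κ : ℝ) (cap : Δ → ℝ) (Cf : ℝ) : Prop :=
  ∀ (V : Type) [Fintype V] (r : V → ℝ) (X : V → Ξ) (g : V → Γ) (S : Γ → Δ → ℝ), IsLaw r →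
    (∀ v, 0 < r v → ∃ ω, 0 < p ω ∧ x ω = X v) →
    (∀ v, 0 < r v → adm (g v) (cl (X v)) (S (g v) (cl (X v)))) →
    Ex r (fun v => S (g v) (cl (X v))) ≤ Ex r (fun v => ψ (g v) (X v)) +
      κ * ((Ex r (fun v => cap (cl (X v))) -
        CH r (fun v => Yb (X v)) (fun v => (g v, cl (X v)))) + Cf)

/-- Mutual information inside the values of a label. -/
lemma mi_leL {Ω S T U V L : Type} [Fintype Ω] {p : Ω → ℝ} (hp : IsLaw p) (X : Ω → S)
    (f : S → T) (g : S → U) (Z : Ω → V) (lb : Ω → L) (hg : Det p (fun ω => g (X ω)) lb)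
    (hZ : Det p Z lb) :
    CH p (fun ω => f (X ω)) (fun ω => g (X ω)) - (CH p X lb - CH p X Z) ≤
      CH p (fun ω => f (X ω)) (fun ω => (g (X ω), Z ω)) := by
  have hp0 := hp.nonneg
  -- `H (X | L) = H (g | L) + H (f | g) + H (X | f, g)`
  have a1 : CH p X lb = CH p (fun ω => g (X ω)) lb +
      CH p (fun ω => f (X ω)) (fun ω => g (X ω)) + CH p X (fun ω => (f (X ω), g (X ω))) := by
    unfold CH
    have e1 : H p (fun ω => (X ω, lb ω)) = H p (fun ω => (X ω, (f (X ω), g (X ω)))) := by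
      refine H_congr hp0 ?_ ?_
      · intro ω ω' a b h
        have h1 := (Prod.ext_iff.mp h).1
        simp only at h1
        refine Prod.ext h1 ?_
        exact hg ω ω' a b (congrArg g h1)
      · intro ω ω' a b h
        have h1 := (Prod.ext_iff.mp h).1
        simp only at h1
        simp only [h1]
    have e2 : H p (fun ω => (g (X ω), lb ω)) = H p (fun ω => g (X ω)) := by
      refine H_congr hp0 ?_ ?_
      · intro ω ω' a b h
        exact Prod.ext h (hg ω ω' a b h)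
      · intro ω ω' a b h
        exact (Prod.ext_iff.mp h).1
    rw [e1, e2]
    ring
  -- `H (X | Z) ≤ H (g | L) + H (f | g, Z) + H (X | f, g)`
  have a2 : CH p X Z = CH p (fun ω => g (X ω)) Z +
      CH p (fun ω => f (X ω)) (fun ω => (g (X ω), Z ω)) +
      CH p X (fun ω => (f (X ω), (g (X ω), Z ω))) := by
    unfold CH
    have e1 : H p (fun ω => (X ω, (f (X ω), (g (X ω), Z ω)))) = H p (fun ω => (X ω, Z ω)) := by
      refine H_congr hp0 ?_ ?_
      · intro ω ω' _ _ h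
        simp only [Prod.mk.injEq] at h ⊢
        exact ⟨h.1, by rw [h.1], by rw [h.1], h.2⟩
      · intro ω ω' _ _ h
        simp only [Prod.mk.injEq] at h ⊢
        exact ⟨h.1, h.2.2.2⟩
    rw [e1]
    ring
  have a3 : CH p (fun ω => g (X ω)) Z ≤ CH p (fun ω => g (X ω)) lb := CH_mono_cond hp0 hZ
  have a4 : CH p X (fun ω => (f (X ω), (g (X ω), Z ω))) ≤
      CH p X (fun ω => (f (X ω), g (X ω))) := by
    refine CH_mono_cond hp0 ?_
    intro ω ω' _ _ h
    simp only [Prod.mk.injEq] at h ⊢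
    exact ⟨h.1, h.2.1⟩
  linarith

/-- The abstract core. `lb` is a label which is a function of the point and of the line; all
the entropies are conditional on it. -/
theorem acor (hBUD : BUDStmt) (hBUP : BUPStmt) (D : ℕ) : ∃ C : ℝ, 0 ≤ C ∧
    ∀ (Ω Λ Ξ W U Δ Δ' Y L : Type) [Fintype Ω] [Fintype W] (p : Ω → ℝ) (lam : Ω → Λ)
      (x : Ω → Ξ) (T : Ξ → ℕ) (M N : ℕ) (q : W → ℝ) (o o' : ℕ → W → Ω) (l : ℕ → W → Λ)
      (y : ℕ → W → Ξ) (lb : Ξ → L) (lbl : Λ → L) (lbc : Δ → L) (v : Ξ → U) (clv : U → Δ) (Ybv : U → Y) (sc : Ξ → Δ') (ψ : Δ × Δ' → Ξ → ℝ)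
      (adm : Δ × Δ' → Δ → ℝ → Prop) (κ : ℝ) (cap : Δ → ℝ)
      (Cf c₁ sm a₁ a₂ e₁ e₂ e₄ e₄' : ℝ),
      1 ≤ M → 0 ≤ c₁ → 0 ≤ κ → (∀ ω, 0 < p ω → lb (x ω) = lbl (lam ω)) →
      (∀ ω, 0 < p ω → lb (x ω) = lbc (clv (v (x ω)))) →
      (∀ ω, 0 < p ω → T (x ω) < M) → IsChain p lam x N q o o' l y →
      (∀ ω, 0 < p ω → LineP D c₁ M p lam x T (ψ (clv (v (x ω)), sc (x ω)))) →
      FillP p x (fun ξ => clv (v ξ)) (fun ξ => Ybv (v ξ)) ψ adm κ cap Cf →
      (∀ ω ω', 0 < p ω → 0 < p ω' → adm (clv (v (x ω)), sc (x ω)) (clv (v (x ω')))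
        (ψ (clv (v (x ω)), sc (x ω)) (x ω'))) →
      (∀ ω, 0 < p ω → adm (clv (v (x ω)), sc (x ω)) (clv (v (x ω))) 0) →
      (∀ ω, 0 < p ω → ψ (clv (v (x ω)), sc (x ω)) (x ω) ≤ -sm) →
      Real.log M - CH p (fun ω => T (x ω)) lam ≤ e₁ →
      CH p (fun ω => clv (v (x ω))) (fun ω => lb (x ω)) ≤ a₁ →
      CH p (fun ω => (clv (v (x ω)), sc (x ω))) (fun ω => lb (x ω)) ≤ a₂ →
      Ex p (fun ω => cap (clv (v (x ω)))) -
        CH p (fun ω => Ybv (v (x ω))) (fun ω => clv (v (x ω))) ≤ e₂ →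
      CH q (fun w => v (y N w)) (fun w => lb (y N w)) - CH q (fun w => v (y N w)) (y 0) ≤ e₄ →
      CH q (fun w => v (y 0 w)) (fun w => lb (y 0 w)) - CH q (fun w => v (y 0 w)) (y N) ≤ e₄' →
      sm ≤ 2 * D * (a₁ + a₂) + κ * (2 * e₂ + e₄ + e₄' + 2 * Cf) +
        N * (4 * D * (e₁ + C) + 4 * c₁) := by
  classical
  obtain ⟨Cg, hCg, hgo⟩ := ago hBUD D
  obtain ⟨Cb, hCb, hback⟩ := aback hBUP D
  refine ⟨Cg + Cb, by positivity, ?_⟩
  intro Ω Λ Ξ W U Δ Δ' Y L _ _ p lam x T M N q o o' l y lb lbl lbc v clv Ybv sc ψ adm κ cap Cf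
    c₁ sm a₁ a₂ e₁ e₂ e₄ e₄' hM hc₁ hκ hlb hlbc hT hchn hline hfil hadm hadm0 hsm he₁ ha₁ ha₂ he₂
    he₄ he₄'
  have hq := hchn.isLaw
  have hq0 := hq.nonneg
  set cl : Ξ → Δ := fun ξ => clv (v ξ) with hcl
  set Yb : Ξ → Y := fun ξ => Ybv (v ξ) with hYb
  set bb : Ξ → Δ × Δ' := fun ξ => (cl ξ, sc ξ) with hbb
  have hsup : ∀ i ≤ N, ∀ w, 0 < q w → ∃ ω, 0 < p ω ∧ x ω = y i w :=
    fun i hi w hw => supp_of_law (hchn.cell i hi) hq0 hw
  have hlbs : ∀ i ≤ N, ∀ w, 0 < q w → lb (y i w) = lbc (clv (v (y i w))) := by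
    intro i hi w hw
    obtain ⟨ω, hω, hx⟩ := hsup i hi w hw
    have := hlbc ω hω
    rwa [hx] at this
  -- forward
  have E1 := hgo Ω Λ Ξ W (Δ × Δ') L p lam x T M N q o o' l y lb lbl bb ψ c₁ e₁ hM hc₁ hlb hT hchn
    (by
      intro w hw
      obtain ⟨ω, hω, hx⟩ := hsup 0 (Nat.zero_le _) w hw
      have := hline ω hω
      rw [hx] at this
      exact this) he₁
  -- start
  have E0 : Ex q (fun w => ψ (bb (y 0 w)) (y 0 w)) ≤ -sm := by
    have h1 : Ex q (fun w => ψ (bb (y 0 w)) (y 0 w)) ≤ Ex q (fun _ => -sm) := by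
      refine Ex_mono hq0 fun w hw => ?_
      obtain ⟨ω, hω, hx⟩ := hsup 0 (Nat.zero_le _) w hw
      have := hsm ω hω
      rw [hx] at this
      exact this
    rwa [Ex_const hq.sum_one] at h1
  -- the deficits
  have hlawN := hchn.cell N le_rfl
  have hlaw0 := hchn.cell 0 (Nat.zero_le _)
  set cp : ℝ := Ex p (fun ω => cap (clv (v (x ω)))) with hcp
  have hcpN : Ex q (fun w => cap (cl (y N w))) = cp :=
    ex_of_law hlawN (fun ξ => cap (clv (v ξ)))
  have hcp0 : Ex q (fun w => cap (cl (y 0 w))) = cp :=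
    ex_of_law hlaw0 (fun ξ => cap (clv (v ξ)))
  have defN : cp - e₂ - e₄ ≤
      CH q (fun w => Yb (y N w)) (fun w => (bb (y 0 w), cl (y N w))) := by
    have h1 := mi_leL hq (fun w => v (y N w)) Ybv clv (y 0) (fun w => lb (y N w))
      (by
        intro w w' hw hw' h
        have e1 := hlbs N le_rfl w hw
        have e2 := hlbs N le_rfl w' hw'
        have h' : clv (v (y N w)) = clv (v (y N w')) := h
        change lb (y N w) = lb (y N w')
        rw [e1, e2, h'])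
      (by
        intro w w' hw hw' h
        change lb (y N w) = lb (y N w')
        rw [lab_const hchn hlb hw N le_rfl, lab_const hchn hlb hw' N le_rfl, h])
    have h2 : CH q (fun w => Ybv (v (y N w))) (fun w => clv (v (y N w))) =
        CH p (fun ω => Ybv (v (x ω))) (fun ω => clv (v (x ω))) :=
      CH_eq_of_law hlawN (fun ξ => Ybv (v ξ)) (fun ξ => clv (v ξ))
    have h3 : CH q (fun w => Ybv (v (y N w))) (fun w => (clv (v (y N w)), y 0 w)) ≤
        CH q (fun w => Yb (y N w)) (fun w => (bb (y 0 w), cl (y N w))) := by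
      refine CH_mono_cond hq0 ?_
      intro ω ω' _ _ h
      simp only [Prod.mk.injEq] at h ⊢
      exact ⟨congrArg bb h.2, h.1⟩
    rw [h2] at h1
    linarith
  have def0 : cp - e₂ - e₄' ≤
      CH q (fun w => Yb (y 0 w)) (fun w => (cl (y 0 w), cl (y N w))) := by
    have h1 := mi_leL hq (fun w => v (y 0 w)) Ybv clv (y N) (fun w => lb (y 0 w))
      (by
        intro w w' hw hw' h
        have e1 := hlbs 0 (Nat.zero_le _) w hw
        have e2 := hlbs 0 (Nat.zero_le _) w' hw'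
        have h' : clv (v (y 0 w)) = clv (v (y 0 w')) := h
        change lb (y 0 w) = lb (y 0 w')
        rw [e1, e2, h'])
      (by
        intro w w' hw hw' h
        change lb (y 0 w) = lb (y 0 w')
        rw [← lab_const hchn hlb hw N le_rfl, ← lab_const hchn hlb hw' N le_rfl, h])
    have h2 : CH q (fun w => Ybv (v (y 0 w))) (fun w => clv (v (y 0 w))) =
        CH p (fun ω => Ybv (v (x ω))) (fun ω => clv (v (x ω))) :=
      CH_eq_of_law hlaw0 (fun ξ => Ybv (v ξ)) (fun ξ => clv (v ξ))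
    have h3 : CH q (fun w => Ybv (v (y 0 w))) (fun w => (clv (v (y 0 w)), y N w)) ≤
        CH q (fun w => Yb (y 0 w)) (fun w => (cl (y 0 w), cl (y N w))) := by
      refine CH_mono_cond hq0 ?_
      intro ω ω' _ _ h
      simp only [Prod.mk.injEq] at h ⊢
      exact ⟨h.1, congrArg cl h.2⟩
    rw [h2] at h1
    linarith
  -- filling the cell of the last point
  set F : Δ → Finset Ω := fun b => univ.filter (fun ω => 0 < p ω ∧ cl (x ω) = b) with hF
  set S : (Δ × Δ') → Δ → ℝ := fun γ b =>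
    if h : (F b).Nonempty then (F b).sup' h (fun ω => ψ γ (x ω)) else 0 with hS
  have hSle : ∀ (γ : Δ × Δ') (b : Δ) (ω : Ω), 0 < p ω → cl (x ω) = b → ψ γ (x ω) ≤ S γ b := by
    intro γ b ω hω hc
    have hmem : ω ∈ F b := by
      simp only [hF, Finset.mem_filter, Finset.mem_univ, true_and]
      exact ⟨hω, hc⟩
    have hne : (F b).Nonempty := ⟨ω, hmem⟩
    simp only [hS, dif_pos hne]
    exact Finset.le_sup' (fun ω => ψ γ (x ω)) hmem
  have hSex : ∀ (γ : Δ × Δ') (b : Δ) (ω : Ω), 0 < p ω → cl (x ω) = b →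
      ∃ ω', 0 < p ω' ∧ cl (x ω') = b ∧ S γ b = ψ γ (x ω') := by
    intro γ b ω hω hc
    have hmem : ω ∈ F b := by
      simp only [hF, Finset.mem_filter, Finset.mem_univ, true_and]
      exact ⟨hω, hc⟩
    have hne : (F b).Nonempty := ⟨ω, hmem⟩
    obtain ⟨ω', hω', he⟩ := Finset.exists_mem_eq_sup' hne (fun ω => ψ γ (x ω))
    simp only [hF, Finset.mem_filter, Finset.mem_univ, true_and] at hω'
    refine ⟨ω', hω'.1, hω'.2, ?_⟩
    simp only [hS, dif_pos hne]
    exact he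
  have F1 := hfil W q (y N) (fun w => bb (y 0 w)) S hq
    (fun w hw => hsup N le_rfl w hw)
    (by
      intro w hw
      obtain ⟨ω, hω, hx⟩ := hsup N le_rfl w hw
      obtain ⟨ω₀, hω₀, hx₀⟩ := hsup 0 (Nat.zero_le _) w hw
      obtain ⟨ω', hω', hc', hS'⟩ := hSex (bb (y 0 w)) (cl (y N w)) ω hω (by rw [hx])
      have h1 := hadm ω₀ ω' hω₀ hω'
      rw [hx₀] at h1
      change adm (bb (y 0 w)) (cl (y N w)) (S (bb (y 0 w)) (cl (y N w)))
      rw [hS', ← hc']
      exact h1)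
  -- the second chain
  set cc : W → Δ × Δ := fun w => (cl (y 0 w), cl (y N w)) with hcc
  set r : W × W → ℝ := dbl q cc with hr
  have hr0 : ∀ v, 0 ≤ r v := dbl_nonneg (b := cc) hq0
  have m1 : Marg r q (fun v => v.1) := dbl_fst (b := cc) hq0
  have m2 : Marg r q (fun v => v.2) := dbl_snd (b := cc) hq0
  have hrl : IsLaw r := ⟨hr0, by rw [m1.sum]; exact hq.sum_one⟩
  have hceq : ∀ v, 0 < r v → cc v.1 = cc v.2 := fun v hv => dbl_eq hq0 hv
  have hciv : ∀ (S T : Type) (a : W → S) (b : W → T),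
      CI r (fun v => a v.1) (fun v => b v.2) (fun v => (cl (y 0 v.2), cl (y N v.2))) := by
    intro S T a b
    have h1 : CI r (fun v => a v.1) (fun v => b v.2) (fun v => cc v.1) :=
      CI_glue hq0 hq0 (fun _ => rfl) a b
    exact h1.replace hr0 (fun _ _ => rfl) (fun _ _ => rfl) (fun v hv => hceq v hv)
  have E2 := hback Ω Λ Ξ W (W × W) (Δ × Δ') Δ L p lam x T M N q o o' l y lb lbl cl r
    (fun v => v.2) (fun v => bb (y 0 v.1)) ψ c₁ e₁ hM hc₁ hlb hT hchn hrl m2
    (hciv _ _ (fun w => bb (y 0 w)) (fun w => w))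
    (by
      intro u hu
      obtain ⟨ω, hω, hx⟩ := hsup 0 (Nat.zero_le _) u.1 (m1.pos hr0 hu)
      have := hline ω hω
      rw [hx] at this
      exact this) he₁
  -- the come back starts in the filled cell
  have E3 : Ex r (fun u => ψ (bb (y 0 u.1)) (y N u.2)) ≤
      Ex q (fun w => S (bb (y 0 w)) (cl (y N w))) := by
    have h1 : Ex r (fun u => ψ (bb (y 0 u.1)) (y N u.2)) ≤
        Ex r (fun u => S (bb (y 0 u.1)) (cl (y N u.1))) := by
      refine Ex_mono hr0 fun u hu => ?_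
      have hu2 := m2.pos hr0 hu
      obtain ⟨ω, hω, hx⟩ := hsup N le_rfl u.2 hu2
      have h2 : cl (y N u.1) = cl (y N u.2) := (Prod.ext_iff.mp (hceq u hu)).2
      have h3 := hSle (bb (y 0 u.1)) (cl (y N u.1)) ω hω (by rw [hx]; exact h2.symm)
      rw [hx] at h3
      exact h3
    refine h1.trans (le_of_eq ?_)
    exact m1.ex (fun w => S (bb (y 0 w)) (cl (y N w)))
  -- filling the cell of the first point
  have F2 := hfil (W × W) r (fun u => y 0 u.2) (fun u => bb (y 0 u.1)) (fun _ _ => 0) hrl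
    (fun u hu => hsup 0 (Nat.zero_le _) u.2 (m2.pos hr0 hu))
    (by
      intro u hu
      obtain ⟨ω₁, hω₁, hx₁⟩ := hsup 0 (Nat.zero_le _) u.1 (m1.pos hr0 hu)
      have h2 : cl (y 0 u.1) = cl (y 0 u.2) := (Prod.ext_iff.mp (hceq u hu)).1
      have h3 := hadm0 ω₁ hω₁
      rw [hx₁] at h3
      change adm (bb (y 0 u.1)) (cl (y 0 u.2)) 0
      rw [← h2]
      exact h3)
  have def0' : cp - e₂ - e₄' ≤
      CH r (fun u => Yb (y 0 u.2)) (fun u => (bb (y 0 u.1), cl (y 0 u.2))) := by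
    refine def0.trans ?_
    have h1 : CI r (fun u => Yb (y 0 u.2)) (fun u => bb (y 0 u.1))
        (fun u => (cl (y 0 u.2), cl (y N u.2))) :=
      (hciv _ _ (fun w => bb (y 0 w)) (fun w => Yb (y 0 w))).symm hr0
    unfold CI at h1
    have h2 : CH q (fun w => Yb (y 0 w)) (fun w => (cl (y 0 w), cl (y N w))) =
        CH r (fun u => Yb (y 0 u.2)) (fun u => (cl (y 0 u.2), cl (y N u.2))) :=
      (m2.CH (fun w => Yb (y 0 w)) (fun w => (cl (y 0 w), cl (y N w)))).symm
    rw [h2, ← h1]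
    refine CH_mono_cond hr0 ?_
    intro ω ω' _ _ h
    simp only [Prod.mk.injEq] at h ⊢
    tauto
  -- the sum
  have hD : (0 : ℝ) ≤ D := Nat.cast_nonneg D
  have hN : (0 : ℝ) ≤ N := Nat.cast_nonneg N
  have F1' : Ex q (fun w => S (bb (y 0 w)) (cl (y N w))) ≤
      Ex q (fun w => ψ (bb (y 0 w)) (y N w)) + κ * (e₂ + e₄ + Cf) := by
    refine F1.trans ?_
    change _ + κ * ((Ex q (fun w => cap (cl (y N w))) - _) + Cf) ≤ _
    rw [hcpN]
    have h1 : κ * ((cp - CH q (fun w => Yb (y N w)) (fun w => (bb (y 0 w), cl (y N w)))) +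
        Cf) ≤ κ * (e₂ + e₄ + Cf) := by
      refine mul_le_mul_of_nonneg_left ?_ hκ
      linarith
    linarith
  have F2' : 0 ≤ Ex r (fun u => ψ (bb (y 0 u.1)) (y 0 u.2)) + κ * (e₂ + e₄' + Cf) := by
    have h0 : Ex r (fun _ : W × W => (0 : ℝ)) = 0 := Ex_const hrl.sum_one 0
    rw [h0] at F2
    refine F2.trans ?_
    change _ + κ * ((Ex r (fun u => cap (cl (y 0 u.2))) - _) + Cf) ≤ _
    have h5 : Ex r (fun u => cap (cl (y 0 u.2))) = cp :=
      (m2.ex (fun w => cap (cl (y 0 w)))).trans hcp0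
    rw [h5]
    have h1 : κ * ((cp - CH r (fun u => Yb (y 0 u.2))
        (fun u => (bb (y 0 u.1), cl (y 0 u.2)))) + Cf) ≤ κ * (e₂ + e₄' + Cf) := by
      refine mul_le_mul_of_nonneg_left ?_ hκ
      linarith
    linarith
  have B1 : 2 * (D : ℝ) * (CH p (fun ω => bb (x ω)) (fun ω => lb (x ω)) + N * (e₁ + Cg)) ≤
      2 * D * (a₂ + N * (e₁ + Cg)) :=
    mul_le_mul_of_nonneg_left (by linarith) (by positivity)
  have B2 : 2 * (D : ℝ) * (CH p (fun ω => cl (x ω)) (fun ω => lb (x ω)) + N * (e₁ + Cb)) ≤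
      2 * D * (a₁ + N * (e₁ + Cb)) :=
    mul_le_mul_of_nonneg_left (by linarith) (by positivity)
  have z1 : (0 : ℝ) ≤ 2 * D * (N * (Cg + Cb)) := by positivity
  nlinarith [z1]

end Pool.M3F
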