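import Pool.Agent.H37.M3F.Nat

/-!
# The chart of a natural box

`g i` is a polynomial in the coordinates before `i` (`TriP`). The chart `chi g c w` sends the unit
cube onto the cell `c i ≤ x i - g i (x) ≤ c i + w i`.
-/

set_option autoImplicit false

namespace Pool.M3F

open Finset Real MvPolynomial
open Pool.KAL Pool.KS3

variable {d : ℕ}

/-- `g i` depends only on the coordinates before `i`. -/
def TriP (g : Fin d → MvPolynomial (Fin d) ℝ) : Prop := ∀ i l, i ≤ l → pderiv l (g i) = 0

/-- The first `n` coordinates of the chart. -/
noncomputable def chiN (g : Fin d → MvPolynomial (Fin d) ℝ) (c w : Fin d → ℝ) :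
    ℕ → Fin d → MvPolynomial (Fin d) ℝ
  | 0 => fun _ => 0
  | n + 1 => fun i => if i.val < n + 1 then bind₁ (chiN g c w n) (g i) + C (c i) + C (w i) * X i
      else 0

/-- The chart. -/
noncomputable def chi (g : Fin d → MvPolynomial (Fin d) ℝ) (c w : Fin d → ℝ) :
    Fin d → MvPolynomial (Fin d) ℝ := chiN g c w d

/-- A polynomial with vanishing derivatives does not depend on the coordinates. -/
lemma eval_eq_of_pderiv {R : MvPolynomial (Fin d) ℝ} {i : Fin d}
    (h : ∀ l, i ≤ l → pderiv l R = 0) {x y : Fin d → ℝ} (hxy : ∀ l < i, x l = y l) :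
    eval x R = eval y R := by
  -- along the segment the derivative vanishes
  set f : Fin d → Polynomial ℝ := fun l =>
    Polynomial.C (x l) + Polynomial.X * Polynomial.C (y l - x l) with hf
  have hev : ∀ (P : MvPolynomial (Fin d) ℝ) (t : ℝ),
      (aeval f P : Polynomial ℝ).eval t = eval (fun l => x l + t * (y l - x l)) P := by
    intro P t
    induction P using MvPolynomial.induction_on with
    | C a => simp
    | add p q hp hq => simp only [map_add, Polynomial.eval_add, hp, hq]
    | mul_X p k hp =>
      rw [map_mul, map_mul, Polynomial.eval_mul, hp]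
      simp [hf]
  have hder : Polynomial.derivative (aeval f R : Polynomial ℝ) = 0 := by
    rw [der_line]
    refine Finset.sum_eq_zero fun l _ => ?_
    by_cases hl : i ≤ l
    · rw [h l hl, map_zero, zero_mul]
    · have h1 : y l - x l = 0 := by rw [hxy l (not_le.mp hl), sub_self]
      have h2 : f l = Polynomial.C (x l) := by
        simp only [hf, h1, map_zero, mul_zero, add_zero]
      rw [h2, Polynomial.derivative_C, mul_zero]
  have hc := Polynomial.derivative_eq_zero.1 hder
  rw [Polynomial.natDegree_eq_zero] at hc
  obtain ⟨r, hr⟩ := hc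
  have e0 : eval x R = r := by
    have := hev R 0
    rw [← hr, Polynomial.eval_C] at this
    rw [this]
    congr 2
    funext l
    ring
  have e1 : eval y R = r := by
    have := hev R 1
    rw [← hr, Polynomial.eval_C] at this
    rw [this]
    congr 2
    funext l
    ring
  rw [e0, e1]

/-- The values of the chart. -/
lemma eval_chiN (g : Fin d → MvPolynomial (Fin d) ℝ) (hg : TriP g) (c w : Fin d → ℝ)
    (u : Fin d → ℝ) : ∀ n : ℕ, ∀ i : Fin d, i.val < n →
      eval u (chiN g c w n i) = eval (cpt (chiN g c w n) u) (g i) + c i + w i * u i := by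
  intro n
  induction n with
  | zero => intro i hi; exact absurd hi (Nat.not_lt_zero _)
  | succ n ih =>
    intro i hi
    have e1 : chiN g c w (n + 1) i = bind₁ (chiN g c w n) (g i) + C (c i) + C (w i) * X i := by
      simp only [chiN, if_pos hi]
    rw [e1, map_add, map_add, map_mul, eval_C, eval_C, eval_X, eval_bind]
    -- the two charts agree before `i`
    have hag : ∀ m : ℕ, ∀ l : Fin d, l.val = m → l.val < n →
        cpt (chiN g c w (n + 1)) u l = cpt (chiN g c w n) u l := by
      intro m
      induction m using Nat.strong_induction_on with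
      | _ m ihm =>
        intro l hlm hl
        have h1 : cpt (chiN g c w n) u l = eval (cpt (chiN g c w n) u) (g l) + c l + w l * u l :=
          ih l hl
        have h2 : cpt (chiN g c w (n + 1)) u l =
            eval (cpt (chiN g c w n) u) (g l) + c l + w l * u l := by
          have e2 : chiN g c w (n + 1) l =
              bind₁ (chiN g c w n) (g l) + C (c l) + C (w l) * X l := by
            simp only [chiN, if_pos (Nat.lt_succ_of_lt hl)]
          unfold cpt
          rw [e2, map_add, map_add, map_mul, eval_C, eval_C, eval_X, eval_bind]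
          rfl
        rw [h1, h2]
    have h3 : eval (cpt (chiN g c w n) u) (g i) = eval (cpt (chiN g c w (n + 1)) u) (g i) := by
      refine eval_eq_of_pderiv (fun l hl => hg i l hl) ?_
      intro l hl
      have h4 : l.val < n := by
        have : l.val < i.val := hl
        omega
      exact (hag l.val l rfl h4).symm
    rw [h3]

lemma eval_chi (g : Fin d → MvPolynomial (Fin d) ℝ) (hg : TriP g) (c w : Fin d → ℝ)
    (u : Fin d → ℝ) (i : Fin d) :
    cpt (chi g c w) u i = eval (cpt (chi g c w) u) (g i) + c i + w i * u i :=
  eval_chiN g hg c w u d i i.2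

/-- The chart is onto the cell. -/
lemma chi_onto (g : Fin d → MvPolynomial (Fin d) ℝ) (hg : TriP g) (c w : Fin d → ℝ)
    (hw : ∀ i, 0 < w i) (x : Fin d → ℝ) :
    cpt (chi g c w) (fun i => (x i - eval x (g i) - c i) / w i) = x := by
  set u : Fin d → ℝ := fun i => (x i - eval x (g i) - c i) / w i with hu
  have key : ∀ m : ℕ, ∀ i : Fin d, i.val = m → cpt (chi g c w) u i = x i := by
    intro m
    induction m using Nat.strong_induction_on with
    | _ m ih =>
      intro i hi
      rw [eval_chi g hg c w u i]
      have h1 : eval (cpt (chi g c w) u) (g i) = eval x (g i) := by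
        refine eval_eq_of_pderiv (fun l hl => hg i l hl) ?_
        intro l hl
        exact ih l.val (by
          have : l.val < i.val := hl
          omega) l rfl
      rw [h1, hu]
      have := hw i
      field_simp
      ring
  funext i
  exact key i.val i rfl

/-- The degrees of the chart. -/
lemma deg_chiN (g : Fin d → MvPolynomial (Fin d) ℝ) (c w : Fin d → ℝ) (K : ℕ)
    (hK : ∀ i, (g i).totalDegree ≤ K) : ∀ n : ℕ, ∀ i : Fin d,
      (chiN g c w n i).totalDegree ≤ (K + 1) ^ n := by
  intro n
  induction n with
  | zero =>
    intro i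
    simp only [chiN, totalDegree_zero]
    exact Nat.zero_le _
  | succ n ih =>
    intro i
    have hp : 1 ≤ (K + 1) ^ (n + 1) := Nat.one_le_pow _ _ (Nat.succ_pos K)
    by_cases hi : i.val < n + 1
    · have e1 : chiN g c w (n + 1) i = bind₁ (chiN g c w n) (g i) + C (c i) + C (w i) * X i := by
        simp only [chiN, if_pos hi]
      rw [e1]
      refine (totalDegree_add _ _).trans (max_le ((totalDegree_add _ _).trans (max_le ?_ ?_)) ?_)
      · refine (SML.totalDegree_bind_le _ ((K + 1) ^ n) (fun l => ih l) _).trans ?_
        calc (K + 1) ^ n * (g i).totalDegree ≤ (K + 1) ^ n * K := Nat.mul_le_mul_left _ (hK i)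
          _ ≤ (K + 1) ^ n * (K + 1) := Nat.mul_le_mul_left _ (Nat.le_succ K)
          _ = (K + 1) ^ (n + 1) := (pow_succ _ _).symm
      · rw [totalDegree_C]
        exact Nat.zero_le _
      · refine (totalDegree_mul _ _).trans ?_
        rw [totalDegree_C, zero_add, totalDegree_X]
        exact hp
    · simp only [chiN, if_neg hi, totalDegree_zero]
      exact Nat.zero_le _

/-- The derivatives of the chart. -/
lemma pderiv_chiN_zero (g : Fin d → MvPolynomial (Fin d) ℝ) (hg : TriP g) (c w : Fin d → ℝ) :
    ∀ n : ℕ, ∀ i l : Fin d, i < l → pderiv l (chiN g c w n i) = 0 := by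
  classical
  intro n
  induction n with
  | zero =>
    intro i l _
    simp only [chiN, map_zero]
  | succ n ih =>
    intro i l hil
    by_cases hi : i.val < n + 1
    · have e1 : chiN g c w (n + 1) i = bind₁ (chiN g c w n) (g i) + C (c i) + C (w i) * X i := by
        simp only [chiN, if_pos hi]
      rw [e1, map_add, map_add, pderiv_C, pderiv_bind, Derivation.leibniz, pderiv_X, pderiv_C,
        Pi.single_eq_of_ne hil.ne]
      simp only [smul_eq_mul, mul_zero, add_zero]
      refine Finset.sum_eq_zero fun r _ => ?_
      by_cases hr : i ≤ r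
      · rw [hg i r hr, map_zero, zero_mul]
      · rw [ih r l ((not_le.mp hr).trans hil), mul_zero]
    · simp only [chiN, if_neg hi, map_zero]

/-- The bound of the derivatives of the chart. -/
lemma abs_pderiv_chiN (g : Fin d → MvPolynomial (Fin d) ℝ) (hg : TriP g) (c w : Fin d → ℝ)
    (hw : ∀ i, 0 < w i) (Lp : ℝ) (hLp : 0 ≤ Lp) (u : Fin d → ℝ)
    (hL : ∀ i l, |eval (cpt (chi g c w) u) (pderiv l (g i))| ≤ Lp) :
    ∀ i l : Fin d, |eval u (pderiv l (chi g c w i))| ≤ w l * (1 + d * Lp) ^ (i.val + 1) := by
  classical
  have hB : 1 ≤ 1 + (d : ℝ) * Lp := by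
    have : (0 : ℝ) ≤ d * Lp := by positivity
    linarith
  -- the derivative of the fixed point equation
  have hfix : ∀ i l : Fin d, eval u (pderiv l (chi g c w i)) =
      (∑ r, eval (cpt (chi g c w) u) (pderiv r (g i)) * eval u (pderiv l (chi g c w r))) +
        (if l = i then w i else 0) := by
    intro i l
    have e0 : ∀ v : Fin d → ℝ, eval v (chi g c w i) =
        eval v (bind₁ (chi g c w) (g i) + C (c i) + C (w i) * X i) := by
      intro v
      rw [map_add, map_add, map_mul, eval_C, eval_C, eval_X, eval_bind]
      exact eval_chi g hg c w v i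
    have e1 : chi g c w i = bind₁ (chi g c w) (g i) + C (c i) + C (w i) * X i :=
      MvPolynomial.funext e0
    conv_lhs => rw [e1]
    simp only [map_add]
    rw [pderiv_C, pderiv_bind, Derivation.leibniz, pderiv_X, pderiv_C]
    simp only [smul_eq_mul, mul_zero, add_zero, map_zero, map_sum, map_mul, eval_bind, eval_C]
    congr 1
    by_cases h : l = i
    · subst h
      rw [if_pos rfl, Pi.single_eq_same, map_one, mul_one]
    · rw [if_neg h, Pi.single_eq_of_ne (fun h' => h h'.symm), map_zero, mul_zero]
  have key : ∀ m : ℕ, ∀ i : Fin d, i.val = m → ∀ l : Fin d,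
      |eval u (pderiv l (chi g c w i))| ≤ w l * (1 + d * Lp) ^ (i.val + 1) := by
    intro m
    induction m using Nat.strong_induction_on with
    | _ m ih =>
      intro i him l
      have hwl := hw l
      rw [hfix i l]
      have h1 : |∑ r, eval (cpt (chi g c w) u) (pderiv r (g i)) *
          eval u (pderiv l (chi g c w r))| ≤ d * (Lp * (w l * (1 + d * Lp) ^ i.val)) := by
        refine (Finset.abs_sum_le_sum_abs _ _).trans ?_
        calc ∑ r, |eval (cpt (chi g c w) u) (pderiv r (g i)) *
            eval u (pderiv l (chi g c w r))| ≤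
            ∑ _r : Fin d, Lp * (w l * (1 + d * Lp) ^ i.val) := by
              refine Finset.sum_le_sum fun r _ => ?_
              by_cases hr : i ≤ r
              · rw [hg i r hr, map_zero, zero_mul, abs_zero]
                positivity
              · have hr' : r.val < i.val := not_le.mp hr
                rw [abs_mul]
                have h2 := ih r.val (by omega) r rfl l
                have h3 : (1 + (d : ℝ) * Lp) ^ (r.val + 1) ≤ (1 + d * Lp) ^ i.val :=
                  pow_le_pow_right₀ hB (by omega)
                exact mul_le_mul (hL i r) (h2.trans (mul_le_mul_of_nonneg_left h3 hwl.le))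
                  (abs_nonneg _) hLp
          _ = d * (Lp * (w l * (1 + d * Lp) ^ i.val)) := by
              rw [Finset.sum_const, Finset.card_univ, Fintype.card_fin, nsmul_eq_mul]
      have h4 : |(if l = i then w i else 0 : ℝ)| ≤ w l * (1 + d * Lp) ^ i.val := by
        have h5 : (1 : ℝ) ≤ (1 + d * Lp) ^ i.val := one_le_pow₀ hB
        by_cases h : l = i
        · subst h
          rw [if_pos rfl, abs_of_pos hwl]
          nlinarith
        · rw [if_neg h, abs_zero]
          positivity
      refine (abs_add_le _ _).trans ((add_le_add h1 h4).trans (le_of_eq ?_))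
      rw [pow_succ]
      ring
  exact fun i l => key i.val i rfl l

end Pool.M3F
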