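import Pool.Agent.H37.S3.COR

/-!
# Degree control, abstract core

The core of `K3_S3`, 3.4, without polynomials in space. A test function `γ` has a size `ψ γ ξ` at
the point `ξ`; along every line the size is the size of a polynomial of bounded degree in the time
(`LineP`), and cells can be filled (Remez inequality in the mean). Fans never enter.
-/

set_option autoImplicit false

namespace Pool.M3F

open Finset Real
open Pool.Agent.H49.Ent Pool.Agent.H32.Dense Pool.STK Pool.KAF Pool.KAL Pool.KS3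

/-- Along every line the size `ψ` is the size of a polynomial of degree at most `D` in the
time. -/
def LineP {Ω Λ Ξ : Type} (D : ℕ) (c₁ : ℝ) (M : ℕ) (p : Ω → ℝ) (lam : Ω → Λ) (x : Ω → Ξ)
    (T : Ξ → ℕ) (ψ : Ξ → ℝ) : Prop :=
  ∀ l : Λ, ∃ (m : ℝ) (g : Polynomial ℝ), g.natDegree ≤ D ∧
    (∃ s ∈ Set.Icc (0 : ℝ) 1, Real.exp m ≤ |g.eval s|) ∧
    ∀ ω, 0 < p ω → lam ω = l →
      |g.eval ((T (x ω) : ℝ) / M)| ≤ Real.exp (ψ (x ω) + c₁) ∧
      m - D * Real.log M ≤ ψ (x ω) + c₁ ∧ ψ (x ω) ≤ m + c₁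

/-- A label which is a function of the point and of the line is constant along the chain. -/
lemma lab_const {Ω Λ Ξ W L : Type} [Fintype Ω] [Fintype W] {p : Ω → ℝ} {lam : Ω → Λ}
    {x : Ω → Ξ} {N : ℕ} {q : W → ℝ} {o o' : ℕ → W → Ω} {l : ℕ → W → Λ} {y : ℕ → W → Ξ}
    (hch : IsChain p lam x N q o o' l y) {lb : Ξ → L} {lbl : Λ → L}
    (hlb : ∀ ω, 0 < p ω → lb (x ω) = lbl (lam ω)) {w : W} (hw : 0 < q w) :
    ∀ i, i ≤ N → lb (y i w) = lb (y 0 w) := by
  have hq0 := hch.isLaw.nonneg
  intro i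
  induction i with
  | zero => intro _; rfl
  | succ i ih =>
    intro hi
    have hi' : i < N := hi
    have h1 := hlb _ ((hch.marg i hi').pos hq0 hw)
    have h2 := hlb _ ((hch.marg' i hi').pos hq0 hw)
    rw [hch.start w hw i hi', hch.line w hw i hi'] at h1
    rw [hch.stop w hw i hi', hch.line' w hw i hi'] at h2
    rw [h2, ← h1]
    exact ih hi'.le

/-- The forward budget of a chain. -/
lemma ago (hBUD : BUDStmt) (D : ℕ) : ∃ C : ℝ, 0 ≤ C ∧
    ∀ (Ω Λ Ξ W Γ L : Type) [Fintype Ω] [Fintype W] (p : Ω → ℝ) (lam : Ω → Λ)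
      (x : Ω → Ξ) (T : Ξ → ℕ) (M N : ℕ) (q : W → ℝ) (o o' : ℕ → W → Ω) (l : ℕ → W → Λ)
      (y : ℕ → W → Ξ) (lb : Ξ → L) (lbl : Λ → L) (β : Ξ → Γ) (ψ : Γ → Ξ → ℝ) (c₁ e₁ : ℝ),
      1 ≤ M → 0 ≤ c₁ → (∀ ω, 0 < p ω → lb (x ω) = lbl (lam ω)) →
      (∀ ω, 0 < p ω → T (x ω) < M) → IsChain p lam x N q o o' l y →
      (∀ w, 0 < q w → LineP D c₁ M p lam x T (ψ (β (y 0 w)))) →
      Real.log M - CH p (fun ω => T (x ω)) lam ≤ e₁ →
      Ex q (fun w => ψ (β (y 0 w)) (y N w)) ≤ Ex q (fun w => ψ (β (y 0 w)) (y 0 w)) +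
          2 * D * (CH p (fun ω => β (x ω)) (fun ω => lb (x ω)) + N * (e₁ + C)) +
          N * (2 * c₁) := by
  classical
  obtain ⟨C, hC, hbud⟩ := hBUD D
  refine ⟨C, hC, ?_⟩
  intro Ω Λ Ξ W Γ L _ _ p lam x T M N q o o' l y lb lbl β ψ c₁ e₁ hM hc₁ hlb hT hch hP he₁
  have hM0 : 0 < M := hM
  have hq0 := hch.isLaw.nonneg
  -- the polynomial along the line
  have hex : ∀ (γ : Γ) (ll : Λ), ∃ (m : ℝ) (g : Polynomial ℝ),
      LineP D c₁ M p lam x T (ψ γ) → g.natDegree ≤ D ∧
      (∃ s ∈ Set.Icc (0 : ℝ) 1, Real.exp m ≤ |g.eval s|) ∧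
      ∀ ω, 0 < p ω → lam ω = ll →
        |g.eval ((T (x ω) : ℝ) / M)| ≤ Real.exp (ψ γ (x ω) + c₁) ∧
        m - D * Real.log M ≤ ψ γ (x ω) + c₁ ∧ ψ γ (x ω) ≤ m + c₁ := by
    intro γ ll
    by_cases h : LineP D c₁ M p lam x T (ψ γ)
    · obtain ⟨m, g, hg⟩ := h ll
      exact ⟨m, g, fun _ => hg⟩
    · exact ⟨0, 0, fun h1 => absurd h1 h⟩
  choose mm gg hmg' using hex
  have hmg : ∀ (γ : Γ), LineP D c₁ M p lam x T (ψ γ) → ∀ ll : Λ, (gg γ ll).natDegree ≤ D ∧
      (∃ s ∈ Set.Icc (0 : ℝ) 1, Real.exp (mm γ ll) ≤ |(gg γ ll).eval s|) ∧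
      ∀ ω, 0 < p ω → lam ω = ll →
        |(gg γ ll).eval ((T (x ω) : ℝ) / M)| ≤ Real.exp (ψ γ (x ω) + c₁) ∧
        mm γ ll - D * Real.log M ≤ ψ γ (x ω) + c₁ ∧ ψ γ (x ω) ≤ mm γ ll + c₁ :=
    fun γ h ll => hmg' γ ll h
  have key := hbud W Ξ Λ Γ Unit Unit q M N y l (fun w => β (y 0 w)) (fun _ => ())
    (fun ξ => T ξ % M) ψ mm (fun b ll _ => gg b ll) c₁ e₁
    hch.isLaw
    (fun i _ w => Nat.mod_lt _ hM0)
    (by
      intro i hi w hw
      have h3 := hmg (β (y 0 w)) (hP w hw) (l i w)
      refine ⟨(), h3.1, h3.2.1, ?_⟩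
      intro w' hw' hb hl
      have h5 : T (y i w') % M = T (y i w') := by
        refine Nat.mod_eq_of_lt ?_
        rw [← hch.start w' hw' i hi]
        exact hT _ ((hch.marg i hi).pos hq0 hw')
      rw [h5]
      rw [← hb, ← hl]
      have h6 := (hmg (β (y 0 w')) (hP w' hw') (l i w')).2.2 (o i w')
        ((hch.marg i hi).pos hq0 hw') (hch.line w' hw' i hi)
      rw [hch.start w' hw' i hi] at h6
      exact h6.1)
    (by
      intro i hi w hw
      have h3 := (hmg (β (y 0 w)) (hP w hw) (l i w)).2.2 (o i w)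
        ((hch.marg i hi).pos hq0 hw) (hch.line w hw i hi)
      rw [hch.start w hw i hi] at h3
      exact h3.2.1)
    (by
      intro i hi w hw
      have h3 := (hmg (β (y 0 w)) (hP w hw) (l i w)).2.2 (o' i w)
        ((hch.marg' i hi).pos hq0 hw) (hch.line' w hw i hi)
      rw [hch.stop w hw i hi] at h3
      exact h3.2.2)
    (by
      intro i hi
      have h1 : CI q (y 0) (l i) (y i) := by
        refine CI_of_le hq0 ?_
        rw [← hch.ci1 i hi]
        refine CH_mono_cond hq0 ?_
        intro ω ω' _ _ h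
        simp only [Prod.mk.injEq] at h ⊢
        tauto
      have h2 : CI q (fun w => β (y 0 w)) (l i) (y i) := h1.mono_left hq0 (by
        intro ω ω' _ _ h
        exact congrArg β (Prod.ext_iff.mp h).1)
      have h3 : CI q (fun w => β (y 0 w)) (l i) (fun w => (y i w, ())) := h2.congr hq0 (by
        intro ω ω' _ _ h
        exact Prod.ext h rfl) (by
        intro ω ω' _ _ h
        exact (Prod.ext_iff.mp h).1)
      unfold CI at h3
      rw [← h3]
      refine CH_congr hq0 (fun _ _ _ _ h => (Prod.ext_iff.mp h).1)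
        (fun _ _ _ _ h => (Prod.ext_iff.mp h).1) ?_ ?_ <;>
      · intro ω ω' _ _ h
        simp only [Prod.mk.injEq] at h ⊢
        tauto)
    (by
      intro i hi
      have h1 : CI q (y 0) (y (i + 1)) (l i) := by
        refine CI_of_le hq0 ?_
        rw [← hch.ci2 i hi]
        refine CH_mono_cond hq0 ?_
        intro ω ω' _ _ h
        simp only [Prod.mk.injEq] at h ⊢
        tauto
      have h2 : CI q (fun w => β (y 0 w)) (y (i + 1)) (l i) := h1.mono_left hq0 (by
        intro ω ω' _ _ h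
        exact congrArg β (Prod.ext_iff.mp h).1)
      have h3 : CI q (fun w => β (y 0 w)) (y (i + 1)) (fun w => (l i w, ())) :=
        h2.congr hq0 (by
        intro ω ω' _ _ h
        exact Prod.ext h rfl) (by
        intro ω ω' _ _ h
        exact (Prod.ext_iff.mp h).1)
      unfold CI at h3
      rw [← h3]
      refine CH_congr hq0 (fun _ _ _ _ h => (Prod.ext_iff.mp h).1)
        (fun _ _ _ _ h => (Prod.ext_iff.mp h).1) ?_ ?_ <;>
      · intro ω ω' _ _ h
        simp only [Prod.mk.injEq] at h ⊢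
        tauto)
    (by
      intro i hi
      have h1 : CH q (fun w => T (y i w) % M) (fun w => (l i w, ())) =
          CH p (fun ω => T (x ω)) lam := by
        rw [← (hch.marg i hi).CH (fun ω => T (x ω)) lam]
        have e1 : ∀ w, 0 < q w → T (y i w) % M = T (x (o i w)) := by
          intro w hw
          rw [hch.start w hw i hi]
          refine Nat.mod_eq_of_lt ?_
          rw [← hch.start w hw i hi]
          exact hT _ ((hch.marg i hi).pos hq0 hw)
        refine CH_congr hq0 ?_ ?_ ?_ ?_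
        · intro ω ω' a b h
          have := (Prod.ext_iff.mp h).1
          simp only at this
          rw [e1 ω a, e1 ω' b] at this
          exact this
        · intro ω ω' a b h
          have := (Prod.ext_iff.mp h).1
          simp only at this ⊢
          rw [e1 ω a, e1 ω' b]
          exact this
        · intro ω ω' a b h
          have := (Prod.ext_iff.mp h).1
          simp only at this ⊢
          rw [hch.line ω a i hi, hch.line ω' b i hi]
          exact this
        · intro ω ω' a b h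
          have h' : lam (o i ω) = lam (o i ω') := h
          rw [hch.line ω a i hi, hch.line ω' b i hi] at h'
          exact Prod.ext h' rfl
      rw [h1]
      exact he₁)
  refine key.trans ?_
  have h1 : CH q (fun w => β (y 0 w)) (fun w => (y N w, ())) ≤
      CH p (fun ω => β (x ω)) (fun ω => lb (x ω)) := by
    have h2 : CH q (fun w => β (y 0 w)) (fun w => lb (y 0 w)) =
        CH p (fun ω => β (x ω)) (fun ω => lb (x ω)) :=
      CH_eq_of_law (hch.cell 0 (Nat.zero_le _)) β lb
    rw [← h2]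
    refine CH_mono_cond hq0 ?_
    intro w w' hw hw' h
    have e1 := (Prod.ext_iff.mp h).1
    simp only at e1
    have e2 := lab_const hch hlb hw N le_rfl
    have e3 := lab_const hch hlb hw' N le_rfl
    change lb (y 0 w) = lb (y 0 w')
    rw [← e2, ← e3, e1]
  have h2 : (0 : ℝ) ≤ 2 * D := by positivity
  have h3 := mul_le_mul_of_nonneg_left h1 h2
  linarith

/-- The backward budget of a chain, for a test function which is independent of the chain given
the cells of its end points. -/
lemma aback (hBUP : BUPStmt) (D : ℕ) : ∃ C : ℝ, 0 ≤ C ∧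
    ∀ (Ω Λ Ξ W V Γ Δ L : Type) [Fintype Ω] [Fintype W] [Fintype V] (p : Ω → ℝ)
      (lam : Ω → Λ) (x : Ω → Ξ) (T : Ξ → ℕ) (M N : ℕ) (q : W → ℝ) (o o' : ℕ → W → Ω)
      (l : ℕ → W → Λ) (y : ℕ → W → Ξ) (lb : Ξ → L) (lbl : Λ → L) (c : Ξ → Δ) (r : V → ℝ)
      (pr : V → W) (β : V → Γ) (ψ : Γ → Ξ → ℝ) (c₁ e₁ : ℝ), 1 ≤ M → 0 ≤ c₁ →
      (∀ ω, 0 < p ω → lb (x ω) = lbl (lam ω)) →
      (∀ ω, 0 < p ω → T (x ω) < M) → IsChain p lam x N q o o' l y → IsLaw r → Marg r q pr →
      CI r β pr (fun v => (c (y 0 (pr v)), c (y N (pr v)))) →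
      (∀ v, 0 < r v → LineP D c₁ M p lam x T (ψ (β v))) →
      Real.log M - CH p (fun ω => T (x ω)) lam ≤ e₁ →
      Ex r (fun v => ψ (β v) (y 0 (pr v))) ≤ Ex r (fun v => ψ (β v) (y N (pr v))) +
          2 * D * (CH p (fun ω => c (x ω)) (fun ω => lb (x ω)) + N * (e₁ + C)) +
          N * (2 * c₁) := by
  classical
  obtain ⟨C, hC, hbup⟩ := hBUP D
  refine ⟨C, hC, ?_⟩
  intro Ω Λ Ξ W V Γ Δ L _ _ _ p lam x T M N q o o' l y lb lbl c r pr β ψ c₁ e₁ hM hc₁ hlb hT hch
    hr hm hci hP he₁
  have hM0 : 0 < M := hM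
  have hq0 := hch.isLaw.nonneg
  have hr0 := hr.nonneg
  have hsup : ∀ v, 0 < r v → 0 < q (pr v) := fun v hv => hm.pos hr0 hv
  -- the polynomial along the line
  have hex : ∀ (γ : Γ) (ll : Λ), ∃ (m : ℝ) (g : Polynomial ℝ),
      LineP D c₁ M p lam x T (ψ γ) → g.natDegree ≤ D ∧
      (∃ s ∈ Set.Icc (0 : ℝ) 1, Real.exp m ≤ |g.eval s|) ∧
      ∀ ω, 0 < p ω → lam ω = ll →
        |g.eval ((T (x ω) : ℝ) / M)| ≤ Real.exp (ψ γ (x ω) + c₁) ∧
        m - D * Real.log M ≤ ψ γ (x ω) + c₁ ∧ ψ γ (x ω) ≤ m + c₁ := by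
    intro γ ll
    by_cases h : LineP D c₁ M p lam x T (ψ γ)
    · obtain ⟨m, g, hg⟩ := h ll
      exact ⟨m, g, fun _ => hg⟩
    · exact ⟨0, 0, fun h1 => absurd h1 h⟩
  choose mm gg hmg' using hex
  have hmg : ∀ (γ : Γ), LineP D c₁ M p lam x T (ψ γ) → ∀ ll : Λ, (gg γ ll).natDegree ≤ D ∧
      (∃ s ∈ Set.Icc (0 : ℝ) 1, Real.exp (mm γ ll) ≤ |(gg γ ll).eval s|) ∧
      ∀ ω, 0 < p ω → lam ω = ll →
        |(gg γ ll).eval ((T (x ω) : ℝ) / M)| ≤ Real.exp (ψ γ (x ω) + c₁) ∧
        mm γ ll - D * Real.log M ≤ ψ γ (x ω) + c₁ ∧ ψ γ (x ω) ≤ mm γ ll + c₁ :=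
    fun γ h ll => hmg' γ ll h
  have key := hbup V Ξ Λ Δ Δ Γ Unit Unit r M N (fun i v => y i (pr v)) (fun i v => l i (pr v))
    (fun v => c (y 0 (pr v))) (fun v => c (y N (pr v))) β (fun _ => ())
    (fun ξ => T ξ % M) ψ mm (fun b ll _ => gg b ll) c₁ e₁
    hr
    (fun i _ w => Nat.mod_lt _ hM0)
    (by
      intro i hi v hv
      have hw := hsup v hv
      have h3 := hmg (β v) (hP v hv) (l i (pr v))
      refine ⟨(), h3.1, h3.2.1, ?_⟩
      intro v' hv' hb hl
      have hw' := hsup v' hv'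
      have h5 : T (y (i + 1) (pr v')) % M = T (y (i + 1) (pr v')) := by
        refine Nat.mod_eq_of_lt ?_
        rw [← hch.stop _ hw' i hi]
        exact hT _ ((hch.marg' i hi).pos hq0 hw')
      rw [h5]
      rw [← hb, ← hl]
      have h6 := (hmg (β v') (hP v' hv') (l i (pr v'))).2.2 (o' i (pr v'))
        ((hch.marg' i hi).pos hq0 hw') (hch.line' _ hw' i hi)
      rw [hch.stop _ hw' i hi] at h6
      exact h6.1)
    (by
      intro i hi v hv
      have hw := hsup v hv
      have h3 := (hmg (β v) (hP v hv) (l i (pr v))).2.2 (o' i (pr v))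
        ((hch.marg' i hi).pos hq0 hw) (hch.line' _ hw i hi)
      rw [hch.stop _ hw i hi] at h3
      exact h3.2.1)
    (by
      intro i hi v hv
      have hw := hsup v hv
      have h3 := (hmg (β v) (hP v hv) (l i (pr v))).2.2 (o i (pr v))
        ((hch.marg i hi).pos hq0 hw) (hch.line _ hw i hi)
      rw [hch.start _ hw i hi] at h3
      exact h3.2.2)
    (by
      intro i hi
      have h1 : CI r β (fun v => (l i (pr v), T (y (i + 1) (pr v)) % M))
          (fun v => (c (y 0 (pr v)), c (y N (pr v)))) := hci.mono_right hr0 (by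
        intro ω ω' _ _ h
        have := (Prod.ext_iff.mp h).1
        simp only at this ⊢
        rw [this])
      have h2 := (h1.weak hr0).symm hr0
      unfold CI at h2
      have h3 : CH r (fun v => T (y (i + 1) (pr v)) % M)
          (fun v => (l i (pr v), (c (y 0 (pr v)), (c (y N (pr v)), ())))) =
          CH r (fun v => T (y (i + 1) (pr v)) % M)
          (fun v => (l i (pr v), (c (y 0 (pr v)), c (y N (pr v))))) := by
        refine CH_congr hr0 (fun _ _ _ _ h => (Prod.ext_iff.mp h).1)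
          (fun _ _ _ _ h => (Prod.ext_iff.mp h).1) ?_ ?_ <;>
        · intro ω ω' _ _ h
          simp only [Prod.mk.injEq] at h ⊢
          tauto
      rw [h3, ← h2]
      refine CH_mono_cond hr0 ?_
      intro ω ω' _ _ h
      simp only [Prod.mk.injEq] at h ⊢
      tauto)
    (by
      intro i hi
      have h1 : CI q (y 0) (fun w => (y (i + 1) w, y N w)) (l i) := by
        refine CI_of_le hq0 ?_
        rw [← hch.ci2 i hi]
        refine CH_mono_cond hq0 ?_
        intro ω ω' _ _ h
        simp only [Prod.mk.injEq] at h ⊢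
        tauto
      have h2 : CI q (y 0) (fun w => (c (y N w), y (i + 1) w)) (l i) := h1.mono_right hq0 (by
        intro ω ω' _ _ h
        have := (Prod.ext_iff.mp h).1
        simp only [Prod.mk.injEq] at this ⊢
        rw [this.1, this.2]
        exact ⟨rfl, rfl⟩)
      have h3 : CI q (fun w => c (y 0 w)) (y (i + 1)) (fun w => (c (y N w), l i w)) :=
        (h2.weak hq0).mono_left hq0 (by
        intro ω ω' _ _ h
        exact congrArg c (Prod.ext_iff.mp h).1)
      have h4 := (h3.symm hq0).marg hm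
      unfold CI at h4
      have h5 : CH r (fun v => y (i + 1) (pr v))
          (fun v => (l i (pr v), (c (y 0 (pr v)), (c (y N (pr v)), ())))) =
          CH r (fun v => y (i + 1) (pr v))
          (fun v => (c (y 0 (pr v)), (c (y N (pr v)), l i (pr v)))) := by
        refine CH_congr hr0 (fun _ _ _ _ h => (Prod.ext_iff.mp h).1)
          (fun _ _ _ _ h => (Prod.ext_iff.mp h).1) ?_ ?_ <;>
        · intro ω ω' _ _ h
          simp only [Prod.mk.injEq] at h ⊢
          tauto
      rw [h5, h4]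
      refine CH_congr hr0 (fun _ _ _ _ h => (Prod.ext_iff.mp h).1)
        (fun _ _ _ _ h => (Prod.ext_iff.mp h).1) ?_ ?_ <;>
      · intro ω ω' _ _ h
        simp only [Prod.mk.injEq] at h ⊢
        tauto)
    (by
      intro i hi
      have h1 : CI q (y N) (y i) (l i) := hch.ci3 i hi
      have h2 : CI q (fun w => c (y N w)) (y i) (l i) := h1.mono_left hq0 (by
        intro ω ω' _ _ h
        exact congrArg c (Prod.ext_iff.mp h).1)
      have h4 := h2.marg hm
      unfold CI at h4
      have h5 : CH r (fun v => c (y N (pr v))) (fun v => (y i (pr v), (l i (pr v), ()))) =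
          CH r (fun v => c (y N (pr v))) (fun v => (y i (pr v), l i (pr v))) := by
        refine CH_congr hr0 (fun _ _ _ _ h => (Prod.ext_iff.mp h).1)
          (fun _ _ _ _ h => (Prod.ext_iff.mp h).1) ?_ ?_ <;>
        · intro ω ω' _ _ h
          simp only [Prod.mk.injEq] at h ⊢
          tauto
      rw [h5, h4]
      refine CH_congr hr0 (fun _ _ _ _ h => (Prod.ext_iff.mp h).1)
        (fun _ _ _ _ h => (Prod.ext_iff.mp h).1) ?_ ?_
      · intro ω ω' _ _ h
        exact Prod.ext h rfl
      · intro ω ω' _ _ h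
        exact (Prod.ext_iff.mp h).1)
    (by
      intro i hi
      have h1 : CI q (y N) (l i) (y (i + 1)) := by
        refine CI_of_le hq0 ?_
        rw [← hch.ci4 i hi]
        refine CH_mono_cond hq0 ?_
        intro ω ω' _ _ h
        simp only [Prod.mk.injEq] at h ⊢
        tauto
      have h2 : CI q (fun w => c (y N w)) (l i) (y (i + 1)) := h1.mono_left hq0 (by
        intro ω ω' _ _ h
        exact congrArg c (Prod.ext_iff.mp h).1)
      have h4 := h2.marg hm
      unfold CI at h4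
      have h5 : CH r (fun v => c (y N (pr v)))
          (fun v => (y (i + 1) (pr v), (l i (pr v), ()))) =
          CH r (fun v => c (y N (pr v))) (fun v => (l i (pr v), y (i + 1) (pr v))) := by
        refine CH_congr hr0 (fun _ _ _ _ h => (Prod.ext_iff.mp h).1)
          (fun _ _ _ _ h => (Prod.ext_iff.mp h).1) ?_ ?_ <;>
        · intro ω ω' _ _ h
          simp only [Prod.mk.injEq] at h ⊢
          tauto
      rw [h5, h4]
      refine CH_congr hr0 (fun _ _ _ _ h => (Prod.ext_iff.mp h).1)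
        (fun _ _ _ _ h => (Prod.ext_iff.mp h).1) ?_ ?_
      · intro ω ω' _ _ h
        exact Prod.ext h rfl
      · intro ω ω' _ _ h
        exact (Prod.ext_iff.mp h).1)
    (by
      intro i hi
      have h0 : CH r (fun v => T (y (i + 1) (pr v)) % M) (fun v => (l i (pr v), ())) =
          CH q (fun w => T (y (i + 1) w) % M) (fun w => (l i w, ())) :=
        hm.CH (fun w => T (y (i + 1) w) % M) (fun w => (l i w, ()))
      have h1 : CH q (fun w => T (y (i + 1) w) % M) (fun w => (l i w, ())) =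
          CH p (fun ω => T (x ω)) lam := by
        rw [← (hch.marg' i hi).CH (fun ω => T (x ω)) lam]
        have e1 : ∀ w, 0 < q w → T (y (i + 1) w) % M = T (x (o' i w)) := by
          intro w hw
          rw [hch.stop w hw i hi]
          refine Nat.mod_eq_of_lt ?_
          rw [← hch.stop w hw i hi]
          exact hT _ ((hch.marg' i hi).pos hq0 hw)
        refine CH_congr hq0 ?_ ?_ ?_ ?_
        · intro ω ω' a b h
          have := (Prod.ext_iff.mp h).1
          simp only at this
          rw [e1 ω a, e1 ω' b] at this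
          exact this
        · intro ω ω' a b h
          have := (Prod.ext_iff.mp h).1
          simp only at this ⊢
          rw [e1 ω a, e1 ω' b]
          exact this
        · intro ω ω' a b h
          have := (Prod.ext_iff.mp h).1
          simp only at this ⊢
          rw [hch.line' ω a i hi, hch.line' ω' b i hi]
          exact this
        · intro ω ω' a b h
          have h' : lam (o' i ω) = lam (o' i ω') := h
          rw [hch.line' ω a i hi, hch.line' ω' b i hi] at h'
          exact Prod.ext h' rfl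
      rw [h0, h1]
      exact he₁)
  refine key.trans ?_
  have h1 : CH r (fun v => c (y N (pr v))) (fun v => (y 0 (pr v), ())) ≤
      CH p (fun ω => c (x ω)) (fun ω => lb (x ω)) := by
    have h2 : CH q (fun w => c (y N w)) (fun w => lb (y N w)) =
        CH p (fun ω => c (x ω)) (fun ω => lb (x ω)) :=
      CH_eq_of_law (hch.cell N le_rfl) c lb
    have h3 : CH r (fun v => c (y N (pr v))) (fun v => lb (y N (pr v))) =
        CH q (fun w => c (y N w)) (fun w => lb (y N w)) :=
      hm.CH (fun w => c (y N w)) (fun w => lb (y N w))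
    rw [← h2, ← h3]
    refine CH_mono_cond hr0 ?_
    intro v v' hv hv' h
    have e1 := (Prod.ext_iff.mp h).1
    simp only at e1
    have e2 := lab_const hch hlb (hsup v hv) N le_rfl
    have e3 := lab_const hch hlb (hsup v' hv') N le_rfl
    change lb (y N (pr v)) = lb (y N (pr v'))
    rw [e2, e3, e1]
  have h2 : (0 : ℝ) ≤ 2 * D := by positivity
  have h3 := mul_le_mul_of_nonneg_left h1 h2
  linarith

end Pool.M3F
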