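import Pool.Agent.H37.M3F.Lin
import Pool.Agent.H45.KAL.FUL
import Pool.Agent.H33.KAL.RMG
import Pool.Agent.H99.KAL.GVI
import Pool.Agent.H68.KAL.RIM

/-!
# Degree control for cells with polynomial charts

A law on incidences `(line, point)` in the coordinates `σ`; the cells of the points have polynomial
charts of dimension `d < |σ|` (natural boxes of a leaf); only the base position `v` of the points
has to mix along the chain. If all the charts are bad for the degree `D` then the cells are not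
small. Fans never enter.
-/

set_option autoImplicit false

namespace Pool.M3F

open Finset Real
open Pool.Agent.H49.Ent Pool.Agent.H32.Dense Pool.STK Pool.KAF Pool.KAL Pool.KS3

/-- A law on the incidences `(line, point)`: the point `ξ` has the time `T ξ / M` and the position
`z ξ` in the coordinates `σ`, the line `l` is `t ↦ A l + t B l`. -/
structure Inc {σ Ω Λ Ξ : Type} [Fintype Ω] (M : ℕ) (C₀ : ℝ) (p : Ω → ℝ) (lam : Ω → Λ)
    (x : Ω → Ξ) (T : Ξ → ℕ) (z : Ξ → σ → ℝ) (A B : Λ → σ → ℝ) : Prop where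
  isLaw : IsLaw p
  T_lt : ∀ ω, 0 < p ω → T (x ω) < M
  near : ∀ ω, 0 < p ω → ∀ i,
    |z (x ω) i - (A (lam ω) i + (T (x ω) : ℝ) / M * B (lam ω) i)| ≤ C₀ / M
  B_le : ∀ ω, 0 < p ω → ∀ i, |B (lam ω) i| ≤ C₀

/-- The cells of the points: `clv u` is the cell of the base position `u`, `Yv u` the position in
the cell, on the grid with `Ng` steps. -/
structure Cells {σ Ω Ξ U Δ : Type} [Fintype Ω] {d : ℕ} (k₀ : ℕ) (C₀ : ℝ) (M : ℕ) (p : Ω → ℝ)
    (x : Ω → Ξ) (z : Ξ → σ → ℝ) (v : Ξ → U) (clv : U → Δ) (Yv : U → Fin d → ℕ)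
    (Ng : Δ → Fin d → ℕ) (Φ : Δ → σ → MvPolynomial (Fin d) ℝ) : Prop where
  chart : ∀ ω, 0 < p ω → ChartOK k₀ C₀ M (Ng (clv (v (x ω)))) (Φ (clv (v (x ω))))
  lt : ∀ ω, 0 < p ω → ∀ i, Yv (v (x ω)) i < Ng (clv (v (x ω))) i
  near : ∀ ω, 0 < p ω → ∀ o, |z (x ω) o - cpt (Φ (clv (v (x ω))))
    (gpos (Ng (clv (v (x ω)))) (Yv (v (x ω)))) o| ≤ C₀ / M

/-- Degree control for cells with polynomial charts. -/
theorem cor_chart (σ : Type) [Fintype σ] (d D j k₀ : ℕ)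
    (hch : (j + d).choose d < (D + Fintype.card σ).choose (Fintype.card σ))
    (hj : 6 * d * D ≤ j) : ∃ C : ℝ, 0 ≤ C ∧
    ∀ (C₀ C₁ : ℝ) (Ω Λ Ξ W U Δ L : Type) [Fintype Ω] [Fintype W] (p : Ω → ℝ) (lam : Ω → Λ) (x : Ω → Ξ)
      (T : Ξ → ℕ) (z : Ξ → σ → ℝ) (A B : Λ → σ → ℝ) (lb : Ξ → L) (lbl : Λ → L) (lbc : Δ → L)
      (v : Ξ → U) (clv : U → Δ)
      (Yv : U → Fin d → ℕ) (Ng : Δ → Fin d → ℕ) (Φ : Δ → σ → MvPolynomial (Fin d) ℝ)
      (K M N : ℕ) (q : W → ℝ) (o o' : ℕ → W → Ω) (l : ℕ → W → Λ) (y : ℕ → W → Ξ)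
      (e₁ e₂ e₃ e₄ e₄' : ℝ),
      1 ≤ C₀ → 1 ≤ C₁ → 1 ≤ M → 1 ≤ K → Inc M C₀ p lam x T z A B → Cells k₀ C₀ M p x z v clv Yv Ng Φ →
      (∀ ω, 0 < p ω → lb (x ω) = lbl (lam ω)) →
      (∀ ω, 0 < p ω → lb (x ω) = lbc (clv (v (x ω)))) → IsChain p lam x N q o o' l y →
      (∀ ω, 0 < p ω → BadC D (C₀ / M) (C₁ / (K : ℝ) ^ (j + 1)) (Φ (clv (v (x ω))))) →
      0 ≤ e₁ → 0 ≤ e₂ → 0 ≤ e₃ → 0 ≤ e₄ → 0 ≤ e₄' →
      Real.log M - CH p (fun ω => T (x ω)) lam ≤ e₁ →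
      Ex p (fun ω => ∑ i, Real.log (Ng (clv (v (x ω))) i)) -
        CH p (fun ω => Yv (v (x ω))) (fun ω => clv (v (x ω))) ≤ e₂ →
      CH p (fun ω => clv (v (x ω))) (fun ω => lb (x ω)) ≤ d * Real.log K + e₃ →
      CH q (fun w => v (y N w)) (fun w => lb (y N w)) - CH q (fun w => v (y N w)) (y 0) ≤ e₄ →
      CH q (fun w => v (y 0 w)) (fun w => lb (y 0 w)) - CH q (fun w => v (y 0 w)) (y N) ≤ e₄' →
      Real.log K ≤ C * (e₂ + e₃ + e₄ + e₄' + N * (e₁ + 1) + Real.log C₁ + 1) := by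
  classical
  obtain ⟨Cs', hCs', hsml⟩ := sml_chart σ d D j k₀ hch
  obtain ⟨Cf, hCf, hfil⟩ := fil_chart (rik_thm rmg_thm gvi_thm) σ d D k₀
  obtain ⟨c₁, hc₁, hlin⟩ := lineC σ D
  obtain ⟨Ca, hCa, hac⟩ := acor (bud_thm (stp_thm (rix_thm (rim_thm rmg_thm gvi_thm))) bue_thm)
    (bup_thm (stp_thm (rix_thm (rim_thm rmg_thm gvi_thm))) bub_thm) D
  set κ : ℕ := (2 * k₀ + 1) * D + 1 with hκ
  have hlCs' : 0 ≤ Real.log Cs' := Real.log_nonneg hCs'
  refine ⟨Real.log Cs' + (D + 1) + 4 * D + 2 * κ + 2 * κ * Cf + 4 * D + 4 * D * Ca + 4 * c₁,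
    by positivity, ?_⟩
  intro C₀ C₁ Ω Λ Ξ W U Δ L _ _ p lam x T z A B lb lbl lbc v clv Yv Ng Φ K M N q o o' l y e₁ e₂ e₃ e₄
    e₄' hC₀ hC₁ hM hK hinc hcells hlb hlbc hchn hbad he₁0 he₂0 he₃0 he₄0 he₄'0 he₁ he₂ he₃ he₄ he₄'
  have hp := hinc.isLaw
  have hp0 := hp.nonneg
  set Cs : ℝ := Cs' * C₁ ^ (D + 1) with hCsdef
  have hC₁p : (1 : ℝ) ≤ C₁ ^ (D + 1) := one_le_pow₀ hC₁
  have hCs : 1 ≤ Cs := by nlinarith
  have hlC₁ : 0 ≤ Real.log C₁ := Real.log_nonneg hC₁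
  have hlCs : Real.log Cs = Real.log Cs' + (D + 1) * Real.log C₁ := by
    rw [hCsdef, Real.log_mul (by linarith) (by positivity), Real.log_pow]
    push_cast
    ring
  have hK1 : (1 : ℝ) ≤ K := by exact_mod_cast hK
  have hK0 : (0 : ℝ) < K := by linarith
  have hM1 : (1 : ℝ) ≤ M := by exact_mod_cast hM
  have hM0 : (0 : ℝ) < M := by linarith
  set h : ℝ := C₀ / M with hh
  have hh0 : 0 < h := by positivity
  set sc : Ξ → Fin d → ℕ := fun ξ i => Yv (v ξ) i * K / Ng (clv (v ξ)) i with hsc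
  -- the small cell
  have hscK : ∀ ω, 0 < p ω → ∀ i, sc (x ω) i < K := by
    intro ω hω i
    have h1 := hcells.lt ω hω i
    simp only [hsc]
    rw [Nat.div_lt_iff_lt_mul (lt_of_le_of_lt (Nat.zero_le _) h1), mul_comm K]
    exact Nat.mul_lt_mul_of_pos_right h1 hK
  have hscp : ∀ ω, 0 < p ω → ∀ i, (sc (x ω) i : ℝ) / K ≤
      gpos (Ng (clv (v (x ω)))) (Yv (v (x ω))) i ∧
      gpos (Ng (clv (v (x ω)))) (Yv (v (x ω))) i ≤ (sc (x ω) i : ℝ) / K + 1 / K := by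
    intro ω hω i
    have h1 := hcells.lt ω hω i
    have h2 : 0 < Ng (clv (v (x ω))) i := lt_of_le_of_lt (Nat.zero_le _) h1
    have h3 : (0 : ℝ) < Ng (clv (v (x ω))) i := by exact_mod_cast h2
    have h4 : sc (x ω) i * Ng (clv (v (x ω))) i ≤ Yv (v (x ω)) i * K := Nat.div_mul_le_self _ _
    have h5 : Yv (v (x ω)) i * K < (sc (x ω) i + 1) * Ng (clv (v (x ω))) i := by
      simp only [hsc]
      have h6 := Nat.div_add_mod (Yv (v (x ω)) i * K) (Ng (clv (v (x ω))) i)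
      have h7 := Nat.mod_lt (Yv (v (x ω)) i * K) h2
      have h8 : (Yv (v (x ω)) i * K / Ng (clv (v (x ω))) i + 1) * Ng (clv (v (x ω))) i =
          Ng (clv (v (x ω))) i * (Yv (v (x ω)) i * K / Ng (clv (v (x ω))) i) +
            Ng (clv (v (x ω))) i := by ring
      rw [h8]
      omega
    unfold gpos
    have h4' : (sc (x ω) i : ℝ) * Ng (clv (v (x ω))) i ≤ Yv (v (x ω)) i * K := by
      exact_mod_cast h4
    have h5' : (Yv (v (x ω)) i : ℝ) * K ≤ (sc (x ω) i + 1) * Ng (clv (v (x ω))) i := by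
      exact_mod_cast h5.le
    constructor
    · rw [div_le_div_iff₀ hK0 h3]
      exact h4'
    · rw [← add_div, div_le_div_iff₀ h3 hK0]
      exact h5'
  -- the test polynomials
  have hexP : ∀ β : Δ × (Fin d → ℕ), ∃ P : MvPolynomial σ ℝ,
      (∃ ω, 0 < p ω ∧ (clv (v (x ω)), sc (x ω)) = β) →
        P ≠ 0 ∧ P.totalDegree ≤ D ∧ csC (Φ β.1) P = 1 ∧
        ∀ u : Fin d → ℝ, (∀ i, (β.2 i : ℝ) / K ≤ u i ∧ u i ≤ (β.2 i : ℝ) / K + 1 / K) →
          ∀ z : σ → ℝ, (∀ o, |z o - cpt (Φ β.1) u o| ≤ h) → Psi P h z ≤ Cs / K ^ (j + 1) := by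
    intro β
    by_cases hβ : ∃ ω, 0 < p ω ∧ (clv (v (x ω)), sc (x ω)) = β
    · obtain ⟨ω, hω, hβ⟩ := hβ
      subst hβ
      obtain ⟨P, h1, h2, h3, h4⟩ := hsml C₁ K h (Φ (clv (v (x ω))))
        (fun i => (sc (x ω) i : ℝ) / K) hC₁ hK1 hh0.le (hcells.chart ω hω).deg (hbad ω hω) (by
          intro i
          have h5 : (sc (x ω) i : ℝ) + 1 ≤ K := by exact_mod_cast hscK ω hω i
          refine ⟨by positivity, ?_⟩
          rw [← add_div, div_le_one hK0]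
          exact h5)
      exact ⟨P, fun _ => ⟨h1, h2, h3, h4⟩⟩
    · exact ⟨0, fun h' => absurd h' hβ⟩
  choose P hP using hexP
  have hPω : ∀ ω, 0 < p ω → P (clv (v (x ω)), sc (x ω)) ≠ 0 ∧
      (P (clv (v (x ω)), sc (x ω))).totalDegree ≤ D ∧
      csC (Φ (clv (v (x ω)))) (P (clv (v (x ω)), sc (x ω))) = 1 ∧
      ∀ u : Fin d → ℝ, (∀ i, (sc (x ω) i : ℝ) / K ≤ u i ∧ u i ≤ (sc (x ω) i : ℝ) / K + 1 / K) →
          ∀ z : σ → ℝ, (∀ o, |z o - cpt (Φ (clv (v (x ω)))) u o| ≤ h) →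
          Psi (P (clv (v (x ω)), sc (x ω))) h z ≤ Cs / K ^ (j + 1) :=
    fun ω hω => hP _ ⟨ω, hω, rfl⟩
  have key := hac Ω Λ Ξ W U Δ (Fin d → ℕ) (Fin d → ℕ) L p lam x T M N q o o' l y lb lbl lbc v
    clv Yv sc
    (fun β ξ => Real.log (Psi (P β) h (z ξ))) (admC D h Φ P) (κ : ℝ)
    (fun b => ∑ i, Real.log (Ng b i)) Cf c₁ ((j + 1) * Real.log K - Real.log Cs)
    (d * Real.log K + e₃) (2 * d * Real.log K + e₃) e₁ e₂ e₄ e₄' hM hc₁ (Nat.cast_nonneg κ)
    hlb hlbc hinc.T_lt hchn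
    (by
      -- the line
      intro ω hω ll
      by_cases hll : ∃ ω', 0 < p ω' ∧ lam ω' = ll
      · obtain ⟨ω', hω', rfl⟩ := hll
        obtain ⟨m, g, h1, h2, h3⟩ := hlin C₀ M (P (clv (v (x ω)), sc (x ω))) (A (lam ω'))
          (B (lam ω')) hC₀ hM (hPω ω hω).1 (hPω ω hω).2.1 (hinc.B_le ω' hω')
        refine ⟨m, g, h1, h2, ?_⟩
        intro ω'' hω'' hl
        refine h3 ((T (x ω'') : ℝ) / M) ?_ (z (x ω'')) ?_
        · have h5 : (T (x ω'') : ℝ) ≤ M := by exact_mod_cast (hinc.T_lt ω'' hω'').le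
          refine ⟨by positivity, ?_⟩
          rw [div_le_one hM0]
          exact h5
        · intro i
          have := hinc.near ω'' hω'' i
          rw [hl] at this
          exact this
      · refine ⟨0, 1, by simp, ⟨0, ⟨le_rfl, zero_le_one⟩, by simp⟩, ?_⟩
        intro ω' hω' hl
        exact absurd ⟨ω', hω', hl⟩ hll)
    (hfil C₀ Ω Ξ (Δ × (Fin d → ℕ)) Δ p x M (fun ξ => clv (v ξ)) Ng Φ (fun ξ => Yv (v ξ)) z P
      hC₀ hM
      hcells.chart hcells.lt hcells.near)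
    (by
      intro ω ω' hω hω'
      refine ⟨(hPω ω hω).1, (hPω ω hω).2.1,
        gpos (Ng (clv (v (x ω')))) (Yv (v (x ω'))), gpos_mem (hcells.lt ω' hω'), z (x ω'),
        hcells.near ω' hω', le_rfl⟩)
    (by
      intro ω hω
      obtain ⟨us, hus, hus'⟩ := cs_attained (fun _ : Fin d => (0 : ℝ)) 1 zero_le_one
        (MvPolynomial.bind₁ (Φ (clv (v (x ω)))) (P (clv (v (x ω)), sc (x ω))))
      refine ⟨(hPω ω hω).1, (hPω ω hω).2.1, us, ?_, cpt (Φ (clv (v (x ω)))) us, ?_, ?_⟩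
      · intro i
        have := hus i
        refine ⟨this.1, ?_⟩
        linarith [this.2]
      · intro o
        rw [sub_self, abs_zero]
        exact hh0.le
      · have h1 : cs (fun _ : Fin d => (0 : ℝ)) 1
            (MvPolynomial.bind₁ (Φ (clv (v (x ω)))) (P (clv (v (x ω)), sc (x ω)))) = 1 :=
          (hPω ω hω).2.2.1
        rw [h1, eval_bind] at hus'
        have h2 := abs_eval_le_Psi (P (clv (v (x ω)), sc (x ω))) h
          (cpt (Φ (clv (v (x ω)))) us)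
        rw [hus'] at h2
        exact Real.log_nonneg h2)
    (by
      intro ω hω
      have h1 := (hPω ω hω).2.2.2 _ (hscp ω hω) (z (x ω)) (hcells.near ω hω)
      have h2 := Psi_pos _ (hPω ω hω).1 h hh0 (z (x ω))
      have h3 := Real.log_le_log h2 h1
      rw [Real.log_div (by positivity) (by positivity), Real.log_pow] at h3
      push_cast at h3
      linarith)
    he₁ he₃
    (by
      -- the entropy of the small cells
      have h1 := CH_le_card hp0 hp.sum_one (fun ω => sc (x ω)) (fun ω => clv (v (x ω)))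
        (fun _ => Fintype.piFinset (fun _ : Fin d => Finset.range K)) (by
        intro ω hω
        rw [Fintype.mem_piFinset]
        intro i
        rw [Finset.mem_range]
        exact hscK ω hω i)
      rw [Ex_const hp.sum_one, Fintype.card_piFinset] at h1
      simp only [Finset.card_range, Finset.prod_const, Finset.card_univ, Fintype.card_fin] at h1
      push_cast at h1
      rw [Real.log_pow] at h1
      have h2 : CH p (fun ω => (clv (v (x ω)), sc (x ω))) (fun ω => lb (x ω)) =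
          CH p (fun ω => clv (v (x ω))) (fun ω => lb (x ω)) +
            CH p (fun ω => sc (x ω)) (fun ω => (clv (v (x ω)), lb (x ω))) := by
        unfold CH
        have e1 : H p (fun ω => ((clv (v (x ω)), sc (x ω)), lb (x ω))) =
            H p (fun ω => (sc (x ω), (clv (v (x ω)), lb (x ω)))) := by
          refine H_congr hp0 ?_ ?_ <;>
          · intro ω ω' _ _ h
            simp only [Prod.mk.injEq] at h ⊢
            tauto
        rw [e1]
        ring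
      have h3 : CH p (fun ω => sc (x ω)) (fun ω => (clv (v (x ω)), lb (x ω))) ≤
          CH p (fun ω => sc (x ω)) (fun ω => clv (v (x ω))) := by
        refine CH_mono_cond hp0 ?_
        intro ω ω' _ _ h
        exact (Prod.ext_iff.mp h).1
      rw [h2]
      linarith)
    he₂ he₄ he₄'
  -- the sum
  have hκ0 : (0 : ℝ) ≤ κ := Nat.cast_nonneg κ
  have hD : (0 : ℝ) ≤ D := Nat.cast_nonneg D
  have hN : (0 : ℝ) ≤ N := Nat.cast_nonneg N
  have hlK : 0 ≤ Real.log K := Real.log_nonneg hK1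
  have hj' : (6 : ℝ) * d * D ≤ j := by exact_mod_cast hj
  have B3 : (6 : ℝ) * d * D * Real.log K ≤ j * Real.log K := mul_le_mul_of_nonneg_right hj' hlK
  set V : ℝ := e₂ + e₃ + e₄ + e₄' + N * (e₁ + 1) + Real.log C₁ + 1 with hV
  have n1 : (0 : ℝ) ≤ N * (e₁ + 1) := by positivity
  have n2 : (0 : ℝ) ≤ N * e₁ := by positivity
  have w1 : Real.log Cs' * 1 ≤ Real.log Cs' * V :=
    mul_le_mul_of_nonneg_left (by rw [hV]; linarith) hlCs'
  have w0 : ((D : ℝ) + 1) * Real.log C₁ ≤ (D + 1) * V :=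
    mul_le_mul_of_nonneg_left (by rw [hV]; linarith) (by positivity)
  have w2 : 4 * (D : ℝ) * e₃ ≤ 4 * D * V :=
    mul_le_mul_of_nonneg_left (by rw [hV]; linarith) (by positivity)
  have w3 : (κ : ℝ) * (2 * e₂ + e₄ + e₄') ≤ κ * (2 * V) :=
    mul_le_mul_of_nonneg_left (by rw [hV]; linarith) hκ0
  have w4 : 2 * (κ : ℝ) * Cf * 1 ≤ 2 * κ * Cf * V :=
    mul_le_mul_of_nonneg_left (by rw [hV]; linarith) (by positivity)
  have w5 : 4 * (D : ℝ) * (N * e₁) ≤ 4 * D * V :=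
    mul_le_mul_of_nonneg_left (by rw [hV]; nlinarith) (by positivity)
  have w6 : (4 * (D : ℝ) * Ca + 4 * c₁) * N ≤ (4 * D * Ca + 4 * c₁) * V :=
    mul_le_mul_of_nonneg_left (by rw [hV]; nlinarith) (by positivity)
  rw [hlCs] at key
  nlinarith [key, B3, w0, w1, w2, w3, w4, w5, w6]

end Pool.M3F
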