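import Pool.Agent.H37.M3F.Fam

/-!
# Degree control for all linear combinations of several passive coordinates

The base coordinates are the time and `c 0, …, c (r - 1)`, the passive coordinates are
`e 0, …, e (s - 1)`, with label polynomials in the base variables. For one record, every
combination `∑ k, n k * x (e k)` with `|n k| ≤ 1` has an equation of universal degree.
-/

set_option autoImplicit false

namespace Pool.M3F

open Finset Real MvPolynomial
open Pool.Agent.H49.Ent Pool.Agent.H32.Dense Pool.STK Pool.KA Pool.K2S Pool.PB Pool.STAT Pool.GEN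
open Pool.KAF Pool.KAL

variable {m J : ℕ}

/-- The rounded position in the coordinate `k`. -/
noncomputable def pxe {F : Fam m J} (k : Fin m) (ξ : PtT F) : ℝ := (ξ.1 k : ℝ) / 2 ^ J

/-- **Closed labels of several passive coordinates on natural boxes.** The variable `0` is the time,
the variable `i + 1` is the coordinate `c i`, `i < r`; `R v k` is the label polynomial of the passive
coordinate `e k`, in these variables. -/
structure NLabV (F : Fam m J) (c : ℕ → Fin m) (r W : ℕ) (g : ℕ → ℕ) (P₀ : ℕ) {s : ℕ}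
    (e : Fin s → Fin m) (K : ℕ) (L : ℝ) (B : F.Ω → Prop) {V : Type} (z : PtT F → V)
    (z' : LnT F → V) (P : V → ℕ → PN) (R : V → Fin s → PN) : Prop where
  deg : ∀ v i, (P v i).totalDegree ≤ K
  tri : ∀ v, TriN (P v)
  cls : ∀ ω, B ω → z (ptr F J ω) = z' (KSAT.slam F W ω)
  zero : ∀ ω, B ω → P (z (ptr F J ω)) 0 = MvPolynomial.C ((F.T1 W ω : ℝ) / 2 ^ W)
  pos : ∀ ω, B ω → ∀ i < r, |px c (ptr F J ω) (i + 1) -
    eval (px c (ptr F J ω)) (P (z (ptr F J ω)) (i + 1))| ≤ 1 / 2 ^ g i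
  grad : ∀ ω, B ω → ∀ b : ℕ → ℝ, CLO.Bxr 4 (wid W g) (P (z (ptr F J ω))) (r + 1) b →
    ∀ i ≤ r, ∀ l < i, |eval b (pderiv l (P (z (ptr F J ω)) i))| ≤ L
  degR : ∀ v k, (R v k).totalDegree ≤ K
  varR : ∀ v k, (R v k).vars ⊆ range (r + 1)
  posR : ∀ ω, B ω → ∀ k, |pxe (e k) (ptr F J ω) -
    eval (px c (ptr F J ω)) (R (z (ptr F J ω)) k)| ≤ 1 / 2 ^ P₀
  gradR : ∀ ω, B ω → ∀ b : ℕ → ℝ, CLO.Bxr 4 (wid W g) (P (z (ptr F J ω))) (r + 1) b →
    ∀ k, ∀ l ≤ r, |eval b (pderiv l (R (z (ptr F J ω)) k))| ≤ L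

/-- The combination of the label polynomials. -/
noncomputable def cmbR {s : ℕ} (n : Fin s → ℝ) (R : Fin s → PN) : PN := ∑ k, C (n k) * R k

/-- The point of the leaf of the combination over `b`. -/
noncomputable def lfn (r : ℕ) {s : ℕ} (n : Fin s → ℝ) (R : Fin s → PN) (b : ℕ → ℝ) : ℕ → ℝ :=
  Function.update b (r + 1) (eval b (cmbR n R))

lemma deg_cmbR {s K : ℕ} (n : Fin s → ℝ) {R : Fin s → PN} (h : ∀ k, (R k).totalDegree ≤ K) :
    (cmbR n R).totalDegree ≤ K := by
  unfold cmbR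
  refine totalDegree_finsetSum_le fun k _ => ?_
  refine (totalDegree_mul _ _).trans ?_
  rw [totalDegree_C, zero_add]
  exact h k

lemma vars_cmbR {s r : ℕ} (n : Fin s → ℝ) {R : Fin s → PN} (h : ∀ k, (R k).vars ⊆ range r) :
    (cmbR n R).vars ⊆ range r := by
  classical
  unfold cmbR
  refine (vars_sum_subset _ _).trans ?_
  rw [Finset.biUnion_subset]
  intro k _
  refine (vars_mul _ _).trans ?_
  rw [vars_C, Finset.empty_union]
  exact h k

/-- The scaled positions. -/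
noncomputable def zsn {F : Fam m J} (c : ℕ → Fin m) (r W : ℕ) {s : ℕ} (e : Fin s → Fin m) {V : Type}
    (z : PtT F → V) (n : V → Fin s → ℝ) (ξ : PtT F) (o : Option (Fin (r + 1))) : ℝ :=
  o.elim (2 ^ W * ∑ k, n (z ξ) k * pxe (e k) ξ) (fun i => 2 ^ W * px c ξ i.val)

/-- The lines at the beginning of the window. -/
noncomputable def avn {F : Fam m J} (c : ℕ → Fin m) (r W : ℕ) {s : ℕ} (e : Fin s → Fin m) {V : Type}
    (z' : LnT F → V) (n : V → Fin s → ℝ) (l : LnT F) (o : Option (Fin (r + 1))) : ℝ :=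
  o.elim (∑ k, n (z' l) k * aval (fun _ => e k) W l 1) (fun i => aval c W l i.val)

/-- The directions of the lines. -/
noncomputable def bvn {F : Fam m J} (c : ℕ → Fin m) (r : ℕ) {s : ℕ} (e : Fin s → Fin m) {V : Type}
    (z' : LnT F → V) (n : V → Fin s → ℝ) (l : LnT F) (o : Option (Fin (r + 1))) : ℝ :=
  o.elim (∑ k, n (z' l) k * bval (fun _ => e k) l 1) (fun i => bval c l i.val)

lemma nd_eqn {F : Fam m J} {c : ℕ → Fin m} {r W : ℕ} {P₀ : ℕ} {s : ℕ} {e : Fin s → Fin m}
    {V : Type} (hWP : W ≤ P₀) (z : PtT F → V) (n : V → Fin s → ℝ) (P : V → ℕ → PN)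
    (hP : ∀ v, TriN (P v)) (ξ : PtT F) :
    nd (2 ^ (P₀ - W)) (zsn c r W e z n) z (fun v (i : Fin (r + 1)) => toF (r + 1) W (P v i)) ξ =
      fun i : Fin (r + 1) => ndp c P₀ (P (z ξ)) ξ i := by
  rw [← nd_eq hWP z P hP ξ]
  rfl

/-- **Degree control for all linear combinations of the passive coordinates at once.** -/
theorem m3f_famn (r s D j K₀ : ℕ)
    (hch : (j + (r + 1)).choose (r + 1) < (D + (r + 1) + 1).choose (r + 1 + 1))
    (hj : 6 * (r + 1) * D ≤ j) : ∃ (C : ℝ) (C' : ℕ), 0 ≤ C ∧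
    ∀ {m J : ℕ} (F : Fam m J) (c : ℕ → Fin m) (W : ℕ) (g : ℕ → ℕ) (P₀ : ℕ) (e : Fin s → Fin m)
      (L : ℝ) (B : F.Ω → Prop) (V : Type) (z : PtT F → V) (z' : LnT F → V) (P : V → ℕ → PN)
      (R : V → Fin s → PN) (kap N : ℕ) (S : Type) [Fintype S] (q : S → ℝ) (o o' : ℕ → S → F.Ω)
      (l : ℕ → S → LnT F) (y : ℕ → S → PtT F) (e₁ e₂ e₄ e₄' : ℝ),
      NLabV F c r W g P₀ e K₀ L B z z' P R → 0 ≤ L → 0 < law F.p B True → P₀ ≤ J → W ≤ P₀ →
      (∀ i < r + 1, W ≤ wid W g i + kap) → (∀ i < r + 1, wid W g i + (j + 2) * kap ≤ P₀) →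
      KS3.IsChain (cond F.p B True) (KSAT.slam F W) (K2S.Fam.pt F) N q o o' l y →
      0 ≤ e₁ → 0 ≤ e₂ → 0 ≤ e₄ → 0 ≤ e₄' →
      ((P₀ : ℝ) - W) * Real.log 2 - CH (cond F.p B True)
        (fun ω => tdg W P₀ (K2S.Fam.pt F ω)) (KSAT.slam F W) ≤ e₁ →
      (∑ i : Fin (r + 1), ((P₀ : ℝ) - wid W g i) * Real.log 2) - CH (cond F.p B True)
        (fun ω (i : Fin (r + 1)) => ndp c P₀ (P (z (K2S.Fam.pt F ω))) (K2S.Fam.pt F ω) i)
        (fun ω => z (K2S.Fam.pt F ω)) ≤ e₂ →
      CH q (fun w (i : Fin (r + 1)) => ndp c P₀ (P (z (y N w))) (y N w) i)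
          (fun w => z (y N w)) -
        CH q (fun w (i : Fin (r + 1)) => ndp c P₀ (P (z (y N w))) (y N w) i) (y 0) ≤ e₄ →
      CH q (fun w (i : Fin (r + 1)) => ndp c P₀ (P (z (y 0 w))) (y 0 w) i)
          (fun w => z (y 0 w)) -
        CH q (fun w (i : Fin (r + 1)) => ndp c P₀ (P (z (y 0 w))) (y 0 w) i) (y N) ≤ e₄' →
      kap * Real.log 2 ≤ C * (e₂ + e₄ + e₄' + N * (e₁ + 1) + Real.log (1 + L) + 1) ∨
      ∃ ω, B ω ∧ 0 < F.p ω ∧ ∀ n : Fin s → ℝ, (∀ k, |n k| ≤ 1) →
        ∃ Q : PN, Q.totalDegree ≤ D ∧ Q.vars ⊆ range (r + 2) ∧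
        ∃ b₀, CLO.Bxr 2 (wid W g) (P (z (K2S.Fam.pt F ω))) (r + 1) b₀ ∧
          0 < |eval (lfn r n (R (z (K2S.Fam.pt F ω))) b₀) (pderiv (r + 1) Q)| ∧
          ∀ b, CLO.Bxr 2 (wid W g) (P (z (K2S.Fam.pt F ω))) (r + 1) b → ∀ k,
            ((2 : ℝ) ^ (C' * kap) / 2 ^ P₀) ^ k *
              |eval (lfn r n (R (z (K2S.Fam.pt F ω))) b) ((fun S : PN => pderiv (r + 1) S)^[k] Q)| ≤
            (2 : ℝ) ^ (C' * kap) / 2 ^ P₀ *
              |eval (lfn r n (R (z (K2S.Fam.pt F ω))) b₀) (pderiv (r + 1) Q)| := by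
  classical
  obtain ⟨C, hC, hlab⟩ := m3f_lab (r + 1) D j K₀ hch hj
  obtain ⟨K₁, hK₁, hjts⟩ := jts (r + 1) D K₀
  set E : ℕ := (K₀ + 1) ^ (r + 1 + 1) * D with hE
  obtain ⟨c₁, hc₁⟩ : ∃ c₁ : ℕ, K₁ * 12 ^ E ≤ 2 ^ c₁ := by
    obtain ⟨n, hn⟩ := pow_unbounded_of_one_lt (K₁ * 12 ^ E) (by norm_num : (1 : ℝ) < 2)
    exact ⟨n, hn.le⟩
  have hs0 : (0 : ℝ) ≤ s := Nat.cast_nonneg s
  have hls : 0 ≤ Real.log (2 * (s + 1)) := Real.log_nonneg (by linarith)
  refine ⟨C * (2 * Real.log (2 * (s + 1)) + 1), c₁ + E + j + 1, by positivity, ?_⟩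
  intro m J F c W g P₀ e L B V z z' P R kap N S _ q o o' l y e₁ e₂ e₄ e₄' hN hL hB hgJ hWg hWw hwk
    hchn he₁0 he₂0 he₄0 he₄'0 he₁ he₂ he₄ he₄'
  set p := cond F.p B True with hp
  have hpl : IsLaw p :=
    { nonneg := cond_nonneg F.isLaw.nonneg B True
      sum_one := sum_cond F.p B hB.ne' }
  have hpB : ∀ ω, 0 < p ω → B ω ∧ 0 < F.p ω := by
    intro ω hω
    rw [hp] at hω
    unfold Pool.Agent.H49.Ent.cond at hω
    split_ifs at hω with h
    · refine ⟨of_eq_true h, ?_⟩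
      by_contra hcon
      have h1 : F.p ω = 0 := le_antisymm (not_lt.1 hcon) (F.isLaw.nonneg ω)
      rw [h1, zero_div] at hω
      exact lt_irrefl _ hω
    · exact absurd hω (lt_irrefl _)
  set M : ℕ := 2 ^ (P₀ - W) with hM
  set K : ℕ := 2 ^ kap with hK
  set Ng : Fin (r + 1) → ℕ := fun i => 2 ^ (P₀ - wid W g i - kap) with hNg
  have hM1 : 1 ≤ M := Nat.one_le_two_pow
  have hK1 : 1 ≤ K := Nat.one_le_two_pow
  have hM0 : (0 : ℝ) < M := by exact_mod_cast hM1
  have hK0 : (0 : ℝ) < K := by exact_mod_cast hK1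
  have hN1 : ∀ i, 1 ≤ Ng i := fun i => Nat.one_le_two_pow
  have hN0 : ∀ i, (0 : ℝ) < Ng i := fun i => by exact_mod_cast hN1 i
  have hW0 : (0 : ℝ) < 2 ^ W := by positivity
  have hkw : ∀ i : Fin (r + 1), wid W g i + kap ≤ P₀ := by
    intro i
    have h1 := hwk i i.2
    have h2 : kap ≤ (j + 2) * kap := Nat.le_mul_of_pos_left kap (by omega)
    omega
  have hKN : ∀ i : Fin (r + 1), (K : ℝ) * Ng i / M = 2 ^ W / 2 ^ wid W g i := by
    intro i
    have h1 := hkw i
    rw [div_eq_div_iff hM0.ne' (by positivity)]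
    simp only [hK, hNg, hM]
    push_cast
    rw [← pow_add, ← pow_add, ← pow_add]
    congr 1
    omega
  have hKNn : ∀ i : Fin (r + 1), K * Ng i = 2 ^ (P₀ - wid W g i) := by
    intro i
    have h1 := hkw i
    simp only [hK, hNg]
    rw [← pow_add]
    congr 1
    omega
  -- the property of a combination
  set Good : V → (Fin s → ℝ) → Prop := fun v n => ∃ Q : PN, Q.totalDegree ≤ D ∧
    Q.vars ⊆ range (r + 2) ∧ ∃ b₀, CLO.Bxr 2 (wid W g) (P v) (r + 1) b₀ ∧
      0 < |eval (lfn r n (R v) b₀) (pderiv (r + 1) Q)| ∧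
      ∀ b, CLO.Bxr 2 (wid W g) (P v) (r + 1) b → ∀ k,
        ((2 : ℝ) ^ ((c₁ + E + j + 1) * kap) / 2 ^ P₀) ^ k *
          |eval (lfn r n (R v) b) ((fun S : PN => pderiv (r + 1) S)^[k] Q)| ≤
        (2 : ℝ) ^ ((c₁ + E + j + 1) * kap) / 2 ^ P₀ *
          |eval (lfn r n (R v) b₀) (pderiv (r + 1) Q)| with hGood
  by_cases hex : ∃ ω, B ω ∧ 0 < F.p ω ∧ ∀ n : Fin s → ℝ, (∀ k, |n k| ≤ 1) →
      Good (z (K2S.Fam.pt F ω)) n
  · right
    exact hex
  left
  -- a bad combination for every label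
  set nn : V → Fin s → ℝ := fun v => if h : ∃ n : Fin s → ℝ, (∀ k, |n k| ≤ 1) ∧ ¬ Good v n then
    h.choose else 0 with hnn
  have hnn1 : ∀ v k, |nn v k| ≤ 1 := by
    intro v k
    simp only [hnn]
    split_ifs with h
    · exact h.choose_spec.1 k
    · change |(0 : ℝ)| ≤ 1
      rw [abs_zero]
      norm_num
  have hnnb : ∀ ω, 0 < p ω → ¬ Good (z (K2S.Fam.pt F ω)) (nn (z (K2S.Fam.pt F ω))) := by
    intro ω hω
    obtain ⟨h1, h2⟩ := hpB ω hω
    have h : ∃ n : Fin s → ℝ, (∀ k, |n k| ≤ 1) ∧ ¬ Good (z (K2S.Fam.pt F ω)) n := by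
      by_contra hcon
      push Not at hcon
      exact hex ⟨ω, h1, h2, hcon⟩
    simp only [hnn, dif_pos h]
    exact h.choose_spec.2
  set gg : V → Fin (r + 1) → MvPolynomial (Fin (r + 1)) ℝ :=
    fun v i => toF (r + 1) W (P v i) with hgg
  set gN : V → MvPolynomial (Fin (r + 1)) ℝ := fun v => toF (r + 1) W (cmbR (nn v) (R v)) with hgN
  have htri : ∀ v, TriP (gg v) := fun v => triP_toF (hN.tri v)
  have hdeg : ∀ v i, (gg v i).totalDegree ≤ K₀ := fun v i => (deg_toF _).trans (hN.deg v _)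
  have hdegN : ∀ v, (gN v).totalDegree ≤ K₀ := fun v =>
    (deg_toF _).trans (deg_cmbR _ (hN.degR v))
  have hvarR : ∀ v, (cmbR (nn v) (R v)).vars ⊆ range (r + 1) := fun v => vars_cmbR _ (hN.varR v)
  have hnd : ∀ ξ, nd M (zsn c r W e z nn) z gg ξ =
      fun i : Fin (r + 1) => ndp c P₀ (P (z ξ)) ξ i := fun ξ => nd_eqn hWg z nn P hN.tri ξ
  have hub : ∀ (ξ : PtT F) {Q : PN} {i : ℕ}, i ≤ r + 1 → Q.vars ⊆ range i →
      eval (px c ξ) Q = eval (unF (r + 1) W (bse (zsn c r W e z nn ξ))) Q := fun ξ Q i hi hQ =>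
    unF_bse c r W ξ hi hQ
  -- the positions
  have hposi : ∀ ω, B ω → ∀ i : Fin (r + 1), |zsn c r W e z nn (K2S.Fam.pt F ω) (some i) -
      eval (bse (zsn c r W e z nn (K2S.Fam.pt F ω))) (gg (z (K2S.Fam.pt F ω)) i)| ≤
        K * Ng i / M := by
    intro ω hω i
    set ξ := K2S.Fam.pt F ω with hξ
    rw [hgg]
    change |_ - eval _ (toF (r + 1) W (P (z ξ) i))| ≤ _
    rw [eval_toF, ← hub ξ i.2.le (hN.tri (z ξ) i), hKN]
    have e1 : zsn c r W e z nn ξ (some i) = 2 ^ W * px c ξ i := rfl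
    rw [e1, ← mul_sub, abs_mul, abs_of_pos hW0, div_eq_mul_one_div (2 ^ W : ℝ)]
    refine mul_le_mul_of_nonneg_left ?_ hW0.le
    rcases Nat.eq_zero_or_pos i.val with h0 | h0
    · have e2 : wid W g i = W := by
        unfold wid
        rw [if_pos h0]
      have h0z : P (z ξ) 0 = MvPolynomial.C ((F.T1 W ω : ℝ) / 2 ^ W) := hN.zero ω hω
      rw [e2, h0, h0z, eval_C]
      have h1 := tim_fam (F := F) W W le_rfl (hWg.trans hgJ) ω
      have e3 : px c ξ 0 = F.t ω := rfl
      have e4 : (tdg W W (K2S.Fam.pt F ω) : ℝ) = 0 := by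
        unfold tdg
        rw [Nat.sub_self, pow_zero, Nat.mod_one, Nat.cast_zero]
      rw [e4, zero_div, add_zero, Nat.sub_self, pow_zero, Nat.cast_one, div_one] at h1
      rw [e3]
      have e5 : F.t ω - (F.T1 W ω : ℝ) / 2 ^ W = (2 ^ W * F.t ω - F.T1 W ω) / 2 ^ W := by
        field_simp
      rw [e5, abs_div, abs_of_pos hW0]
      exact div_le_div_of_nonneg_right h1 hW0.le
    · obtain ⟨i', hi'⟩ : ∃ i', i.val = i' + 1 := ⟨i.val - 1, by omega⟩
      have e2 : wid W g i = g i' := by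
        unfold wid
        rw [if_neg (by omega), hi', Nat.add_sub_cancel]
      rw [e2, hi']
      exact hN.pos ω hω i' (by
        have := i.2
        omega)
  have hcar : (Finset.univ : Finset (Fin s)).card = s := by
    rw [Finset.card_univ, Fintype.card_fin]
  have hposN : ∀ ω, B ω → |zsn c r W e z nn (K2S.Fam.pt F ω) none -
      eval (bse (zsn c r W e z nn (K2S.Fam.pt F ω))) (gN (z (K2S.Fam.pt F ω)))| ≤ s / M := by
    intro ω hω
    set ξ := K2S.Fam.pt F ω with hξ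
    rw [hgN]
    change |_ - eval _ (toF (r + 1) W (cmbR (nn (z ξ)) (R (z ξ))))| ≤ _
    rw [eval_toF, ← hub ξ le_rfl (hvarR (z ξ))]
    have e1 : zsn c r W e z nn ξ none = 2 ^ W * ∑ k, nn (z ξ) k * pxe (e k) ξ := rfl
    have e3 : eval (px c ξ) (cmbR (nn (z ξ)) (R (z ξ))) =
        ∑ k, nn (z ξ) k * eval (px c ξ) (R (z ξ) k) := by
      unfold cmbR
      rw [map_sum]
      refine Finset.sum_congr rfl fun k _ => ?_
      rw [map_mul, eval_C]
    rw [e1, e3, ← mul_sub, abs_mul, abs_of_pos hW0, ← Finset.sum_sub_distrib]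
    have h1 : |∑ k, (nn (z ξ) k * pxe (e k) ξ - nn (z ξ) k * eval (px c ξ) (R (z ξ) k))| ≤
        s * (1 / 2 ^ P₀) := by
      refine (Finset.abs_sum_le_sum_abs _ _).trans ?_
      refine (Finset.sum_le_card_nsmul _ _ (1 / 2 ^ P₀) fun k _ => ?_).trans
        (by rw [hcar, nsmul_eq_mul])
      rw [← mul_sub, abs_mul]
      calc |nn (z ξ) k| * |pxe (e k) ξ - eval (px c ξ) (R (z ξ) k)| ≤ 1 * (1 / 2 ^ P₀) :=
            mul_le_mul (hnn1 _ k) (hN.posR ω hω k) (abs_nonneg _) zero_le_one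
        _ = 1 / 2 ^ P₀ := one_mul _
    have e2 : (s : ℝ) / M = 2 ^ W * (s * (1 / 2 ^ P₀)) := by
      have e4 : (2 : ℝ) ^ P₀ = M * 2 ^ W := by
        rw [hM]
        push_cast
        rw [← pow_add]
        congr 1
        omega
      rw [e4]
      field_simp
    rw [e2]
    exact mul_le_mul_of_nonneg_left h1 hW0.le
  -- the index of the cell
  have hidx : ∀ ω, B ω → ∀ i : Fin (r + 1), |((nidx Ng (nd M (zsn c r W e z nn) z gg
      (K2S.Fam.pt F ω)) i : ℤ) : ℝ)| ≤ K := by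
    intro ω hω i
    have h1 := hposi ω hω i
    set ξ := K2S.Fam.pt F ω with hξ
    set a : ℝ := zsn c r W e z nn ξ (some i) - eval (bse (zsn c r W e z nn ξ)) (gg (z ξ) i) with ha
    have e1 : nd M (zsn c r W e z nn) z gg ξ i = ⌊(M : ℝ) * a⌋ := rfl
    rw [le_div_iff₀ hM0] at h1
    have h1' : |(M : ℝ) * a| ≤ K * Ng i := by
      rw [abs_mul, abs_of_pos hM0, mul_comm]
      exact h1
    rw [abs_le] at h1'
    have h2 : nd M (zsn c r W e z nn) z gg ξ i ≤ K * Ng i := by
      rw [e1]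
      have : (⌊(M : ℝ) * a⌋ : ℝ) ≤ ((K * Ng i : ℕ) : ℝ) := by
        push_cast
        linarith [Int.floor_le ((M : ℝ) * a), h1'.2]
      exact_mod_cast this
    have h3 : -((K * Ng i : ℕ) : ℤ) ≤ nd M (zsn c r W e z nn) z gg ξ i := by
      rw [e1, Int.le_floor]
      push_cast
      linarith [h1'.1]
    have hNi : (0 : ℤ) < Ng i := by exact_mod_cast hN1 i
    have h4 : nidx Ng (nd M (zsn c r W e z nn) z gg ξ) i ≤ K := by
      unfold nidx
      exact Int.ediv_le_of_le_mul hNi h2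
    have h5 : -(K : ℤ) ≤ nidx Ng (nd M (zsn c r W e z nn) z gg ξ) i := by
      unfold nidx
      rw [Int.le_ediv_iff_mul_le hNi]
      push_cast at h3
      linarith
    rw [abs_le]
    constructor
    · exact_mod_cast h5
    · exact_mod_cast h4
  -- from the box in the scaled variables to the box in the variables of the label
  have hbox : ∀ v : V, ∀ y : Fin (r + 1) → ℝ, (∀ i : Fin (r + 1), |y i - eval y (gg v i)| ≤
      2 * (K * Ng i / M)) → CLO.Bxr 2 (wid W g) (P v) (r + 1) (unF (r + 1) W y) := by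
    intro v y hy i hi
    have h1 := hy ⟨i, hi⟩
    rw [hgg] at h1
    change |_ - eval y (toF (r + 1) W (P v i))| ≤ _ at h1
    rw [eval_toF, hKN] at h1
    have e1 : y ⟨i, hi⟩ = 2 ^ W * unF (r + 1) W y i := by
      unfold unF
      rw [dif_pos hi]
      field_simp
    rw [e1, ← mul_sub, abs_mul, abs_of_pos hW0] at h1
    have e2 : (2 : ℝ) * (2 ^ W / 2 ^ wid W g i) = 2 ^ W * (2 / 2 ^ wid W g i) := by ring
    change _ ≤ 2 * (2 ^ W / 2 ^ wid W g i) at h1
    rw [e2] at h1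
    exact le_of_mul_le_mul_left h1 hW0
  have hcb : ∀ ω, B ω → ∀ y ∈ ncell M Ng (gg (z (K2S.Fam.pt F ω)))
      (nidx Ng (nd M (zsn c r W e z nn) z gg (K2S.Fam.pt F ω))), ∀ i : Fin (r + 1),
      |y i - eval y (gg (z (K2S.Fam.pt F ω)) i)| ≤ 2 * (K * Ng i / M) := by
    intro ω hω y hy i
    obtain ⟨h1, h2⟩ := hy i
    have h3 := hidx ω hω i
    rw [abs_le] at h3
    have h4 : 0 < (Ng i : ℝ) / M := div_pos (hN0 i) hM0
    have hK1' : (1 : ℝ) ≤ K := by exact_mod_cast hK1
    set b := ((nidx Ng (nd M (zsn c r W e z nn) z gg (K2S.Fam.pt F ω)) i : ℤ) : ℝ) with hb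
    have e1 : b * Ng i / M = b * (Ng i / M) := by ring
    have e2 : (K : ℝ) * Ng i / M = K * (Ng i / M) := by ring
    rw [e1] at h1 h2
    rw [e2, abs_le]
    constructor
    · nlinarith [h3.1]
    · nlinarith [h3.2]
  -- the incidences
  have hcls : ∀ ω, 0 < p ω → z (K2S.Fam.pt F ω) = z' (KSAT.slam F W ω) := fun ω hω =>
    hN.cls ω (hpB ω hω).1
  have hinc : Inc M (2 * (s + 1)) p (KSAT.slam F W) (K2S.Fam.pt F) (tdg W P₀)
      (zsn c r W e z nn) (avn c r W e z' nn) (bvn c r e z' nn) := by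
    refine ⟨hpl, ?_, ?_, ?_⟩
    · intro ω _
      exact Nat.mod_lt _ (by positivity)
    · intro ω hω o
      cases o with
      | some i =>
        have h1 := near_fam (F := F) c W P₀ hWg hgJ ω i.val
        refine h1.trans (div_le_div_of_nonneg_right (by linarith) hM0.le)
      | none =>
        change |2 ^ W * (∑ k, nn (z (K2S.Fam.pt F ω)) k * pxe (e k) (K2S.Fam.pt F ω)) -
          ((∑ k, nn (z' (KSAT.slam F W ω)) k * aval (fun _ => e k) W (KSAT.slam F W ω) 1) +
            (tdg W P₀ (K2S.Fam.pt F ω) : ℝ) / M *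
              ∑ k, nn (z' (KSAT.slam F W ω)) k * bval (fun _ => e k) (KSAT.slam F W ω) 1)| ≤ _
        rw [← hcls ω hω]
        set v := z (K2S.Fam.pt F ω) with hv
        have e1 : 2 ^ W * (∑ k, nn v k * pxe (e k) (K2S.Fam.pt F ω)) -
            ((∑ k, nn v k * aval (fun _ => e k) W (KSAT.slam F W ω) 1) +
            (tdg W P₀ (K2S.Fam.pt F ω) : ℝ) / M *
              ∑ k, nn v k * bval (fun _ => e k) (KSAT.slam F W ω) 1) =
            ∑ k, nn v k * (2 ^ W * px (fun _ => e k) (K2S.Fam.pt F ω) 1 -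
              (aval (fun _ => e k) W (KSAT.slam F W ω) 1 +
                (tdg W P₀ (K2S.Fam.pt F ω) : ℝ) / M *
                  bval (fun _ => e k) (KSAT.slam F W ω) 1)) := by
          rw [Finset.mul_sum, Finset.mul_sum, ← Finset.sum_add_distrib, ← Finset.sum_sub_distrib]
          refine Finset.sum_congr rfl fun k _ => ?_
          have : px (fun _ => e k) (K2S.Fam.pt F ω) 1 = pxe (e k) (K2S.Fam.pt F ω) := rfl
          rw [this]
          ring
        rw [e1]
        refine (Finset.abs_sum_le_sum_abs _ _).trans ?_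
        refine (Finset.sum_le_card_nsmul Finset.univ _ (2 / (M : ℝ)) fun k _ => ?_).trans ?_
        · rw [abs_mul]
          have h1 := near_fam (F := F) (fun _ => e k) W P₀ hWg hgJ ω 1
          calc |nn v k| * |2 ^ W * px (fun _ => e k) (K2S.Fam.pt F ω) 1 -
                (aval (fun _ => e k) W (KSAT.slam F W ω) 1 +
                (tdg W P₀ (K2S.Fam.pt F ω) : ℝ) / M *
                  bval (fun _ => e k) (KSAT.slam F W ω) 1)| ≤ 1 * (2 / M) :=
                mul_le_mul (hnn1 v k) h1 (abs_nonneg _) zero_le_one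
            _ = 2 / M := one_mul _
        · rw [hcar, nsmul_eq_mul, mul_div_assoc']
          refine div_le_div_of_nonneg_right (by linarith) hM0.le
    · intro ω _ o
      have hb1 : ∀ (c' : ℕ → Fin m) (i : ℕ), |bval c' (KSAT.slam F W ω) i| ≤ 1 := by
        intro c' i
        unfold bval
        split_ifs
        · rw [abs_one]
        · exact F.dir ω _
      cases o with
      | some i => exact (hb1 c i.val).trans (by linarith)
      | none =>
        change |∑ k, nn (z' (KSAT.slam F W ω)) k *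
          bval (fun _ => e k) (KSAT.slam F W ω) 1| ≤ _
        refine (Finset.abs_sum_le_sum_abs _ _).trans ?_
        refine (Finset.sum_le_card_nsmul Finset.univ _ (1 : ℝ) fun k _ => ?_).trans ?_
        · rw [abs_mul]
          calc _ ≤ (1 : ℝ) * 1 := mul_le_mul (hnn1 _ k) (hb1 _ 1) (abs_nonneg _) zero_le_one
            _ = 1 := one_mul _
        · rw [hcar, nsmul_eq_mul, mul_one]
          linarith
  -- the labels
  have hgr : ∀ ω, B ω → ∀ y ∈ ncell M Ng (gg (z (K2S.Fam.pt F ω)))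
      (nidx Ng (nd M (zsn c r W e z nn) z gg (K2S.Fam.pt F ω))), ∀ i ≤ r, ∀ l : Fin (r + 1),
      |eval y (pderiv l (toF (r + 1) W (P (z (K2S.Fam.pt F ω)) i)))| ≤ L := by
    intro ω hω y hy i hi l
    rw [eval_pderiv_toF]
    by_cases hl : l.val < i
    · exact hN.grad ω hω _ ((hbox _ y (hcb ω hω y hy)).mono (by norm_num) le_rfl) i hi l hl
    · have h1 : pderiv l.val (P (z (K2S.Fam.pt F ω)) i) = 0 :=
        pderiv_eq_zero_of_notMem_vars fun h => hl (Finset.mem_range.1 (hN.tri _ i h))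
      rw [h1, map_zero, abs_zero]
      exact hL
  have hsL : 0 ≤ (s : ℝ) * L := mul_nonneg hs0 hL
  have hgrN : ∀ ω, B ω → ∀ y ∈ ncell M Ng (gg (z (K2S.Fam.pt F ω)))
      (nidx Ng (nd M (zsn c r W e z nn) z gg (K2S.Fam.pt F ω))), ∀ l : Fin (r + 1),
      |eval y (pderiv l (gN (z (K2S.Fam.pt F ω))))| ≤ (s + 1) * L := by
    intro ω hω y hy l
    rw [hgN]
    change |eval y (pderiv l (toF (r + 1) W (cmbR (nn (z (K2S.Fam.pt F ω)))
      (R (z (K2S.Fam.pt F ω))))))| ≤ _
    rw [eval_pderiv_toF]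
    have e1 : eval (unF (r + 1) W y) (pderiv l.val (cmbR (nn (z (K2S.Fam.pt F ω)))
        (R (z (K2S.Fam.pt F ω))))) = ∑ k, nn (z (K2S.Fam.pt F ω)) k *
          eval (unF (r + 1) W y) (pderiv l.val (R (z (K2S.Fam.pt F ω)) k)) := by
      unfold cmbR
      rw [map_sum, map_sum]
      refine Finset.sum_congr rfl fun k _ => ?_
      rw [pderiv_C_mul, map_mul, eval_C]
    rw [e1]
    refine (Finset.abs_sum_le_sum_abs _ _).trans ?_
    refine (Finset.sum_le_card_nsmul _ _ L fun k _ => ?_).trans ?_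
    · rw [abs_mul]
      have h1 := hN.gradR ω hω _ ((hbox _ y (hcb ω hω y hy)).mono (by norm_num) le_rfl) k l.val
        (Nat.lt_succ_iff.1 l.2)
      calc _ ≤ 1 * L := mul_le_mul (hnn1 _ k) h1 (abs_nonneg _) zero_le_one
        _ = L := one_mul _
    · rw [hcar, nsmul_eq_mul]
      linarith
  have hLs : L ≤ (s + 1) * L := by linarith
  have hlabD : LabD K₀ (2 * (s + 1)) ((s + 1) * L) M K p (KSAT.slam F W) (K2S.Fam.pt F)
      (zsn c r W e z nn) z z' gg gN Ng := by
    refine ⟨hN1, ?_, hcls, fun ω _ => htri _, fun ω _ i => hdeg _ i, fun ω _ => hdegN _, ?_, ?_,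
      ?_, ?_⟩
    · intro i
      refine Nat.pow_le_pow_right (by norm_num) ?_
      have := hWw i i.2
      have := hkw i
      omega
    · intro ω hω i
      have h1 := hposi ω (hpB ω hω).1 i
      have h2 : 0 ≤ (K : ℝ) * Ng i / M := by
        have := hN0 i
        positivity
      nlinarith
    · intro ω hω
      exact (hposN ω (hpB ω hω).1).trans (div_le_div_of_nonneg_right (by linarith) hM0.le)
    · intro ω hω y hy i l
      exact (hgr ω (hpB ω hω).1 y hy i (Nat.lt_succ_iff.1 i.2) l).trans hLs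
    · intro ω hω y hy l
      exact hgrN ω (hpB ω hω).1 y hy l
  have hlog2 : 0 < Real.log 2 := Real.log_pos (by norm_num)
  have hlL : 0 ≤ Real.log (1 + L) := Real.log_nonneg (by linarith)
  have hN' : (0 : ℝ) ≤ N := Nat.cast_nonneg N
  have hNe : 0 ≤ (N : ℝ) * (e₁ + 1) := by positivity
  rcases Nat.eq_zero_or_pos kap with hk0 | hk0
  · rw [hk0, Nat.cast_zero, zero_mul]
    positivity
  have hbad : ∀ ω, 0 < p ω → BadL D ((K : ℝ) ^ (j + 1) / M) (gN (z (K2S.Fam.pt F ω)))
      (ncell M Ng (gg (z (K2S.Fam.pt F ω)))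
        (nidx Ng (nd M (zsn c r W e z nn) z gg (K2S.Fam.pt F ω)))) := by
    intro ω hω
    by_contra hnb
    refine hnnb ω hω ?_
    obtain ⟨hBω, hpω⟩ := hpB ω hω
    set ξ := K2S.Fam.pt F ω with hξ
    set v := z ξ with hv
    unfold BadL at hnb
    push Not at hnb
    obtain ⟨Q, hQ0, hQD, hQ⟩ := hnb
    set bi := nidx Ng (nd M (zsn c r W e z nn) z gg ξ) with hbi
    -- the box
    have hw : ∀ i, 0 < nwid M Ng i := fun i => div_pos (hN0 i) hM0
    have hK1' : (1 : ℝ) ≤ K := by exact_mod_cast hK1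
    have hρ0 : (0 : ℝ) < 2 ^ ((c₁ + E + j + 1) * kap) / M := by positivity
    obtain ⟨Q', hQ'D, y₀, hy₀, hy₀p, hy₀m⟩ := hjts (gg v) (gN v) (ncor M Ng bi) (nwid M Ng)
      (fun i => -(2 * (K * Ng i / M))) (fun i => 4 * (K * Ng i / M)) (4 * K)
      ((K : ℝ) ^ (j + 1) / M) (2 ^ ((c₁ + E + j + 1) * kap) / M) Q (htri v) (hdeg v) (hdegN v) hw
      (fun i => by
        have := hN0 i
        positivity)
      (fun i => by
        have h3 := hidx ω hBω i
        rw [abs_le] at h3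
        have h4 := hw i
        unfold ncor
        unfold nwid at h4
        have e1 : (bi i : ℝ) * Ng i / M = bi i * (Ng i / M) := by ring
        have e2 : (K : ℝ) * Ng i / M = K * (Ng i / M) := by ring
        rw [e1, e2]
        nlinarith [h3.1])
      (fun i => by
        have h3 := hidx ω hBω i
        rw [abs_le] at h3
        have h4 := hw i
        unfold ncor
        unfold nwid at h4 ⊢
        have e1 : (bi i : ℝ) * Ng i / M = bi i * (Ng i / M) := by ring
        have e2 : (K : ℝ) * Ng i / M = K * (Ng i / M) := by ring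
        rw [e1, e2]
        nlinarith [h3.2])
      (fun i => by
        unfold nwid
        exact le_of_eq (by ring)) (by linarith) hρ0 (by
        -- the size of the unit
        have e1 : (3 : ℝ) * (4 * K) = 12 * K := by ring
        have e2 : (2 : ℝ) ^ ((c₁ + E + j + 1) * kap) = 2 ^ (c₁ * kap) * (K : ℝ) ^ (E + (j + 1)) := by
          rw [hK]
          push_cast
          rw [← pow_mul, ← pow_add]
          congr 1
          ring
        rw [e1, mul_pow, e2]
        have h5 : K₁ * 12 ^ E ≤ 2 ^ (c₁ * kap) :=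
          hc₁.trans (pow_le_pow_right₀ (by norm_num) (Nat.le_mul_of_pos_right c₁ hk0))
        calc K₁ * (12 ^ E * (K : ℝ) ^ E) * ((K : ℝ) ^ (j + 1) / M) =
              K₁ * 12 ^ E * ((K : ℝ) ^ (E + (j + 1)) / M) := by rw [pow_add]; ring
          _ ≤ 2 ^ (c₁ * kap) * ((K : ℝ) ^ (E + (j + 1)) / M) :=
              mul_le_mul_of_nonneg_right h5 (by positivity)
          _ = _ := by ring) (by positivity) hQ0 hQD (by
        intro y' hy'
        exact hQ y' hy')
    -- back to the variables of the label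
    have hbx : ∀ y, y ∈ bx (gg v) (fun i => -(2 * (K * Ng i / M)))
        (fun i => 4 * (K * Ng i / M)) ↔ ∀ i, |y i - eval y (gg v i)| ≤ 2 * (K * Ng i / M) := by
      intro y
      constructor
      · intro h i
        obtain ⟨h1, h2⟩ := h i
        rw [abs_le]
        constructor <;> linarith
      · intro h i
        have h1 := h i
        rw [abs_le] at h1
        constructor <;> linarith [h1.1, h1.2]
    have hlf : ∀ (b : ℕ → ℝ) (y : Fin (r + 1) → ℝ), (∀ i : Fin (r + 1), y i = 2 ^ W * b i) →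
        ∀ T : MvPolynomial (Option (Fin (r + 1))) ℝ,
        eval (lfn r (nn v) (R v) b) (bind₁ (bkv (r + 1) W) T) = eval (lpt (gN v) y) T := by
      intro b y hby T
      refine eval_bkv T ?_ ?_
      · change eval y (toF (r + 1) W (cmbR (nn v) (R v))) = _
        rw [eval_toF, ← eval_eq_unF (hvarR v) hby]
        unfold lfn
        rw [Function.update_self]
      · intro i
        change y i = _
        rw [hby i]
        unfold lfn
        rw [Function.update_of_ne i.2.ne]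
    have hun : ∀ y : Fin (r + 1) → ℝ, ∀ i : Fin (r + 1), y i = 2 ^ W * unF (r + 1) W y i := by
      intro y i
      unfold unF
      rw [dif_pos i.2]
      field_simp
    refine ⟨bind₁ (bkv (r + 1) W) Q', ?_, ?_, unF (r + 1) W y₀,
      hbox v y₀ ((hbx y₀).1 hy₀), ?_, ?_⟩
    · refine (KS3.SML.totalDegree_bind_le _ 1 deg_bkv Q').trans ?_
      rw [one_mul]
      exact hQ'D
    · refine (vars_bind₁ _ _).trans ?_
      rw [Finset.biUnion_subset]
      exact fun o _ => vars_bkv o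
    · rw [pderiv_bkv, map_mul, eval_C, hlf _ y₀ (hun y₀), abs_mul, abs_of_pos hW0]
      positivity
    · intro b hb k
      rw [iter_bkv, pderiv_bkv, map_mul, map_mul, eval_C, eval_C,
        hlf _ y₀ (hun y₀), hlf b (fun i => 2 ^ W * b i) (fun i => rfl), abs_mul, abs_mul,
        abs_of_pos hW0, abs_of_pos (by positivity : (0 : ℝ) < ((2 : ℝ) ^ W) ^ k)]
      have h1 := hy₀m (fun i => 2 ^ W * b i) ((hbx _).2 (by
        intro i
        have h2 := hb i i.2
        have h3 : eval (fun i : Fin (r + 1) => 2 ^ W * b i) (gg v i) = 2 ^ W * eval b (P v i) := by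
          rw [hgg]
          change eval _ (toF (r + 1) W (P v i)) = _
          rw [eval_toF, ← eval_eq_unF ((hN.tri v i).trans (Finset.range_mono i.2.le))
            (fun _ => rfl)]
        rw [h3, ← mul_sub, abs_mul, abs_of_pos hW0, hKN]
        calc 2 ^ W * |b i - eval b (P v i)| ≤ 2 ^ W * (2 / 2 ^ wid W g i) :=
              mul_le_mul_of_nonneg_left h2 hW0.le
          _ = 2 * (2 ^ W / 2 ^ wid W g i) := by ring)) k
      have e1 : (2 : ℝ) ^ ((c₁ + E + j + 1) * kap) / 2 ^ P₀ =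
          2 ^ ((c₁ + E + j + 1) * kap) / M / 2 ^ W := by
        have e2 : (2 : ℝ) ^ P₀ = M * 2 ^ W := by
          rw [hM]
          push_cast
          rw [← pow_add]
          congr 1
          omega
        rw [e2, div_div]
      rw [e1]
      set ρ : ℝ := 2 ^ ((c₁ + E + j + 1) * kap) / M with hρ
      have e3 : (ρ / 2 ^ W) ^ k * (((2 : ℝ) ^ W) ^ k *
          |eval (lpt (gN v) fun i => 2 ^ W * b i) (dnn k Q')|) =
          ρ ^ k * |eval (lpt (gN v) fun i => 2 ^ W * b i) (dnn k Q')| := by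
        rw [div_pow]
        field_simp
      have e4 : ρ / 2 ^ W * (2 ^ W * |eval (lpt (gN v) y₀) (pderiv none Q')|) =
          ρ * |eval (lpt (gN v) y₀) (pderiv none Q')| := by
        field_simp
      rw [e3, e4]
      exact h1
  have key := hlab (2 * (s + 1)) ((s + 1) * L) F.Ω (LnT F) (PtT F) S V p (KSAT.slam F W)
    (K2S.Fam.pt F) (tdg W P₀) (zsn c r W e z nn) (avn c r W e z' nn) (bvn c r e z' nn) z z' gg gN
    Ng K M N q o o' l y e₁ e₂ e₄ e₄' (by linarith) (by positivity) hM1 hK1 hinc hlabD hchn (by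
      intro i
      simp only [hK, hNg]
      rw [← pow_mul]
      refine Nat.pow_le_pow_right (by norm_num) ?_
      have h1 := hwk i i.2
      have h2 : kap * (j + 1) + kap = (j + 2) * kap := by ring
      omega) hbad he₁0 he₂0 he₄0 he₄'0 (by
      have e1 : Real.log (M : ℝ) = ((P₀ : ℝ) - W) * Real.log 2 := by
        rw [hM]
        push_cast
        rw [Real.log_pow, Nat.cast_sub hWg]
      rw [e1]
      exact he₁) (by
      have e1 : (∑ i, Real.log ((K * Ng i : ℕ) : ℝ)) =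
          ∑ i : Fin (r + 1), ((P₀ : ℝ) - wid W g i) * Real.log 2 := by
        refine Finset.sum_congr rfl fun i _ => ?_
        rw [hKNn i]
        push_cast
        have h1 := hkw i
        rw [Real.log_pow, Nat.cast_sub (by omega)]
      rw [e1]
      simp only [hnd]
      exact he₂) (by
      simp only [hnd]
      exact he₄) (by
      simp only [hnd]
      exact he₄')
  have e1 : Real.log (K : ℝ) = kap * Real.log 2 := by
    rw [hK]
    push_cast
    rw [Real.log_pow]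
  rw [e1] at key
  refine key.trans ?_
  have hl1 : Real.log (1 + (s + 1) * L) ≤ Real.log (2 * (s + 1)) + Real.log (1 + L) := by
    rw [← Real.log_mul (by positivity) (by positivity)]
    refine Real.log_le_log (by positivity) ?_
    nlinarith
  set U : ℝ := e₂ + e₄ + e₄' + N * (e₁ + 1) + Real.log (1 + L) + 1 with hU
  have hU1 : 1 ≤ U := by rw [hU]; linarith
  calc C * (e₂ + e₄ + e₄' + N * (e₁ + 1) + Real.log (2 * (s + 1)) +
        Real.log (1 + (s + 1) * L) + 1) ≤
        C * ((2 * Real.log (2 * (s + 1)) + 1) * U) := by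
        refine mul_le_mul_of_nonneg_left ?_ hC
        have h1 : Real.log (2 * (s + 1)) * 1 ≤ Real.log (2 * (s + 1)) * U :=
          mul_le_mul_of_nonneg_left hU1 hls
        rw [hU] at h1 ⊢
        nlinarith
    _ = C * (2 * Real.log (2 * (s + 1)) + 1) * U := by ring

end Pool.M3F
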