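import Pool.Agent.H37.M3F.Lab2

/-!
# From a cell to the natural box: growth, and the choice of the derivative

If on a cell a polynomial `Q` is small on the leaf compared with its derivative in the passive
direction, then on a larger natural box a derivative of `Q` has the same property together with
bounds for all its further derivatives.
-/

set_option autoImplicit false

namespace Pool.M3F

open Finset Real MvPolynomial
open Pool.KAL Pool.KS3

variable {d : ℕ}

/-- The natural box. -/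
def bx (g : Fin d → MvPolynomial (Fin d) ℝ) (c w : Fin d → ℝ) : Set (Fin d → ℝ) :=
  {y | ∀ i, c i ≤ y i - eval y (g i) ∧ y i - eval y (g i) ≤ c i + w i}

lemma chi_mem_bx {g : Fin d → MvPolynomial (Fin d) ℝ} (hg : TriP g) (c w : Fin d → ℝ)
    (hw : ∀ i, 0 < w i) {u : Fin d → ℝ} (hu : u ∈ ucube d) : cpt (chi g c w) u ∈ bx g c w := by
  intro i
  have h1 := eval_chi g hg c w u i
  obtain ⟨h3, h4⟩ := hu i
  have h5 := hw i
  have h6 : 0 ≤ w i * u i := mul_nonneg h5.le h3
  have h7 : w i * u i ≤ w i * 1 := mul_le_mul_of_nonneg_left h4 h5.le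
  constructor <;> linarith

lemma rel_mem {g : Fin d → MvPolynomial (Fin d) ℝ} (c w : Fin d → ℝ)
    (hw : ∀ i, 0 < w i) {y : Fin d → ℝ} (hy : y ∈ bx g c w) :
    (fun i => (y i - eval y (g i) - c i) / w i) ∈ ucube d := by
  intro i
  obtain ⟨h1, h2⟩ := hy i
  constructor
  · exact div_nonneg (by linarith) (hw i).le
  · rw [div_le_one (hw i)]
    linarith

/-- The polynomials of the leaf. -/
noncomputable def lfp (gN : MvPolynomial (Fin d) ℝ) : Option (Fin d) → MvPolynomial (Fin d) ℝ :=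
  fun o => o.elim gN X

/-- The chart of the leaf. -/
noncomputable def lch (g : Fin d → MvPolynomial (Fin d) ℝ) (gN : MvPolynomial (Fin d) ℝ)
    (c w : Fin d → ℝ) : Option (Fin d) → MvPolynomial (Fin d) ℝ :=
  fun o => bind₁ (chi g c w) (lfp gN o)

lemma cpt_lch (g : Fin d → MvPolynomial (Fin d) ℝ) (gN : MvPolynomial (Fin d) ℝ)
    (c w : Fin d → ℝ) (u : Fin d → ℝ) :
    cpt (lch g gN c w) u = lpt gN (cpt (chi g c w) u) := by
  funext o
  change eval u (bind₁ (chi g c w) (lfp gN o)) = _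
  rw [eval_bind]
  cases o with
  | none => rfl
  | some i =>
    change eval (cpt (chi g c w) u) (X i) = _
    rw [eval_X]
    rfl

lemma deg_lch (g : Fin d → MvPolynomial (Fin d) ℝ) (gN : MvPolynomial (Fin d) ℝ)
    (c w : Fin d → ℝ) (K : ℕ) (hK : ∀ i, (g i).totalDegree ≤ K) (hN : gN.totalDegree ≤ K)
    (o : Option (Fin d)) : (lch g gN c w o).totalDegree ≤ (K + 1) ^ (d + 1) := by
  have h1 : ∀ i, (chi g c w i).totalDegree ≤ (K + 1) ^ d := deg_chiN g c w K hK d
  cases o with
  | none =>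
    change (bind₁ (chi g c w) gN).totalDegree ≤ _
    refine (SML.totalDegree_bind_le _ _ h1 _).trans ?_
    calc (K + 1) ^ d * gN.totalDegree ≤ (K + 1) ^ d * (K + 1) :=
          Nat.mul_le_mul_left _ (hN.trans (Nat.le_succ K))
      _ = (K + 1) ^ (d + 1) := (pow_succ _ _).symm
  | some i =>
    change (bind₁ (chi g c w) (X i)).totalDegree ≤ _
    rw [bind₁_X_right]
    exact (h1 i).trans (Nat.pow_le_pow_right (Nat.succ_pos K) (Nat.le_succ d))

/-- Growth away from the unit cube. -/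
lemma grow (d E : ℕ) : ∃ K₁ : ℝ, 1 ≤ K₁ ∧ ∀ (F : MvPolynomial (Fin d) ℝ) (A : ℝ)
    (u : Fin d → ℝ), F.totalDegree ≤ E → 1 ≤ A → (∀ i, |u i| ≤ A) →
      |eval u F| ≤ K₁ * (3 * A) ^ E * cs (fun _ => 0) 1 F := by
  obtain ⟨K₁, hK₁, hcen⟩ := SML.psi_center_le d E
  refine ⟨K₁, hK₁, ?_⟩
  intro F A u hF hA hu
  have h1 := hcen F (fun _ => 0) 1 zero_le_one hF
  set c0 : Fin d → ℝ := fun i => 0 + 1 / 2 with hc0
  have h2 := abs_eval_le_Psi_of_near F (1 / 2 * (2 * A + 1)) (by linarith) c0 u (by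
    intro i
    have h3 := hu i
    rw [abs_le] at h3 ⊢
    simp only [hc0]
    constructor <;> linarith [h3.1, h3.2])
  have h3 := Psi_radius_le F (1 / 2) (2 * A + 1) (by linarith) c0
  have h4 : (2 * A + 1) ^ F.totalDegree ≤ (3 * A) ^ E :=
    (pow_le_pow_left₀ (by linarith) (by linarith) _).trans
      (pow_le_pow_right₀ (by linarith) hF)
  have h0 := Psi_nonneg F (1 / 2) c0
  have hcs := SML.cs_nonneg (fun _ : Fin d => (0 : ℝ)) 1 F
  calc |eval u F| ≤ (2 * A + 1) ^ F.totalDegree * Psi F (1 / 2) c0 := h2.trans h3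
    _ ≤ (3 * A) ^ E * Psi F (1 / 2) c0 := mul_le_mul_of_nonneg_right h4 h0
    _ ≤ (3 * A) ^ E * (K₁ * cs (fun _ => 0) 1 F) := mul_le_mul_of_nonneg_left h1 (by positivity)
    _ = K₁ * (3 * A) ^ E * cs (fun _ => 0) 1 F := by ring

/-- Derivative of a polynomial along a curve. -/
lemma der_aev {σ : Type} [Fintype σ] (P : MvPolynomial σ ℝ) (f : σ → Polynomial ℝ) :
    Polynomial.derivative (aeval f P : Polynomial ℝ) =
      ∑ i, (aeval f (pderiv i P) : Polynomial ℝ) * Polynomial.derivative (f i) := by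
  classical
  induction P using MvPolynomial.induction_on with
  | C a => simp
  | add p q hp hq =>
    simp only [map_add, hp, hq, add_mul, Finset.sum_add_distrib]
  | mul_X p k hp =>
    simp only [map_mul, MvPolynomial.aeval_X, Polynomial.derivative_mul, hp,
      Derivation.leibniz, MvPolynomial.pderiv_X, smul_eq_mul, map_add, add_mul,
      Finset.sum_add_distrib, Finset.sum_mul]
    rw [add_comm]
    congr 1
    · rw [Finset.sum_eq_single k]
      · simp
      · intro b _ hb
        rw [Pi.single_eq_of_ne (Ne.symm hb)]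
        simp
      · intro h
        exact absurd (Finset.mem_univ k) h
    · refine Finset.sum_congr rfl fun i _ => ?_
      ring

/-- A polynomial without derivative in the passive direction. -/
lemma eval_eq_of_none {R : MvPolynomial (Option (Fin d)) ℝ} (h : pderiv none R = 0)
    {x y : Option (Fin d) → ℝ} (hxy : ∀ i, x (some i) = y (some i)) : eval x R = eval y R := by
  set f : Option (Fin d) → Polynomial ℝ := fun l =>
    Polynomial.C (x l) + Polynomial.X * Polynomial.C (y l - x l) with hf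
  have hev : ∀ (P : MvPolynomial (Option (Fin d)) ℝ) (t : ℝ),
      (aeval f P : Polynomial ℝ).eval t = eval (fun l => x l + t * (y l - x l)) P := by
    intro P t
    induction P using MvPolynomial.induction_on with
    | C a => simp
    | add p q hp hq => simp only [map_add, Polynomial.eval_add, hp, hq]
    | mul_X p k hp =>
      rw [map_mul, map_mul, Polynomial.eval_mul, hp]
      simp [hf]
  have hder : Polynomial.derivative (aeval f R : Polynomial ℝ) = 0 := by
    rw [der_aev]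
    refine Finset.sum_eq_zero fun l _ => ?_
    cases l with
    | none => rw [h, map_zero, zero_mul]
    | some i =>
      have h1 : y (some i) - x (some i) = 0 := by rw [hxy i, sub_self]
      have h2 : f (some i) = Polynomial.C (x (some i)) := by
        simp only [hf, h1, map_zero, mul_zero, add_zero]
      rw [h2, Polynomial.derivative_C, mul_zero]
  have hc := Polynomial.derivative_eq_zero.1 hder
  rw [Polynomial.natDegree_eq_zero] at hc
  obtain ⟨r, hr⟩ := hc
  have e0 : eval x R = r := by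
    have := hev R 0
    rw [← hr, Polynomial.eval_C] at this
    rw [this]
    congr 2
    funext l
    ring
  have e1 : eval y R = r := by
    have := hev R 1
    rw [← hr, Polynomial.eval_C] at this
    rw [this]
    congr 2
    funext l
    ring
  rw [e0, e1]

/-- The iterated derivatives in the passive direction. -/
noncomputable def dnn (k : ℕ) (Q : MvPolynomial (Option (Fin d)) ℝ) :
    MvPolynomial (Option (Fin d)) ℝ := (fun R => pderiv none R)^[k] Q

lemma dnn_zero (Q : MvPolynomial (Option (Fin d)) ℝ) : dnn 0 Q = Q := rfl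

lemma dnn_succ (k : ℕ) (Q : MvPolynomial (Option (Fin d)) ℝ) :
    dnn (k + 1) Q = pderiv none (dnn k Q) := by
  unfold dnn
  rw [Function.iterate_succ_apply']

lemma dnn_add (k l : ℕ) (Q : MvPolynomial (Option (Fin d)) ℝ) :
    dnn k (dnn l Q) = dnn (k + l) Q := by
  unfold dnn
  rw [Function.iterate_add_apply]

lemma deg_dnn (k : ℕ) (Q : MvPolynomial (Option (Fin d)) ℝ) (D : ℕ) (hQ : Q.totalDegree ≤ D) :
    (dnn k Q).totalDegree ≤ D - k := by
  induction k with
  | zero => exact hQ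
  | succ k ih =>
    rw [dnn_succ]
    by_cases h : k < D
    · refine SML.totalDegree_pderiv_le none _ (D - (k + 1)) ?_
      omega
    · have h1 : (dnn k Q).totalDegree = 0 := by omega
      rw [totalDegree_eq_zero_iff_eq_C] at h1
      rw [h1, pderiv_C, totalDegree_zero]
      exact Nat.zero_le _

lemma dnn_eq_zero (Q : MvPolynomial (Option (Fin d)) ℝ) (D k : ℕ) (hQ : Q.totalDegree ≤ D)
    (hk : D < k) : dnn k Q = 0 := by
  obtain ⟨l, rfl⟩ : ∃ l, k = l + (D + 1) := ⟨k - (D + 1), by omega⟩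
  have h1 : dnn (D + 1) Q = 0 := by
    rw [dnn_succ]
    have h2 : (dnn D Q).totalDegree = 0 := by
      have := deg_dnn D Q D hQ
      omega
    rw [totalDegree_eq_zero_iff_eq_C] at h2
    rw [h2, pderiv_C]
  rw [← dnn_add, h1]
  clear hk
  unfold dnn
  induction l with
  | zero => rfl
  | succ l ih => rw [Function.iterate_succ_apply', ih, map_zero]

/-- **The choice of the derivative.** -/
theorem jts (d D K₀ : ℕ) : ∃ K₁ : ℝ, 1 ≤ K₁ ∧
    ∀ (g : Fin d → MvPolynomial (Fin d) ℝ) (gN : MvPolynomial (Fin d) ℝ) (c w c2 w2 : Fin d → ℝ)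
      (A η ρ : ℝ) (Q : MvPolynomial (Option (Fin d)) ℝ),
      TriP g → (∀ i, (g i).totalDegree ≤ K₀) → gN.totalDegree ≤ K₀ → (∀ i, 0 < w i) →
      (∀ i, 0 < w2 i) → (∀ i, c2 i ≤ c i) → (∀ i, c i + w i ≤ c2 i + w2 i) →
      (∀ i, w2 i ≤ A * w i) → 1 ≤ A → 0 < ρ →
      K₁ * (3 * A) ^ ((K₀ + 1) ^ (d + 1) * D) * η ≤ ρ → 0 ≤ η → Q ≠ 0 → Q.totalDegree ≤ D →
      (∀ y' ∈ bx g c w, ∃ y ∈ bx g c w,
        |eval (lpt gN y') Q| ≤ η * |eval (lpt gN y) (pderiv none Q)|) →
      ∃ Q' : MvPolynomial (Option (Fin d)) ℝ, Q'.totalDegree ≤ D ∧ ∃ y₀ ∈ bx g c2 w2,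
        0 < |eval (lpt gN y₀) (pderiv none Q')| ∧ ∀ y ∈ bx g c2 w2, ∀ k,
          ρ ^ k * |eval (lpt gN y) (dnn k Q')| ≤ ρ * |eval (lpt gN y₀) (pderiv none Q')| := by
  classical
  set E : ℕ := (K₀ + 1) ^ (d + 1) * D with hE
  obtain ⟨K₁, hK₁, hgr⟩ := grow d E
  refine ⟨K₁, hK₁, ?_⟩
  intro g gN c w c2 w2 A η ρ Q hg hgd hgN hw hw2 hcc hcw hA hA1 hρ hρ1 hη hQ0 hQD hQ
  set Φ : Option (Fin d) → MvPolynomial (Fin d) ℝ := lch g gN c2 w2 with hΦ
  have hdb : ∀ (c w : Fin d → ℝ) (R : MvPolynomial (Option (Fin d)) ℝ), R.totalDegree ≤ D →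
      (bind₁ (lch g gN c w) R).totalDegree ≤ E := fun c w R hR =>
    (SML.totalDegree_bind_le _ _ (deg_lch g gN c w K₀ hgd hgN) R).trans
      (Nat.mul_le_mul_left _ hR)
  -- the suprema over the box
  have hle : ∀ R : MvPolynomial (Option (Fin d)) ℝ, ∀ y ∈ bx g c2 w2,
      |eval (lpt gN y) R| ≤ csC Φ R := by
    intro R y hy
    have h1 := le_csC Φ R (rel_mem c2 w2 hw2 hy)
    rw [hΦ, cpt_lch, chi_onto g hg c2 w2 hw2 y] at h1
    exact h1
  have hatt : ∀ R : MvPolynomial (Option (Fin d)) ℝ, ∃ y ∈ bx g c2 w2,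
      |eval (lpt gN y) R| = csC Φ R := by
    intro R
    obtain ⟨u, hu, hu'⟩ := cs_attained (fun _ : Fin d => (0 : ℝ)) 1 zero_le_one (bind₁ Φ R)
    have huc : u ∈ ucube d := fun i => ⟨(hu i).1, by
      have := (hu i).2
      linarith⟩
    refine ⟨_, chi_mem_bx hg c2 w2 hw2 huc, ?_⟩
    rw [eval_bind, hΦ, cpt_lch] at hu'
    exact hu'
  -- the inequality on the box
  have ha0 : csC Φ Q ≤ ρ * csC Φ (pderiv none Q) := by
    obtain ⟨y, hy, hy'⟩ := hatt Q
    rw [← hy']
    set u : Fin d → ℝ := fun i => (y i - eval y (g i) - c i) / w i with hu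
    have h1 : cpt (lch g gN c w) u = lpt gN y := by
      rw [cpt_lch, hu, chi_onto g hg c w hw y]
    have h2 : ∀ i, |u i| ≤ A := by
      intro i
      obtain ⟨h3, h4⟩ := hy i
      have h5 := hw i
      have h6 := hcc i
      have h7 := hcw i
      have h8 := hA i
      simp only [hu]
      rw [abs_div, abs_of_pos h5, div_le_iff₀ h5, abs_le]
      constructor <;> linarith
    have h3 := hgr (bind₁ (lch g gN c w) Q) A u (hdb c w Q hQD) hA1 h2
    rw [eval_bind, h1] at h3
    have h4 : cs (fun _ : Fin d => (0 : ℝ)) 1 (bind₁ (lch g gN c w) Q) ≤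
        η * csC Φ (pderiv none Q) := by
      refine SML.cs_le _ (mul_nonneg hη (csC_nonneg _ _)) ?_
      intro v hv
      have hvc : v ∈ ucube d := fun i => ⟨(hv i).1, by
        have := (hv i).2
        linarith⟩
      obtain ⟨y₁, hy₁, h5⟩ := hQ _ (chi_mem_bx hg c w hw hvc)
      rw [eval_bind, cpt_lch]
      refine h5.trans (mul_le_mul_of_nonneg_left (hle _ _ ?_) hη)
      intro i
      obtain ⟨h6, h7⟩ := hy₁ i
      have h8 := hcc i
      have h9 := hcw i
      constructor <;> linarith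
    have hpos : 0 ≤ K₁ * (3 * A) ^ E := by positivity
    calc |eval (lpt gN y) Q| ≤ K₁ * (3 * A) ^ E * (η * csC Φ (pderiv none Q)) :=
          h3.trans (mul_le_mul_of_nonneg_left h4 hpos)
      _ = K₁ * (3 * A) ^ E * η * csC Φ (pderiv none Q) := by ring
      _ ≤ ρ * csC Φ (pderiv none Q) := mul_le_mul_of_nonneg_right hρ1 (csC_nonneg _ _)
  -- the choice
  set a : ℕ → ℝ := fun k => csC Φ (dnn k Q) with ha
  have hann : ∀ k, 0 ≤ a k := fun k => csC_nonneg _ _
  have haD : ∀ k, D < k → a k = 0 := by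
    intro k hk
    simp only [ha]
    rw [dnn_eq_zero Q D k hQD hk]
    refine le_antisymm (csC_le _ _ le_rfl fun u _ => ?_) (csC_nonneg _ _)
    rw [map_zero, abs_zero]
  have ha01 : a 0 ≤ ρ * a 1 := ha0
  obtain ⟨ks, hks, hmax⟩ := Finset.exists_max_image (Finset.Icc 1 (D + 1)) (fun k => ρ ^ k * a k)
    ⟨1, Finset.mem_Icc.2 ⟨le_rfl, by omega⟩⟩
  rw [Finset.mem_Icc] at hks
  have hmax' : ∀ k, 1 ≤ k → ρ ^ k * a k ≤ ρ ^ ks * a ks := by
    intro k hk
    by_cases hkD : k ≤ D + 1
    · exact hmax k (Finset.mem_Icc.2 ⟨hk, hkD⟩)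
    · rw [haD k (by omega), mul_zero]
      exact mul_nonneg (by positivity) (hann ks)
  have hfin : ∀ k, ρ ^ k * a (k + (ks - 1)) ≤ ρ * a ks := by
    intro k
    by_cases hk : 1 ≤ k + (ks - 1)
    · have h1 := hmax' _ hk
      have h2 : ρ ^ (k + (ks - 1)) * a (k + (ks - 1)) =
          ρ ^ (ks - 1) * (ρ ^ k * a (k + (ks - 1))) := by rw [pow_add]; ring
      have h3 : ρ ^ ks * a ks = ρ ^ (ks - 1) * (ρ * a ks) := by
        rw [← mul_assoc, ← pow_succ, Nat.sub_add_cancel hks.1]
      rw [h2, h3] at h1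
      exact le_of_mul_le_mul_left h1 (by positivity)
    · have hk0 : k = 0 := by omega
      have hks1 : ks = 1 := by omega
      subst hk0
      subst hks1
      rw [pow_zero, one_mul]
      exact ha01
  have hpos : 0 < a ks := by
    rcases (hann ks).eq_or_lt with h0 | h0
    swap
    · exact h0
    exfalso
    have hall : ∀ k, a k = 0 := by
      intro k
      rcases Nat.eq_zero_or_pos k with hk | hk
      · subst hk
        have h1 := hmax' 1 le_rfl
        rw [← h0, mul_zero, pow_one] at h1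
        exact le_antisymm (ha01.trans h1) (hann 0)
      · have h1 := hmax' k hk
        rw [← h0, mul_zero] at h1
        have h2 : 0 < ρ ^ k := by positivity
        nlinarith [hann k]
    -- the last derivative
    have hex : ∃ k, dnn k Q = 0 := ⟨D + 1, dnn_eq_zero Q D (D + 1) hQD (Nat.lt_succ_self D)⟩
    set k1 := Nat.find hex with hk1
    have hk1s : dnn k1 Q = 0 := Nat.find_spec hex
    have hk10 : k1 ≠ 0 := by
      intro h
      rw [h, dnn_zero] at hk1s
      exact hQ0 hk1s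
    have hR0 : dnn (k1 - 1) Q ≠ 0 := Nat.find_min hex (by omega)
    have hdR : pderiv none (dnn (k1 - 1) Q) = 0 := by
      rw [← dnn_succ, Nat.sub_add_cancel (Nat.one_le_iff_ne_zero.2 hk10)]
      exact hk1s
    have hRD : (dnn (k1 - 1) Q).totalDegree ≤ D :=
      (deg_dnn _ Q D hQD).trans (Nat.sub_le _ _)
    refine hR0 (MvPolynomial.funext fun x => ?_)
    rw [map_zero]
    set y : Fin d → ℝ := fun i => x (some i) with hy
    rw [eval_eq_of_none hdR (x := x) (y := lpt gN y) (fun i => rfl)]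
    set u : Fin d → ℝ := fun i => (y i - eval y (g i) - c2 i) / w2 i with hu
    have h1 : cpt Φ u = lpt gN y := by
      rw [hΦ, cpt_lch, hu, chi_onto g hg c2 w2 hw2 y]
    have h3 := hgr (bind₁ Φ (dnn (k1 - 1) Q)) (1 + ∑ i, |u i|) u (hdb c2 w2 _ hRD) (by
      have : 0 ≤ ∑ i, |u i| := Finset.sum_nonneg fun i _ => abs_nonneg _
      linarith) (by
      intro i
      have := Finset.single_le_sum (f := fun i => |u i|) (fun i _ => abs_nonneg _)
        (Finset.mem_univ i)
      linarith)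
    have h4 : cs (fun _ : Fin d => (0 : ℝ)) 1 (bind₁ Φ (dnn (k1 - 1) Q)) = 0 := hall (k1 - 1)
    rw [h4, mul_zero, eval_bind, h1] at h3
    exact abs_nonpos_iff.1 h3
  -- the result
  refine ⟨dnn (ks - 1) Q, (deg_dnn _ Q D hQD).trans (Nat.sub_le _ _), ?_⟩
  have hsucc : pderiv none (dnn (ks - 1) Q) = dnn ks Q := by
    rw [← dnn_succ, Nat.sub_add_cancel hks.1]
  obtain ⟨y₀, hy₀, hy₀'⟩ := hatt (dnn ks Q)
  refine ⟨y₀, hy₀, ?_, ?_⟩
  · rw [hsucc, hy₀']
    exact hpos
  · intro y hy k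
    rw [hsucc, hy₀', dnn_add]
    exact (mul_le_mul_of_nonneg_left (hle _ y hy) (by positivity)).trans (hfin k)

end Pool.M3F
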