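import Pool.Agent.H37.M3F.Lab

/-!
# Degree control in terms of labels: the theorem
-/

set_option autoImplicit false

namespace Pool.M3F

open Finset Real
open Pool.Agent.H49.Ent Pool.Agent.H32.Dense Pool.STK Pool.KAF Pool.KAL Pool.KS3

/-- The labels: `lb` is the label of the point, `lbl` the label of the line; the base coordinate
`i` is `g L i` (a polynomial in the base coordinates before `i`) up to `C₀` times `K` cells of
`Ng i` steps, the passive coordinate is `gN L` up to `C₀ / M`; the gradients are at most `Lp` on the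
cells. -/
structure LabD {d : ℕ} {Ω Λ Ξ L : Type} [Fintype Ω] (K₀ : ℕ) (C₀ Lp : ℝ) (M K : ℕ) (p : Ω → ℝ)
    (lam : Ω → Λ) (x : Ω → Ξ) (z : Ξ → Option (Fin d) → ℝ) (lb : Ξ → L) (lbl : Λ → L)
    (g : L → Fin d → MvPolynomial (Fin d) ℝ) (gN : L → MvPolynomial (Fin d) ℝ)
    (Ng : Fin d → ℕ) : Prop where
  Npos : ∀ i, 1 ≤ Ng i
  NleM : ∀ i, Ng i ≤ M
  cls : ∀ ω, 0 < p ω → lb (x ω) = lbl (lam ω)
  tri : ∀ ω, 0 < p ω → TriP (g (lb (x ω)))
  deg : ∀ ω, 0 < p ω → ∀ i, (g (lb (x ω)) i).totalDegree ≤ K₀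
  degN : ∀ ω, 0 < p ω → (gN (lb (x ω))).totalDegree ≤ K₀
  pos : ∀ ω, 0 < p ω → ∀ i, |z (x ω) (some i) -
    MvPolynomial.eval (bse (z (x ω))) (g (lb (x ω)) i)| ≤ C₀ * (K * Ng i / M)
  posN : ∀ ω, 0 < p ω → |z (x ω) none - MvPolynomial.eval (bse (z (x ω))) (gN (lb (x ω)))| ≤ C₀ / M
  grad : ∀ ω, 0 < p ω → ∀ y ∈ ncell M Ng (g (lb (x ω)))
    (nidx Ng (ndg M (g (lb (x ω))) (bse (z (x ω))))), ∀ i l,
    |MvPolynomial.eval y (MvPolynomial.pderiv l (g (lb (x ω)) i))| ≤ Lp
  gradN : ∀ ω, 0 < p ω → ∀ y ∈ ncell M Ng (g (lb (x ω)))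
    (nidx Ng (ndg M (g (lb (x ω))) (bse (z (x ω))))), ∀ l,
    |MvPolynomial.eval y (MvPolynomial.pderiv l (gN (lb (x ω))))| ≤ Lp

/-- The natural digits of a record. -/
noncomputable def nd {d : ℕ} {Ξ L : Type} (M : ℕ) (z : Ξ → Option (Fin d) → ℝ) (lb : Ξ → L)
    (g : L → Fin d → MvPolynomial (Fin d) ℝ) (ξ : Ξ) : Fin d → ℤ := ndg M (g (lb ξ)) (bse (z ξ))

/-- **Degree control in terms of labels.** -/
theorem m3f_lab (d D j K₀ : ℕ)
    (hch : (j + d).choose d < (D + d + 1).choose (d + 1))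
    (hj : 6 * d * D ≤ j) : ∃ C : ℝ, 0 ≤ C ∧
    ∀ (C₀ Lp : ℝ) (Ω Λ Ξ W L : Type) [Fintype Ω] [Fintype W] (p : Ω → ℝ) (lam : Ω → Λ)
      (x : Ω → Ξ) (T : Ξ → ℕ) (z : Ξ → Option (Fin d) → ℝ) (A B : Λ → Option (Fin d) → ℝ)
      (lb : Ξ → L) (lbl : Λ → L) (g : L → Fin d → MvPolynomial (Fin d) ℝ)
      (gN : L → MvPolynomial (Fin d) ℝ) (Ng : Fin d → ℕ) (K M N : ℕ) (q : W → ℝ)
      (o o' : ℕ → W → Ω) (l : ℕ → W → Λ) (y : ℕ → W → Ξ) (e₁ e₂ e₄ e₄' : ℝ),
      1 ≤ C₀ → 0 ≤ Lp → 1 ≤ M → 1 ≤ K → Inc M C₀ p lam x T z A B →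
      LabD K₀ C₀ Lp M K p lam x z lb lbl g gN Ng → IsChain p lam x N q o o' l y →
      (∀ i, K ^ (j + 1) ≤ Ng i) →
      (∀ ω, 0 < p ω → BadL D ((K : ℝ) ^ (j + 1) / M) (gN (lb (x ω)))
        (ncell M Ng (g (lb (x ω))) (nidx Ng (nd M z lb g (x ω))))) →
      0 ≤ e₁ → 0 ≤ e₂ → 0 ≤ e₄ → 0 ≤ e₄' →
      Real.log M - CH p (fun ω => T (x ω)) lam ≤ e₁ →
      (∑ i, Real.log ((K * Ng i : ℕ) : ℝ)) -
        CH p (fun ω => nd M z lb g (x ω)) (fun ω => lb (x ω)) ≤ e₂ →
      CH q (fun w => nd M z lb g (y N w)) (fun w => lb (y N w)) -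
        CH q (fun w => nd M z lb g (y N w)) (y 0) ≤ e₄ →
      CH q (fun w => nd M z lb g (y 0 w)) (fun w => lb (y 0 w)) -
        CH q (fun w => nd M z lb g (y 0 w)) (y N) ≤ e₄' →
      Real.log K ≤ C * (e₂ + e₄ + e₄' + N * (e₁ + 1) + Real.log C₀ + Real.log (1 + Lp) + 1) := by
  classical
  obtain ⟨C, hC, hcor⟩ := cor_tri d D j ((K₀ + 1) ^ (d + 1)) hch hj
  have hd0 : (0 : ℝ) ≤ d := Nat.cast_nonneg d
  -- the constant
  refine ⟨C * (3 * d + 2 * d * Real.log 9 + Real.log ((2 * d + 1) * (2 * (1 + d) ^ (d + 1)) ^ 2 + 1)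
    + 2 * (d + 1) + 4), ?_, ?_⟩
  · have h1 : 0 ≤ Real.log 9 := Real.log_nonneg (by norm_num)
    have h2 : 0 ≤ Real.log ((2 * (d : ℝ) + 1) * (2 * (1 + d) ^ (d + 1)) ^ 2 + 1) := by
      refine Real.log_nonneg ?_
      have : 0 ≤ (2 * (d : ℝ) + 1) * (2 * (1 + d) ^ (d + 1)) ^ 2 := by positivity
      linarith
    positivity
  intro C₀ Lp Ω Λ Ξ W L _ _ p lam x T z A B lb lbl g gN Ng K M N q o o' l y e₁ e₂ e₄ e₄' hC₀ hLp
    hM hK hinc hlab hchn hNg hbad he₁0 he₂0 he₄0 he₄'0 he₁ he₂ he₄ he₄'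
  have hp := hinc.isLaw
  have hp0 := hp.nonneg
  have hq := hchn.isLaw
  have hq0 := hq.nonneg
  have hM0 : (0 : ℝ) < M := by exact_mod_cast hM
  have hK1 : (1 : ℝ) ≤ K := by exact_mod_cast hK
  have hN0 : ∀ i, (0 : ℝ) < Ng i := fun i => by exact_mod_cast hlab.Npos i
  set a : ℝ := (1 + d * Lp) ^ (d + 1) with ha
  have hdL : 0 ≤ (d : ℝ) * Lp := by positivity
  have ha1 : 1 ≤ a := one_le_pow₀ (by linarith)
  set C₁ : ℝ := (2 * d + 1) * (2 * a) ^ 2 + C₀ with hC₁
  have hC₁0 : 1 ≤ C₁ := by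
    have : 0 ≤ (2 * (d : ℝ) + 1) * (2 * a) ^ 2 := by positivity
    linarith
  have hC₀₁ : C₀ ≤ C₁ := by
    have : 0 ≤ (2 * (d : ℝ) + 1) * (2 * a) ^ 2 := by positivity
    linarith
  have h2a : 2 * a ≤ C₁ := by
    have h1 : 2 * a ≤ (2 * a) ^ 2 := by nlinarith
    have h2 : (2 * a) ^ 2 ≤ (2 * d + 1) * (2 * a) ^ 2 := by nlinarith [sq_nonneg (2 * a)]
    linarith
  set v : Ξ → L × (Fin d → ℤ) := fun ξ => (lb ξ, nd M z lb g ξ) with hv
  set clv : L × (Fin d → ℤ) → L × (Fin d → ℤ) := fun u => (u.1, nidx Ng u.2) with hclv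
  set Yv : L × (Fin d → ℤ) → Fin d → ℕ := fun u => nrem Ng u.2 with hYv
  -- the triangular chart of a cell
  have hT : ∀ ω, 0 < p ω → Tri ((K₀ + 1) ^ (d + 1)) (2 * a) M Ng
      (fun i => MvPolynomial.bind₁ (nchi M Ng (g (lb (x ω))) (nidx Ng (nd M z lb g (x ω))))
        (g (lb (x ω)) i) + MvPolynomial.C (ncor M Ng (nidx Ng (nd M z lb g (x ω))) i))
      (nwid M Ng) (MvPolynomial.bind₁ (nchi M Ng (g (lb (x ω))) (nidx Ng (nd M z lb g (x ω))))
        (gN (lb (x ω)))) := fun ω hω =>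
    tri_nchi hM hlab.Npos hlab.NleM (hlab.tri ω hω) hLp (hlab.deg ω hω) (hlab.degN ω hω)
      (hlab.grad ω hω) (hlab.gradN ω hω)
  have hTm : ∀ ω, 0 < p ω → Tri ((K₀ + 1) ^ (d + 1)) C₁ M Ng
      (fun i => MvPolynomial.bind₁ (nchi M Ng (g (lb (x ω))) (nidx Ng (nd M z lb g (x ω))))
        (g (lb (x ω)) i) + MvPolynomial.C (ncor M Ng (nidx Ng (nd M z lb g (x ω))) i))
      (nwid M Ng) (MvPolynomial.bind₁ (nchi M Ng (g (lb (x ω))) (nidx Ng (nd M z lb g (x ω))))
        (gN (lb (x ω)))) := by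
    intro ω hω
    have h := hT ω hω
    have hNM : ∀ i, 0 ≤ (Ng i : ℝ) / M := fun i => by positivity
    exact ⟨h.pos, fun i => (h.le i).trans (mul_le_mul_of_nonneg_right h2a hM0.le), h.degG, h.degF,
      h.tri, h.w_pos, fun i => (h.w_le i).trans (mul_le_mul_of_nonneg_right h2a (hNM i)),
      fun i => (h.le_w i).trans (mul_le_mul_of_nonneg_right h2a (h.w_pos i).le),
      fun u hu i i' => (h.slope u hu i i').trans (mul_le_mul_of_nonneg_right h2a (hNM i)),
      fun u hu i => (h.slopeF u hu i).trans (mul_le_mul_of_nonneg_right h2a (hNM i))⟩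
  -- the point is in its cell
  have hcell : ∀ ω, 0 < p ω → ∀ i, gpos Ng (Yv (v (x ω))) i ≤
      rpos M Ng (g (lb (x ω))) (nidx Ng (nd M z lb g (x ω))) (bse (z (x ω))) i ∧
      rpos M Ng (g (lb (x ω))) (nidx Ng (nd M z lb g (x ω))) (bse (z (x ω))) i ≤
        gpos Ng (Yv (v (x ω))) i + 1 / Ng i ∧
      gpos Ng (Yv (v (x ω))) i + 1 / Ng i ≤ 1 := by
    intro ω hω i
    set s : ℝ := (M : ℝ) * (bse (z (x ω)) i - MvPolynomial.eval (bse (z (x ω)))
      (g (lb (x ω)) i)) with hs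
    have hn : nd M z lb g (x ω) i = ⌊s⌋ := rfl
    have f1 : ((nd M z lb g (x ω) i : ℤ) : ℝ) ≤ s := by rw [hn]; exact Int.floor_le s
    have f2 : s < (nd M z lb g (x ω) i : ℤ) + 1 := by rw [hn]; exact Int.lt_floor_add_one s
    have hY := nrem_cast hlab.Npos (nd M z lb g (x ω)) i
    have hY' : ((Yv (v (x ω)) i : ℕ) : ℝ) = (nd M z lb g (x ω) i : ℝ) -
        (nidx Ng (nd M z lb g (x ω)) i : ℝ) * Ng i := by
      have : ((nrem Ng (nd M z lb g (x ω)) i : ℕ) : ℤ) = nd M z lb g (x ω) i -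
        nidx Ng (nd M z lb g (x ω)) i * Ng i := hY
      exact_mod_cast this
    have hr : rpos M Ng (g (lb (x ω))) (nidx Ng (nd M z lb g (x ω))) (bse (z (x ω))) i =
        (s - (nidx Ng (nd M z lb g (x ω)) i : ℝ) * Ng i) / Ng i := by
      unfold rpos
      rw [hs]
      have := hN0 i
      field_simp
    have hlt := nrem_lt hlab.Npos (nd M z lb g (x ω)) i
    have hlt' : ((Yv (v (x ω)) i : ℕ) : ℝ) + 1 ≤ Ng i := by exact_mod_cast hlt
    have hNi := hN0 i
    rw [hr]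
    unfold gpos
    refine ⟨?_, ?_, ?_⟩
    · rw [div_le_div_iff_of_pos_right hNi, hY']
      linarith
    · rw [← add_div, div_le_div_iff_of_pos_right hNi, hY']
      linarith
    · rw [← add_div, div_le_one hNi]
      exact hlt'
  have hrc : ∀ ω, 0 < p ω →
      rpos M Ng (g (lb (x ω))) (nidx Ng (nd M z lb g (x ω))) (bse (z (x ω))) ∈ ucube d := by
    intro ω hω i
    obtain ⟨h1, h2, h3⟩ := hcell ω hω i
    have h4 : 0 ≤ gpos Ng (Yv (v (x ω))) i := by
      unfold gpos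
      positivity
    exact ⟨h4.trans h1, h2.trans h3⟩
  -- the entropy of the cells
  have hidx : ∀ ω, 0 < p ω → ∀ i, |nidx Ng (nd M z lb g (x ω)) i| ≤ ⌈C₀ * K⌉ + 1 := by
    intro ω hω i
    obtain ⟨h1, h2, h3⟩ := hcell ω hω i
    have h0 := hrc ω hω i
    set r := rpos M Ng (g (lb (x ω))) (nidx Ng (nd M z lb g (x ω))) (bse (z (x ω))) i with hr
    have e1 : z (x ω) (some i) - MvPolynomial.eval (bse (z (x ω))) (g (lb (x ω)) i) =
        (nidx Ng (nd M z lb g (x ω)) i : ℝ) * Ng i / M + (Ng i : ℝ) / M * r := by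
      rw [hr]
      unfold rpos bse
      have := hN0 i
      field_simp
      ring
    have h5 := hlab.pos ω hω i
    rw [e1] at h5
    have hNi := hN0 i
    have h6 : |(nidx Ng (nd M z lb g (x ω)) i : ℝ) + r| ≤ C₀ * K := by
      have e2 : (nidx Ng (nd M z lb g (x ω)) i : ℝ) * Ng i / M + (Ng i : ℝ) / M * r =
          ((nidx Ng (nd M z lb g (x ω)) i : ℝ) + r) * (Ng i / M) := by ring
      rw [e2, abs_mul, abs_of_pos (by positivity : (0 : ℝ) < Ng i / M)] at h5
      have e3 : C₀ * (K * Ng i / M) = (C₀ * K) * (Ng i / M) := by ring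
      rw [e3] at h5
      exact le_of_mul_le_mul_right h5 (by positivity)
    have h7 : |(nidx Ng (nd M z lb g (x ω)) i : ℝ)| ≤ C₀ * K + 1 := by
      have e4 : (nidx Ng (nd M z lb g (x ω)) i : ℝ) =
          ((nidx Ng (nd M z lb g (x ω)) i : ℝ) + r) - r := by ring
      rw [e4]
      refine (abs_sub _ _).trans (add_le_add h6 ?_)
      rw [abs_of_nonneg h0.1]
      exact h0.2
    have h8 : ((|nidx Ng (nd M z lb g (x ω)) i| : ℤ) : ℝ) ≤ (⌈C₀ * K⌉ + 1 : ℤ) := by
      push_cast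
      exact h7.trans (by linarith [Int.le_ceil (C₀ * K)])
    exact_mod_cast h8
  have hE3 : CH p (fun ω => clv (v (x ω))) (fun ω => lb (x ω)) ≤
      d * Real.log K + d * (Real.log 9 + Real.log C₀) := by
    set R : ℤ := ⌈C₀ * K⌉ + 1 with hR
    have hCK : 1 ≤ C₀ * K := by nlinarith
    have hR0 : 0 ≤ R := by
      have : (1 : ℤ) ≤ ⌈C₀ * K⌉ := by
        rw [Int.le_ceil_iff]
        push_cast
        linarith
      omega
    have h1 := CH_le_card hp0 hp.sum_one (fun ω => clv (v (x ω))) (fun ω => lb (x ω))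
      (fun b => ({b} : Finset L) ×ˢ Fintype.piFinset (fun _ : Fin d => Finset.Icc (-R) R)) (by
        intro ω hω
        rw [Finset.mem_product]
        refine ⟨?_, ?_⟩
        · rw [Finset.mem_singleton]
        · rw [Fintype.mem_piFinset]
          intro i
          rw [Finset.mem_Icc]
          exact abs_le.1 (hidx ω hω i))
    refine h1.trans ?_
    have h2 : ∀ ω, Real.log ((({lb (x ω)} : Finset L) ×ˢ
        Fintype.piFinset (fun _ : Fin d => Finset.Icc (-R) R)).card : ℝ) =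
        d * Real.log (2 * R + 1) := by
      intro ω
      rw [Finset.card_product, Finset.card_singleton, one_mul, Fintype.card_piFinset,
        Finset.prod_const, Finset.card_univ, Fintype.card_fin, Int.card_Icc]
      push_cast
      rw [Real.log_pow]
      have e5 : ((R + 1 - -R).toNat : ℝ) = 2 * R + 1 := by
        have h5 : ((R + 1 - -R).toNat : ℤ) = 2 * R + 1 := by
          rw [Int.toNat_of_nonneg (by omega)]
          ring
        have h6 : (((R + 1 - -R).toNat : ℤ) : ℝ) = ((2 * R + 1 : ℤ) : ℝ) := by rw [h5]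
        push_cast at h6
        exact h6
      rw [e5]
    simp only [h2]
    rw [Ex_const hp.sum_one, ← mul_add]
    refine mul_le_mul_of_nonneg_left ?_ hd0
    have hR' : (R : ℝ) ≤ C₀ * K + 2 := by
      rw [hR]
      push_cast
      have := Int.ceil_lt_add_one (C₀ * (K : ℝ))
      linarith
    have h3 : 2 * (R : ℝ) + 1 ≤ 9 * C₀ * K := by nlinarith
    have h4 : 0 < 2 * (R : ℝ) + 1 := by
      have : (0 : ℝ) ≤ R := by exact_mod_cast hR0
      linarith
    have h5 := Real.log_le_log h4 h3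
    rw [Real.log_mul (by positivity) (by positivity), Real.log_mul (by norm_num) (by positivity)]
      at h5
    linarith
  have hlC₀ : 0 ≤ Real.log C₀ := Real.log_nonneg hC₀
  have hl9 : 0 ≤ Real.log 9 := Real.log_nonneg (by norm_num)
  -- the label is constant along the chain
  have hlc : ∀ w, 0 < q w → lb (y N w) = lb (y 0 w) := fun w hw =>
    lab_const hchn hlab.cls hw N le_rfl
  have key := hcor C₁ Ω Λ Ξ W (L × (Fin d → ℤ)) (L × (Fin d → ℤ)) L p lam x T z A B lb lbl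
    (fun b => b.1) v clv Yv (fun _ => Ng)
    (fun b i => MvPolynomial.bind₁ (nchi M Ng (g b.1) b.2) (g b.1 i) +
      MvPolynomial.C (ncor M Ng b.2 i)) (fun _ => nwid M Ng)
    (fun b => MvPolynomial.bind₁ (nchi M Ng (g b.1) b.2) (gN b.1)) K M N q o o' l y
    e₁ (e₂ + d * (Real.log 9 + Real.log C₀)) (d * (Real.log 9 + Real.log C₀)) e₄ e₄' hC₁0 hM hK
    ⟨hp, hinc.T_lt, fun ω hω i => (hinc.near ω hω i).trans
      (div_le_div_of_nonneg_right hC₀₁ hM0.le), fun ω hω i => (hinc.B_le ω hω i).trans hC₀₁⟩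
    (by
      refine ⟨hTm, fun ω hω i => nrem_lt hlab.Npos _ i, ?_⟩
      intro ω hω oo
      have hch := (hT ω hω).chartOK (by linarith) hM
      have h1 := hch.step _ (hrc ω hω) (gpos Ng (Yv (v (x ω)))) (by
        intro i
        obtain ⟨h1, h2, h3⟩ := hcell ω hω i
        have h4 : 0 ≤ gpos Ng (Yv (v (x ω))) i := by
          unfold gpos
          positivity
        have h5 : 0 ≤ 1 / (Ng i : ℝ) := by positivity
        exact ⟨h4, by linarith⟩) (by
        intro i
        obtain ⟨h1, h2, h3⟩ := hcell ω hω i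
        rw [abs_le]
        have h5 : 0 ≤ 1 / (Ng i : ℝ) := by positivity
        constructor <;> linarith) oo
      have h2 : |z (x ω) oo - cpt (triC (fun i => MvPolynomial.bind₁ (nchi M Ng (g (lb (x ω)))
          (nidx Ng (nd M z lb g (x ω)))) (g (lb (x ω)) i) +
          MvPolynomial.C (ncor M Ng (nidx Ng (nd M z lb g (x ω))) i)) (nwid M Ng)
          (MvPolynomial.bind₁ (nchi M Ng (g (lb (x ω))) (nidx Ng (nd M z lb g (x ω))))
          (gN (lb (x ω))))) (rpos M Ng (g (lb (x ω))) (nidx Ng (nd M z lb g (x ω)))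
          (bse (z (x ω)))) oo| ≤ C₀ / M := by
        rw [cpt_triC_nchi (hlab.tri ω hω), nchi_rpos hM hlab.Npos (hlab.tri ω hω)]
        cases oo with
        | none => exact hlab.posN ω hω
        | some i =>
          change |z (x ω) (some i) - z (x ω) (some i)| ≤ _
          rw [sub_self, abs_zero]
          positivity
      have h3 : C₁ / M = C₀ / M + (2 * d + 1) * (2 * a) ^ 2 / M := by
        rw [hC₁, add_div]
        ring
      rw [h3]
      exact (abs_sub_le _ _ _).trans (add_le_add h2 h1))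
    hlab.cls (fun ω _ => rfl) hchn (fun ω _ i => hNg i)
    (by
      intro ω hω Q hQ hQD
      obtain ⟨y', hy', hyy⟩ := hbad ω hω Q hQ hQD
      obtain ⟨us, hus, hus'⟩ := cs_attained (fun _ : Fin d => (0 : ℝ)) 1 zero_le_one
        (MvPolynomial.bind₁ (triC (fun i => MvPolynomial.bind₁ (nchi M Ng (g (lb (x ω)))
          (nidx Ng (nd M z lb g (x ω)))) (g (lb (x ω)) i) +
          MvPolynomial.C (ncor M Ng (nidx Ng (nd M z lb g (x ω))) i)) (nwid M Ng)
          (MvPolynomial.bind₁ (nchi M Ng (g (lb (x ω))) (nidx Ng (nd M z lb g (x ω))))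
          (gN (lb (x ω))))) (MvPolynomial.pderiv none Q))
      have husc : us ∈ ucube d := fun i => ⟨(hus i).1, by
        have := (hus i).2
        linarith⟩
      have h1 := hyy _ (nchi_mem hM hlab.Npos (hlab.tri ω hω) husc)
      change _ * cs (fun _ : Fin d => (0 : ℝ)) 1 _ < _
      rw [← hus', eval_bind, cpt_triC_nchi (hlab.tri ω hω)]
      refine h1.trans_le ?_
      have h2 := le_csC (triC (fun i => MvPolynomial.bind₁ (nchi M Ng (g (lb (x ω)))
          (nidx Ng (nd M z lb g (x ω)))) (g (lb (x ω)) i) +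
          MvPolynomial.C (ncor M Ng (nidx Ng (nd M z lb g (x ω))) i)) (nwid M Ng)
          (MvPolynomial.bind₁ (nchi M Ng (g (lb (x ω))) (nidx Ng (nd M z lb g (x ω))))
          (gN (lb (x ω))))) Q (rpos_mem hM hlab.Npos hy')
      rw [cpt_triC_nchi (hlab.tri ω hω), nchi_rpos hM hlab.Npos (hlab.tri ω hω)] at h2
      exact h2)
    he₁0 (by positivity) (by positivity) he₄0 he₄'0 he₁
    (by
      -- fullness in the cells
      have h1 : CH p (fun ω => nd M z lb g (x ω)) (fun ω => lb (x ω)) ≤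
          CH p (fun ω => clv (v (x ω))) (fun ω => lb (x ω)) +
            CH p (fun ω => Yv (v (x ω))) (fun ω => clv (v (x ω))) := by
        unfold CH
        have e1 : H p (fun ω => (nd M z lb g (x ω), lb (x ω))) ≤
            H p (fun ω => (Yv (v (x ω)), clv (v (x ω)))) := by
          refine H_mono hp0 ?_
          intro ω ω' hω hω' h
          simp only [hv, hclv, hYv, Prod.mk.injEq] at h ⊢
          obtain ⟨h2, h3, h4⟩ := h
          refine ⟨?_, h3⟩
          funext i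
          have e5 := nrem_cast hlab.Npos (nd M z lb g (x ω)) i
          have e6 := nrem_cast hlab.Npos (nd M z lb g (x ω')) i
          rw [h2, e6, h4] at e5
          omega
        have e2 : H p (fun ω => (clv (v (x ω)), lb (x ω))) = H p (fun ω => clv (v (x ω))) := by
          refine H_congr hp0 ?_ ?_
          · intro ω ω' _ _ h
            refine Prod.ext h ?_
            exact (Prod.ext_iff.mp h).1
          · intro ω ω' _ _ h
            exact (Prod.ext_iff.mp h).1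
        rw [e2]
        linarith
      have h2 : Ex p (fun _ : Ω => ∑ i, Real.log (Ng i)) = ∑ i, Real.log (Ng i) :=
        Ex_const hp.sum_one _
      rw [h2]
      have h3 : (∑ i, Real.log ((K * Ng i : ℕ) : ℝ)) =
          d * Real.log K + ∑ i, Real.log (Ng i) := by
        have : ∀ i ∈ (univ : Finset (Fin d)), Real.log ((K * Ng i : ℕ) : ℝ) =
            Real.log K + Real.log (Ng i) := by
          intro i _
          push_cast
          rw [Real.log_mul (by positivity) (hN0 i).ne']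
        rw [Finset.sum_congr rfl this, Finset.sum_add_distrib, Finset.sum_const,
          Finset.card_univ, Fintype.card_fin, nsmul_eq_mul]
      rw [h3] at he₂
      linarith)
    hE3
    (by
      have h1 : CH q (fun w => v (y N w)) (fun w => lb (y N w)) =
          CH q (fun w => nd M z lb g (y N w)) (fun w => lb (y N w)) := by
        refine CH_congr hq0 ?_ ?_ (fun _ _ _ _ h => h) (fun _ _ _ _ h => h)
        · intro w w' _ _ h
          simp only [hv, Prod.mk.injEq] at h ⊢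
          tauto
        · intro w w' _ _ h
          simp only [hv, Prod.mk.injEq] at h ⊢
          tauto
      have h2 : CH q (fun w => v (y N w)) (y 0) =
          CH q (fun w => nd M z lb g (y N w)) (y 0) := by
        refine CH_congr hq0 ?_ ?_ (fun _ _ _ _ h => h) (fun _ _ _ _ h => h)
        · intro w w' _ _ h
          simp only [hv, Prod.mk.injEq] at h ⊢
          exact h.1.2
        · intro w w' hw hw' h
          simp only [hv, Prod.mk.injEq] at h ⊢
          refine ⟨?_, h.1⟩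
          rw [hlc w hw, hlc w' hw', h.2]
      rw [h1, h2]
      exact he₄)
    (by
      have h1 : CH q (fun w => v (y 0 w)) (fun w => lb (y 0 w)) =
          CH q (fun w => nd M z lb g (y 0 w)) (fun w => lb (y 0 w)) := by
        refine CH_congr hq0 ?_ ?_ (fun _ _ _ _ h => h) (fun _ _ _ _ h => h)
        · intro w w' _ _ h
          simp only [hv, Prod.mk.injEq] at h ⊢
          tauto
        · intro w w' _ _ h
          simp only [hv, Prod.mk.injEq] at h ⊢
          tauto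
      have h2 : CH q (fun w => v (y 0 w)) (y N) =
          CH q (fun w => nd M z lb g (y 0 w)) (y N) := by
        refine CH_congr hq0 ?_ ?_ (fun _ _ _ _ h => h) (fun _ _ _ _ h => h)
        · intro w w' _ _ h
          simp only [hv, Prod.mk.injEq] at h ⊢
          exact h.1.2
        · intro w w' hw hw' h
          simp only [hv, Prod.mk.injEq] at h ⊢
          refine ⟨?_, h.1⟩
          rw [← hlc w hw, ← hlc w' hw', h.2]
      rw [h1, h2]
      exact he₄')
  refine key.trans ?_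
  -- the constants
  have hLp1 : 0 ≤ Real.log (1 + Lp) := Real.log_nonneg (by linarith)
  set c₂ : ℝ := (2 * d + 1) * (2 * (1 + d) ^ (d + 1)) ^ 2 + 1 with hc₂
  have hc₂1 : 1 ≤ c₂ := by
    have : 0 ≤ (2 * (d : ℝ) + 1) * (2 * (1 + d) ^ (d + 1)) ^ 2 := by positivity
    linarith
  have hlc₂ : 0 ≤ Real.log c₂ := Real.log_nonneg hc₂1
  have hlC₁ : Real.log C₁ ≤ Real.log c₂ + 2 * (d + 1) * Real.log (1 + Lp) + Real.log C₀ := by
    have h1 : C₁ ≤ c₂ * (1 + Lp) ^ (2 * (d + 1)) * C₀ := by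
      have h2 : a ≤ (1 + d) ^ (d + 1) * (1 + Lp) ^ (d + 1) := by
        rw [ha, ← mul_pow]
        refine pow_le_pow_left₀ (by linarith) ?_ _
        nlinarith
      have h3 : (2 * a) ^ 2 ≤ (2 * (1 + d) ^ (d + 1)) ^ 2 * (1 + Lp) ^ (2 * (d + 1)) := by
        calc (2 * a) ^ 2 ≤ (2 * ((1 + d) ^ (d + 1) * (1 + Lp) ^ (d + 1))) ^ 2 :=
              pow_le_pow_left₀ (by positivity) (mul_le_mul_of_nonneg_left h2 (by norm_num)) 2
          _ = (2 * (1 + d) ^ (d + 1)) ^ 2 * (1 + Lp) ^ (2 * (d + 1)) := by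
              rw [show 2 * (d + 1) = (d + 1) * 2 by ring, pow_mul]
              ring
      have h4 : (1 : ℝ) ≤ (1 + Lp) ^ (2 * (d + 1)) := one_le_pow₀ (by linarith)
      set P₁ := (1 + Lp) ^ (2 * (d + 1)) with hP₁
      have h5 : (2 * (d : ℝ) + 1) * (2 * a) ^ 2 ≤
          (2 * d + 1) * ((2 * (1 + d) ^ (d + 1)) ^ 2 * P₁) :=
        mul_le_mul_of_nonneg_left h3 (by positivity)
      have h6 : (2 * (d : ℝ) + 1) * ((2 * (1 + d) ^ (d + 1)) ^ 2 * P₁) * 1 ≤
          (2 * (d : ℝ) + 1) * ((2 * (1 + d) ^ (d + 1)) ^ 2 * P₁) * C₀ :=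
        mul_le_mul_of_nonneg_left hC₀ (by positivity)
      have h7 : C₀ * 1 ≤ C₀ * P₁ := mul_le_mul_of_nonneg_left h4 (by linarith)
      calc C₁ = (2 * d + 1) * (2 * a) ^ 2 + C₀ := hC₁
        _ ≤ (2 * (d : ℝ) + 1) * ((2 * (1 + d) ^ (d + 1)) ^ 2 * P₁) * C₀ + C₀ * P₁ := by
            linarith
        _ = c₂ * P₁ * C₀ := by rw [hc₂]; ring
    have h2 := Real.log_le_log (by linarith : (0 : ℝ) < C₁) h1
    have h3 : Real.log (c₂ * (1 + Lp) ^ (2 * (d + 1)) * C₀) =
        Real.log c₂ + 2 * (d + 1) * Real.log (1 + Lp) + Real.log C₀ := by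
      rw [Real.log_mul (by positivity) (by positivity), Real.log_mul (by positivity)
        (by positivity), Real.log_pow]
      push_cast
      ring
    rw [h3] at h2
    exact h2
  have hNn : (0 : ℝ) ≤ N := Nat.cast_nonneg N
  set V : ℝ := e₂ + e₄ + e₄' + N * (e₁ + 1) + Real.log C₀ + Real.log (1 + Lp) + 1 with hV
  have n1 : (0 : ℝ) ≤ N * (e₁ + 1) := by positivity
  have hV1 : 1 ≤ V := by rw [hV]; linarith
  have hVC : Real.log C₀ ≤ V := by rw [hV]; linarith
  have hVL : Real.log (1 + Lp) ≤ V := by rw [hV]; linarith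
  have w1 : 2 * (d : ℝ) * Real.log 9 * 1 ≤ 2 * d * Real.log 9 * V :=
    mul_le_mul_of_nonneg_left hV1 (by positivity)
  have w2 : 2 * (d : ℝ) * Real.log C₀ ≤ 2 * d * V := mul_le_mul_of_nonneg_left hVC (by positivity)
  have w3 : Real.log c₂ * 1 ≤ Real.log c₂ * V := mul_le_mul_of_nonneg_left hV1 hlc₂
  have w4 : 2 * ((d : ℝ) + 1) * Real.log (1 + Lp) ≤ 2 * (d + 1) * V :=
    mul_le_mul_of_nonneg_left hVL (by positivity)
  have w5 : e₂ + e₄ + e₄' + N * (e₁ + 1) + 1 ≤ V := by rw [hV]; linarith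
  have w6 : (0 : ℝ) ≤ d * V := by positivity
  have tot : e₂ + d * (Real.log 9 + Real.log C₀) + d * (Real.log 9 + Real.log C₀) + e₄ + e₄' +
      N * (e₁ + 1) + Real.log C₁ + 1 ≤
      (3 * d + 2 * d * Real.log 9 + Real.log c₂ + 2 * (d + 1) + 4) * V := by
    nlinarith
  calc C * (e₂ + d * (Real.log 9 + Real.log C₀) + d * (Real.log 9 + Real.log C₀) + e₄ + e₄' +
      N * (e₁ + 1) + Real.log C₁ + 1) ≤
        C * ((3 * d + 2 * d * Real.log 9 + Real.log c₂ + 2 * (d + 1) + 4) * V) :=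
        mul_le_mul_of_nonneg_left tot hC
    _ = C * (3 * d + 2 * d * Real.log 9 + Real.log c₂ + 2 * (d + 1) + 4) * V := by ring

end Pool.M3F
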