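import Pool.Agent.H37.M3F.Sml

/-!
# The jet size along a line, general coordinates
-/

set_option autoImplicit false

namespace Pool.M3F

open Finset Real
open Pool.Agent.H49.Ent Pool.Agent.H32.Dense Pool.STK Pool.KAF Pool.KAL Pool.KS3

theorem lineC (σ : Type) [Fintype σ] (D : ℕ) :
    ∃ c₁ : ℝ, 0 ≤ c₁ ∧ ∀ (C₀ : ℝ) (M : ℕ) (P : MvPolynomial σ ℝ) (A B : σ → ℝ), 1 ≤ C₀ →
    1 ≤ M → P ≠ 0 →
    P.totalDegree ≤ D → (∀ i, |B i| ≤ C₀) →
    ∃ (m : ℝ) (q : Polynomial ℝ), q.natDegree ≤ D ∧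
      (∃ s ∈ Set.Icc (0 : ℝ) 1, Real.exp m ≤ |q.eval s|) ∧
      ∀ t ∈ Set.Icc (0 : ℝ) 1, ∀ z : σ → ℝ,
        (∀ i, |z i - (A i + t * B i)| ≤ C₀ / M) →
        |q.eval t| ≤ Real.exp (Real.log (Psi P (C₀ / M) z) + c₁) ∧
        m - D * Real.log M ≤ Real.log (Psi P (C₀ / M) z) + c₁ ∧
        Real.log (Psi P (C₀ / M) z) ≤ m + c₁ := by
  classical
  set E := expBox σ D with hE
  have h0E : (0 : σ →₀ ℕ) ∈ E := by
    rw [hE, mem_expBox]
    simp
  have hEc : (1 : ℝ) ≤ E.card := by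
    have : 1 ≤ E.card := Finset.card_pos.mpr ⟨0, h0E⟩
    exact_mod_cast this
  refine ⟨D * Real.log 3 + D * Real.log 2 + Real.log E.card, ?_, ?_⟩
  · have h1 : 0 ≤ Real.log 3 := Real.log_nonneg (by norm_num)
    have h2 : 0 ≤ Real.log 2 := Real.log_nonneg (by norm_num)
    have h3 : 0 ≤ Real.log E.card := Real.log_nonneg hEc
    positivity
  intro C₀ M P A B hC₀ hM hP hPD hB
  have hM1 : (1 : ℝ) ≤ M := by exact_mod_cast hM
  have hM0 : (0 : ℝ) < M := by linarith
  set h : ℝ := C₀ / M with hh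
  have hh0 : 0 < h := by rw [hh]; positivity
  obtain ⟨q, hqd, hq⟩ := Psi_line_box P D hPD h A B
  have hmax : ∀ α : σ →₀ ℕ, ∃ s ∈ Set.Icc (0 : ℝ) 1,
      ∀ t ∈ Set.Icc (0 : ℝ) 1, |(q α).eval t| ≤ |(q α).eval s| := by
    intro α
    obtain ⟨s, hs, hs'⟩ := isCompact_Icc.exists_isMaxOn (s := Set.Icc (0 : ℝ) 1)
      ⟨0, by norm_num, by norm_num⟩ ((q α).continuous.abs).continuousOn
    exact ⟨s, hs, fun t ht => hs' ht⟩
  choose s hs hs' using hmax
  obtain ⟨α, hαE, hα⟩ := E.exists_max_image (fun α => |(q α).eval (s α)|) ⟨0, h0E⟩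
  set V : ℝ := |(q α).eval (s α)| with hV
  have hle : ∀ β ∈ E, ∀ t ∈ Set.Icc (0 : ℝ) 1, |(q β).eval t| ≤ V := fun β hβ t ht =>
    (hs' β t ht).trans (hα β hβ)
  have hsum : ∀ t ∈ Set.Icc (0 : ℝ) 1, Psi P h (fun i => A i + t * B i) ≤ E.card * V := by
    intro t ht
    rw [hq]
    calc ∑ β ∈ E, |(q β).eval t| ≤ ∑ _β ∈ E, V := Finset.sum_le_sum fun β hβ => hle β hβ t ht
      _ = E.card * V := by rw [Finset.sum_const, nsmul_eq_mul]
  have hVpos : 0 < V := by
    have h1 := Psi_pos P hP h hh0 (fun i => A i + 0 * B i)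
    have h2 := hsum 0 ⟨le_refl _, by norm_num⟩
    by_contra hcon
    push Not at hcon
    have : (E.card : ℝ) * V ≤ 0 := mul_nonpos_of_nonneg_of_nonpos (by linarith) hcon
    linarith
  have hVle : ∀ β ∈ E, ∀ t ∈ Set.Icc (0 : ℝ) 1, |(q β).eval t| ≤
      Psi P h (fun i => A i + t * B i) := by
    intro β hβ t _
    rw [hq]
    exact Finset.single_le_sum (f := fun γ => |(q γ).eval t|) (fun _ _ => abs_nonneg _) hβ
  refine ⟨Real.log V, q α, hqd α, ⟨s α, hs α, ?_⟩, ?_⟩
  · rw [Real.exp_log hVpos]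
  intro t ht z hz
  have hPz := Psi_pos P hP h hh0 z
  have hPl := Psi_pos P hP h hh0 (fun i => A i + t * B i)
  have h2D : (2 : ℝ) ^ P.totalDegree ≤ 2 ^ D := pow_le_pow_right₀ (by norm_num) hPD
  have n1 : Psi P h (fun i => A i + t * B i) ≤ 2 ^ D * Psi P h z := by
    have h1 := Psi_le_of_near P h hh0.le z (fun i => A i + t * B i) (by
      intro i
      rw [abs_sub_comm]
      exact hz i)
    exact h1.trans (mul_le_mul_of_nonneg_right h2D hPz.le)
  have n2 : Psi P h z ≤ 2 ^ D * Psi P h (fun i => A i + t * B i) := by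
    have h1 := Psi_le_of_near P h hh0.le (fun i => A i + t * B i) z hz
    exact h1.trans (mul_le_mul_of_nonneg_right h2D hPl.le)
  have n3 : Psi P h (fun i => A i + s α * B i) ≤ (3 * M) ^ D * Psi P h z := by
    have h1 := Psi_le_of_dist P h (M + 1) hh0 (by linarith) z (fun i => A i + s α * B i) (by
      intro i
      have e1 : (A i + s α * B i) - z i = (s α - t) * B i - (z i - (A i + t * B i)) := by ring
      rw [e1]
      have e2 : |s α - t| ≤ 1 := by
        have := (hs α).1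
        have := (hs α).2
        have := ht.1
        have := ht.2
        rw [abs_le]
        constructor <;> linarith
      have e3 : |(s α - t) * B i| ≤ C₀ := by
        rw [abs_mul]
        calc |s α - t| * |B i| ≤ 1 * C₀ := mul_le_mul e2 (hB i) (abs_nonneg _) zero_le_one
          _ = C₀ := one_mul _
      have e4 : (M + 1) * h = C₀ + h := by
        rw [hh]
        field_simp
      rw [e4]
      exact (abs_sub _ _).trans (add_le_add e3 (hz i)))
    refine h1.trans (mul_le_mul_of_nonneg_right ?_ hPz.le)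
    calc (1 + ((M : ℝ) + 1)) ^ P.totalDegree ≤ (1 + ((M : ℝ) + 1)) ^ D :=
          pow_le_pow_right₀ (by linarith) hPD
      _ ≤ (3 * M) ^ D := pow_le_pow_left₀ (by linarith) (by linarith) D
  have hl3 : 0 ≤ D * Real.log 3 := mul_nonneg (Nat.cast_nonneg _) (Real.log_nonneg (by norm_num))
  have hl2 : 0 ≤ D * Real.log 2 := mul_nonneg (Nat.cast_nonneg _) (Real.log_nonneg (by norm_num))
  have hlE : 0 ≤ Real.log E.card := Real.log_nonneg hEc
  refine ⟨?_, ?_, ?_⟩
  · have h1 : |(q α).eval t| ≤ 2 ^ D * Psi P h z := (hVle α hαE t ht).trans n1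
    refine h1.trans ?_
    rw [Real.exp_add, Real.exp_log hPz, mul_comm]
    refine mul_le_mul_of_nonneg_left ?_ hPz.le
    have h2 : (2 : ℝ) ^ D = Real.exp (D * Real.log 2) := by
      rw [mul_comm, Real.exp_mul, Real.exp_log (by norm_num), Real.rpow_natCast]
    rw [h2]
    exact Real.exp_le_exp.mpr (by linarith)
  · have h1 : V ≤ (3 * M) ^ D * Psi P h z := (hVle α hαE (s α) (hs α)).trans n3
    have h2 := Real.log_le_log hVpos h1
    rw [Real.log_mul (by positivity) hPz.ne', Real.log_pow,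
      Real.log_mul (by norm_num) hM0.ne'] at h2
    linarith
  · have h1 : Psi P h z ≤ 2 ^ D * (E.card * V) :=
      n2.trans (mul_le_mul_of_nonneg_left (hsum t ht) (by positivity))
    have h2 := Real.log_le_log hPz h1
    rw [Real.log_mul (by positivity) (by positivity), Real.log_pow,
      Real.log_mul (by linarith) hVpos.ne'] at h2
    linarith

end Pool.M3F
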