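import Pool.Agent.H37.M3F.Tri

/-!
# Degree control on natural boxes

`cor_tri`: cells with triangular charts (natural boxes of dimension `d` in `d + 1` coordinates).
`exists_deg`: the choice of the degree.
-/

set_option autoImplicit false

namespace Pool.M3F

open Finset Real
open Pool.Agent.H49.Ent Pool.Agent.H32.Dense Pool.STK Pool.KAF Pool.KAL Pool.KS3

/-- Cells with triangular charts. -/
structure TCells {Ω Ξ U Δ : Type} [Fintype Ω] {d : ℕ} (k₀ : ℕ) (C₀ : ℝ) (M : ℕ) (p : Ω → ℝ)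
    (x : Ω → Ξ) (z : Ξ → Option (Fin d) → ℝ) (v : Ξ → U) (clv : U → Δ) (Yv : U → Fin d → ℕ)
    (Ng : Δ → Fin d → ℕ) (G : Δ → Fin d → MvPolynomial (Fin d) ℝ) (w : Δ → Fin d → ℝ)
    (F : Δ → MvPolynomial (Fin d) ℝ) : Prop where
  chart : ∀ ω, 0 < p ω → Tri k₀ C₀ M (Ng (clv (v (x ω)))) (G (clv (v (x ω))))
    (w (clv (v (x ω)))) (F (clv (v (x ω))))
  lt : ∀ ω, 0 < p ω → ∀ i, Yv (v (x ω)) i < Ng (clv (v (x ω))) i
  near : ∀ ω, 0 < p ω → ∀ o, |z (x ω) o - cpt (triC (G (clv (v (x ω)))) (w (clv (v (x ω))))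
    (F (clv (v (x ω))))) (gpos (Ng (clv (v (x ω)))) (Yv (v (x ω)))) o| ≤ C₀ / M

/-- **Degree control on natural boxes.** If in every cell no polynomial `Q` of degree at most `D`
satisfies `|Q| ≤ K ^ (j + 1) / M * |∂ Q|` (suprema over the chart, derivative in the passive
direction), then `K` is bounded in terms of the errors. `lb` is a label which is a function of the
point, of the line and of the cell; all the entropies are conditional on it. -/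
theorem cor_tri (d D j k₀ : ℕ)
    (hch : (j + d).choose d < (D + d + 1).choose (d + 1))
    (hj : 6 * d * D ≤ j) : ∃ C : ℝ, 0 ≤ C ∧
    ∀ (C₀ : ℝ) (Ω Λ Ξ W U Δ L : Type) [Fintype Ω] [Fintype W] (p : Ω → ℝ) (lam : Ω → Λ) (x : Ω → Ξ)
      (T : Ξ → ℕ) (z : Ξ → Option (Fin d) → ℝ) (A B : Λ → Option (Fin d) → ℝ) (lb : Ξ → L)
      (lbl : Λ → L) (lbc : Δ → L) (v : Ξ → U) (clv : U → Δ) (Yv : U → Fin d → ℕ) (Ng : Δ → Fin d → ℕ)
      (G : Δ → Fin d → MvPolynomial (Fin d) ℝ) (w : Δ → Fin d → ℝ)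
      (F : Δ → MvPolynomial (Fin d) ℝ)
      (K M N : ℕ) (q : W → ℝ) (o o' : ℕ → W → Ω) (l : ℕ → W → Λ) (y : ℕ → W → Ξ)
      (e₁ e₂ e₃ e₄ e₄' : ℝ),
      1 ≤ C₀ → 1 ≤ M → 1 ≤ K → Inc M C₀ p lam x T z A B → TCells k₀ C₀ M p x z v clv Yv Ng G w F →
      (∀ ω, 0 < p ω → lb (x ω) = lbl (lam ω)) →
      (∀ ω, 0 < p ω → lb (x ω) = lbc (clv (v (x ω)))) → IsChain p lam x N q o o' l y →
      (∀ ω, 0 < p ω → ∀ i, K ^ (j + 1) ≤ Ng (clv (v (x ω))) i) →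
      (∀ ω, 0 < p ω → BadN D ((K : ℝ) ^ (j + 1) / M) (triC (G (clv (v (x ω))))
        (w (clv (v (x ω)))) (F (clv (v (x ω)))))) →
      0 ≤ e₁ → 0 ≤ e₂ → 0 ≤ e₃ → 0 ≤ e₄ → 0 ≤ e₄' →
      Real.log M - CH p (fun ω => T (x ω)) lam ≤ e₁ →
      Ex p (fun ω => ∑ i, Real.log (Ng (clv (v (x ω))) i)) -
        CH p (fun ω => Yv (v (x ω))) (fun ω => clv (v (x ω))) ≤ e₂ →
      CH p (fun ω => clv (v (x ω))) (fun ω => lb (x ω)) ≤ d * Real.log K + e₃ →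
      CH q (fun w => v (y N w)) (fun w => lb (y N w)) - CH q (fun w => v (y N w)) (y 0) ≤ e₄ →
      CH q (fun w => v (y 0 w)) (fun w => lb (y 0 w)) - CH q (fun w => v (y 0 w)) (y N) ≤ e₄' →
      Real.log K ≤ C * (e₂ + e₃ + e₄ + e₄' + N * (e₁ + 1) + Real.log C₀ + 1) := by
  classical
  obtain ⟨C₁, hC₁, htb⟩ := tri_bad d D k₀
  obtain ⟨C, hC, hcor⟩ := cor_chart (Option (Fin d)) d D j (k₀ + 1) (by
    rw [Fintype.card_option, Fintype.card_fin]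
    exact hch) hj
  have hlC₁ : 0 ≤ Real.log C₁ := Real.log_nonneg hC₁
  refine ⟨C * (Real.log C₁ + (2 * d + 2) + 1), by positivity, ?_⟩
  intro C₀ Ω Λ Ξ W U Δ L _ _ p lam x T z A B lb lbl lbc v clv Yv Ng G w F K M N q o o' l y e₁ e₂ e₃
    e₄ e₄' hC₀ hM hK hinc hcells hlb hlbc hchn hNg hbad he₁0 he₂0 he₃0 he₄0 he₄'0 he₁ he₂ he₃ he₄
    he₄'
  set C' : ℝ := (2 * d + 1) * C₀ ^ 2 with hC'
  have hd0 : (0 : ℝ) ≤ d := Nat.cast_nonneg d
  have hCC : C₀ ≤ C' := by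
    rw [hC']
    have h5 : C₀ ≤ C₀ ^ 2 := by nlinarith
    have h6 : 0 ≤ 2 * (d : ℝ) * C₀ ^ 2 := by positivity
    linarith
  have hC'1 : 1 ≤ C' := hC₀.trans hCC
  have hC'' : (1 : ℝ) ≤ C₁ * C₀ ^ (2 * d + 2) := by
    have : (1 : ℝ) ≤ C₀ ^ (2 * d + 2) := one_le_pow₀ hC₀
    nlinarith
  have hM0 : (0 : ℝ) < M := by exact_mod_cast hM
  have hdiv : C₀ / M ≤ C' / M := div_le_div_of_nonneg_right hCC hM0.le
  have hK0 : (0 : ℝ) < K := by exact_mod_cast hK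
  have key := hcor C' (C₁ * C₀ ^ (2 * d + 2)) Ω Λ Ξ W U Δ L p lam x T z A B lb lbl lbc v clv Yv Ng
    (fun b => triC (G b) (w b) (F b)) K M N q o o' l y e₁ e₂ e₃ e₄ e₄' hC'1 hC'' hM hK
    ⟨hinc.isLaw, hinc.T_lt, fun ω hω i => (hinc.near ω hω i).trans hdiv,
      fun ω hω i => (hinc.B_le ω hω i).trans hCC⟩
    ⟨fun ω hω => (hcells.chart ω hω).chartOK hC₀ hM, hcells.lt,
      fun ω hω i => (hcells.near ω hω i).trans hdiv⟩ hlb hlbc hchn
    (by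
      intro ω hω
      refine htb C₀ M ((K : ℝ) ^ (j + 1)) _ _ _ _ hC₀ hM (by positivity) (hcells.chart ω hω) ?_
        (hbad ω hω)
      intro i
      exact_mod_cast hNg ω hω i)
    he₁0 he₂0 he₃0 he₄0 he₄'0 he₁ he₂ he₃ he₄ he₄'
  refine key.trans ?_
  have hlC₀ : 0 ≤ Real.log C₀ := Real.log_nonneg hC₀
  have e5 : Real.log (C₁ * C₀ ^ (2 * d + 2)) = Real.log C₁ + (2 * d + 2) * Real.log C₀ := by
    rw [Real.log_mul (by linarith) (by positivity), Real.log_pow]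
    push_cast
    ring
  rw [e5]
  have hN : (0 : ℝ) ≤ N := Nat.cast_nonneg N
  set V : ℝ := e₂ + e₃ + e₄ + e₄' + N * (e₁ + 1) + Real.log C₀ + 1 with hV
  have n1 : (0 : ℝ) ≤ N * (e₁ + 1) := by positivity
  have hV1 : 1 ≤ V := by rw [hV]; linarith
  have hVl : Real.log C₀ ≤ V := by rw [hV]; linarith
  have w1 : Real.log C₁ * 1 ≤ Real.log C₁ * V := mul_le_mul_of_nonneg_left hV1 hlC₁
  have w2 : (2 * (d : ℝ) + 2) * Real.log C₀ ≤ (2 * d + 2) * V :=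
    mul_le_mul_of_nonneg_left hVl (by positivity)
  have w3 : e₂ + e₃ + e₄ + e₄' + N * (e₁ + 1) + (Real.log C₁ + (2 * d + 2) * Real.log C₀) + 1 ≤
      (Real.log C₁ + (2 * d + 2) + 1) * V := by
    have : e₂ + e₃ + e₄ + e₄' + N * (e₁ + 1) + 1 ≤ V := by rw [hV]; linarith
    nlinarith
  calc C * (e₂ + e₃ + e₄ + e₄' + N * (e₁ + 1) + (Real.log C₁ + (2 * d + 2) * Real.log C₀) + 1) ≤
        C * ((Real.log C₁ + (2 * d + 2) + 1) * V) := mul_le_mul_of_nonneg_left w3 hC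
    _ = C * (Real.log C₁ + (2 * d + 2) + 1) * V := by ring

/-- The number of polynomials of degree at most `D` in `d + 1` variables exceeds the number of
Taylor coefficients of order at most `6 d D` in `d` variables. -/
theorem exists_deg (d : ℕ) : ∃ D : ℕ, 1 ≤ D ∧
    (6 * d * D + d).choose d < (D + d + 1).choose (d + 1) := by
  -- `(6 d D + d).choose d ≤ (6 d D + d) ^ d ≤ (7 d D) ^ d`,
  -- `(D + d + 1).choose (d + 1) ≥ (D / (d + 1)) ^ (d + 1)`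
  rcases Nat.eq_zero_or_pos d with hd | hd
  · subst hd
    exact ⟨1, le_rfl, by decide⟩
  set D : ℕ := (d + 1) ^ (d + 1) * (7 * d) ^ d + 1 with hD
  refine ⟨D, by omega, ?_⟩
  have hD1 : 1 ≤ D := by omega
  have h1 : (6 * d * D + d).choose d ≤ (7 * d * D) ^ d := by
    refine (Nat.choose_le_pow _ _).trans (Nat.pow_le_pow_left ?_ d)
    nlinarith
  have h2 : D ^ (d + 1) ≤ (d + 1) ^ (d + 1) * (D + d + 1).choose (d + 1) := by
    have h3 := Nat.pow_le_choose (α := ℝ) (d + 1) (D + d + 1)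
    have h3' : (((D + d + 1 + 1 - (d + 1) : ℕ) ^ (d + 1) : ℝ) / ((d + 1).factorial : ℝ)) ≤
        ((D + d + 1).choose (d + 1) : ℝ) := by exact_mod_cast h3
    have h4 : D + d + 1 + 1 - (d + 1) = D + 1 := by omega
    rw [h4, div_le_iff₀ (by positivity)] at h3'
    have h5 : (D + 1) ^ (d + 1) ≤ (D + d + 1).choose (d + 1) * (d + 1).factorial := by
      exact_mod_cast h3'
    have h6 : (d + 1).factorial ≤ (d + 1) ^ (d + 1) := Nat.factorial_le_pow _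
    calc D ^ (d + 1) ≤ (D + 1) ^ (d + 1) := Nat.pow_le_pow_left (Nat.le_succ _) _
      _ ≤ (D + d + 1).choose (d + 1) * (d + 1).factorial := h5
      _ ≤ (D + d + 1).choose (d + 1) * (d + 1) ^ (d + 1) := Nat.mul_le_mul_left _ h6
      _ = _ := by ring
  by_contra hcon
  push Not at hcon
  have h7 : D ^ (d + 1) ≤ (d + 1) ^ (d + 1) * (7 * d * D) ^ d :=
    h2.trans (Nat.mul_le_mul_left _ (hcon.trans h1))
  have h8 : D ^ d * D ≤ D ^ d * ((d + 1) ^ (d + 1) * (7 * d) ^ d) := by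
    calc D ^ d * D = D ^ (d + 1) := by ring
      _ ≤ (d + 1) ^ (d + 1) * (7 * d * D) ^ d := h7
      _ = D ^ d * ((d + 1) ^ (d + 1) * (7 * d) ^ d) := by rw [mul_pow]; ring
  have h9 : D ≤ (d + 1) ^ (d + 1) * (7 * d) ^ d :=
    Nat.le_of_mul_le_mul_left h8 (pow_pos hD1 d)
  omega

end Pool.M3F
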