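import Pool.Agent.H37.M3F.Abs
import Pool.Agent.H8.KS3.FIL

/-!
# Remez inequality in the mean on an anisotropic grid

The unit cube is divided into `Ng i` steps in the direction `i`. The numbers of steps are made
equal by an independent uniform variable.
-/

set_option autoImplicit false

namespace Pool.M3F

open Finset Real
open Pool.Agent.H49.Ent Pool.Agent.H32.Dense Pool.STK Pool.KAF Pool.KAL Pool.KS3

/-- Entropy with an independent uniform variable. -/
lemma H_unif {V S 𝒰 : Type} [Fintype V] [Fintype 𝒰] [Nonempty 𝒰] {q : V → ℝ} (hq : IsLaw q)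
    (X : V → S) : ∃ r : V × 𝒰 → ℝ, IsLaw r ∧ Marg r q (fun w => w.1) ∧
      H r (fun w => (X w.1, w.2)) = H q X + Real.log (Fintype.card 𝒰) := by
  classical
  set μ : 𝒰 → ℝ := fun _ => (Fintype.card 𝒰 : ℝ)⁻¹ with hμ
  have hμ0 : ∀ u, 0 ≤ μ u := fun _ => by positivity
  have hc : (0 : ℝ) < Fintype.card 𝒰 := by exact_mod_cast Fintype.card_pos
  have hμ1 : ∑ u, μ u = 1 := by
    simp only [hμ, Finset.sum_const, Finset.card_univ, nsmul_eq_mul]
    field_simp
  have hq0 := hq.nonneg
  have hZ : ∀ z : Unit, law q (fun _ => ()) z = law μ (fun _ => ()) z := by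
    intro z
    unfold law
    simp only [if_true]
    rw [hq.sum_one, hμ1]
  set r : V × 𝒰 → ℝ := glue q μ (fun _ => ()) (fun _ => ()) with hr
  have hr0 : ∀ w, 0 ≤ r w := glue_nonneg hq0 hμ0
  have m1 : Marg r q (fun w => w.1) := marg_fst hq0 hZ
  have m2 : Marg r μ (fun w => w.2) := marg_snd hμ0 hZ
  have hr1 : ∑ w, r w = 1 := by rw [m1.sum]; exact hq.sum_one
  refine ⟨r, ⟨hr0, hr1⟩, m1, ?_⟩
  have h1 : CI r (fun w => X w.1) (fun w => w.2) (fun _ => ()) :=
    CI_glue hq0 hμ0 hZ X (fun u => u)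
  unfold CI CH at h1
  have h2 : H r (fun w => (X w.1, (w.2, ()))) = H r (fun w => (X w.1, w.2)) := by
    refine H_congr hr0 ?_ ?_ <;>
    · intro ω ω' _ _ h
      simp only [Prod.mk.injEq] at h ⊢
      tauto
  have h3 : H r (fun w => (w.2, ())) = H r (fun w => w.2) := by
    refine H_congr hr0 ?_ ?_ <;>
    · intro ω ω' _ _ h
      simp only [Prod.mk.injEq] at h ⊢
      tauto
  have h4 : H r (fun w => (X w.1, ())) = H r (fun w => X w.1) := by
    refine H_congr hr0 ?_ ?_ <;>
    · intro ω ω' _ _ h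
      simp only [Prod.mk.injEq] at h ⊢
      tauto
  have h5 : H r (fun _ => ()) = 0 := H_const hr1 ()
  have h6 : H r (fun w => w.2) = Real.log (Fintype.card 𝒰) := by
    rw [m2.H (fun u => u)]
    exact H_uniform (fun _ _ h => h)
  have h7 : H r (fun w => X w.1) = H q X := m1.H X
  rw [h2, h3, h4, h5, h6, h7] at h1
  linarith

/-- Remez inequality in the mean, anisotropic grid. -/
lemma ria (hRIK : RIKStmt) (d D κ : ℕ) (hκ : 2 * D ≤ κ) : ∃ C : ℝ, 0 ≤ C ∧
    ∀ (Ω : Type) [Fintype Ω] (p : Ω → ℝ) (Ng : Fin d → ℕ) (N : ℕ) (Y : Ω → Fin d → ℕ)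
      (P : MvPolynomial (Fin d) ℝ) (S : ℝ) (f : Ω → ℝ), IsLaw p → (∀ i, Ng i ∣ N) → 1 ≤ N →
      (∀ ω, 0 < p ω → ∀ i, Y ω i < Ng i) → P.totalDegree ≤ D → 0 < S →
      (∃ s : Fin d → ℝ, (∀ i, s i ∈ Set.Icc (0 : ℝ) 1) ∧ S ≤ |MvPolynomial.eval s P|) →
      (∀ ω, 0 < p ω → ∀ u : Fin d → ℝ, (∀ i, (Y ω i : ℝ) / Ng i ≤ u i ∧
        u i ≤ ((Y ω i : ℝ) + 1) / Ng i) → |MvPolynomial.eval u P| ≤ f ω) →
      (∀ ω, 0 < p ω → S / (N : ℝ) ^ κ ≤ f ω) →
      Real.log S - κ * (((∑ i, Real.log (Ng i)) - H p Y) + C) ≤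
        Ex p (fun ω => Real.log (f ω)) := by
  classical
  obtain ⟨C, hC, hR⟩ := hRIK d D κ hκ
  refine ⟨C, hC, ?_⟩
  intro Ω _ p Ng N Y P S f hp hdvd hN hY hP hS hex hf hfl
  have hp0 := hp.nonneg
  have hN0 : 0 < N := hN
  choose k hk using hdvd
  have hNg : ∀ i, 0 < Ng i := by
    intro i
    rcases Nat.eq_zero_or_pos (Ng i) with h | h
    · rw [hk i, h, zero_mul] at hN0
      omega
    · exact h
  have hk0 : ∀ i, 0 < k i := by
    intro i
    rcases Nat.eq_zero_or_pos (k i) with h | h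
    · rw [hk i, h, mul_zero] at hN0
      omega
    · exact h
  have : ∀ i, Nonempty (Fin (k i)) := fun i => ⟨⟨0, hk0 i⟩⟩
  obtain ⟨r, hr, m1, hH⟩ := H_unif (𝒰 := (i : Fin d) → Fin (k i)) hp Y
  have hr0 := hr.nonneg
  set Y' : Ω × ((i : Fin d) → Fin (k i)) → Fin d → Fin N := fun w i =>
    if hi : Y w.1 i < Ng i then (⟨Y w.1 i * k i + w.2 i, by
      have h1 := (w.2 i).2
      calc Y w.1 i * k i + w.2 i < Y w.1 i * k i + k i := by omega
        _ = (Y w.1 i + 1) * k i := by ring
        _ ≤ Ng i * k i := Nat.mul_le_mul_right _ hi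
        _ = N := (hk i).symm⟩ : Fin N) else ⟨0, hN0⟩ with hY'
  have hYval : ∀ w, 0 < r w → ∀ i, (Y' w i : ℕ) = Y w.1 i * k i + w.2 i := by
    intro w hw i
    have h1 := hY w.1 (m1.pos hr0 hw) i
    simp only [hY', dif_pos h1]
  have h1 := hR (Ω × ((i : Fin d) → Fin (k i))) r N Y' P S hr
    (fun i => (MvPolynomial.degreeOf_le_totalDegree P i).trans hP) hS hex
  have hlog : Real.log (Fintype.card ((i : Fin d) → Fin (k i)) : ℝ) = ∑ i, Real.log (k i) := by
    rw [Fintype.card_pi]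
    simp only [Fintype.card_fin]
    push_cast
    rw [Real.log_prod]
    intro i _
    have := hk0 i
    positivity
  have hHY : H r Y' = H p Y + ∑ i, Real.log (k i) := by
    rw [← hlog, ← hH]
    refine H_congr hr0 ?_ ?_
    · intro w w' hw hw' he
      have e1 := (Prod.ext_iff.mp he).1
      have e2 := (Prod.ext_iff.mp he).2
      simp only at e1 e2
      funext i
      refine Fin.ext ?_
      rw [hYval w hw i, hYval w' hw' i, e1, e2]
    · intro w w' hw hw' he
      have e3 : ∀ i, Y w.1 i = Y w'.1 i ∧ w.2 i = w'.2 i := by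
        intro i
        have e1 := hYval w hw i
        have e2 := hYval w' hw' i
        rw [he, e2] at e1
        have h5 := (w.2 i).2
        have h6 := (w'.2 i).2
        have h7 : Y w.1 i = Y w'.1 i := by
          have h8 : (Y w'.1 i * k i + w'.2 i) / k i = Y w'.1 i := by
            rw [mul_comm, Nat.mul_add_div (hk0 i), Nat.div_eq_of_lt h6, add_zero]
          have h9 : (Y w.1 i * k i + w.2 i) / k i = Y w.1 i := by
            rw [mul_comm, Nat.mul_add_div (hk0 i), Nat.div_eq_of_lt h5, add_zero]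
          rw [← h9, ← e1, h8]
        refine ⟨h7, Fin.ext ?_⟩
        rw [h7] at e1
        omega
      exact Prod.ext (funext fun i => (e3 i).1) (funext fun i => (e3 i).2)
  have hNlog : (d : ℝ) * Real.log N = (∑ i, Real.log (Ng i)) + ∑ i, Real.log (k i) := by
    rw [← Finset.sum_add_distrib]
    have e1 : ∀ i ∈ (univ : Finset (Fin d)), Real.log (Ng i) + Real.log (k i) = Real.log N := by
      intro i _
      have h5 : (Ng i : ℝ) ≠ 0 := by
        have := hNg i
        positivity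
      have h6 : (k i : ℝ) ≠ 0 := by
        have := hk0 i
        positivity
      rw [← Real.log_mul h5 h6, hk i]
      push_cast
      rfl
    rw [Finset.sum_congr rfl e1, Finset.sum_const, Finset.card_univ, Fintype.card_fin,
      nsmul_eq_mul]
  rw [hHY, hNlog] at h1
  have h2 : Ex r (fun w => Real.log (max
      |MvPolynomial.eval (fun i => ((Y' w i : ℕ) : ℝ) / N) P| (S / (N : ℝ) ^ κ))) ≤
      Ex r (fun w => Real.log (f w.1)) := by
    refine Ex_mono hr0 fun w hw => ?_
    have hw1 := m1.pos hr0 hw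
    have hN' : (0 : ℝ) < N := by exact_mod_cast hN0
    refine Real.log_le_log (lt_of_lt_of_le (by positivity) (le_max_right _ _)) (max_le ?_ ?_)
    · refine hf w.1 hw1 _ ?_
      intro i
      rw [hYval w hw i]
      have h5 : (0 : ℝ) < Ng i := by exact_mod_cast hNg i
      have h6 : (0 : ℝ) < k i := by exact_mod_cast hk0 i
      have h7 : (N : ℝ) = Ng i * k i := by
        have := hk i
        exact_mod_cast this
      have h8 : ((w.2 i : ℕ) : ℝ) ≤ k i := by exact_mod_cast (w.2 i).2.le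
      push_cast
      rw [h7]
      constructor
      · rw [div_le_div_iff₀ h5 (by positivity)]
        have : (0 : ℝ) ≤ ((w.2 i : ℕ) : ℝ) := Nat.cast_nonneg _
        nlinarith
      · rw [div_le_div_iff₀ (by positivity) h5]
        nlinarith
    · exact hfl w.1 hw1
  have h3 : Ex r (fun w => Real.log (f w.1)) = Ex p (fun ω => Real.log (f ω)) :=
    m1.ex (fun ω => Real.log (f ω))
  rw [h3] at h2
  have h4 : (∑ i, Real.log (Ng i)) + ∑ i, Real.log (k i) - (H p Y + ∑ i, Real.log (k i)) =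
      (∑ i, Real.log (Ng i)) - H p Y := by ring
  rw [h4] at h1
  exact h1.trans h2

end Pool.M3F
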