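import Pool.Agent.H37.M3F.Fil

/-!
# Choice of the test polynomial on a cell with a polynomial chart
-/

set_option autoImplicit false

namespace Pool.M3F

open Finset Real
open Pool.KAL Pool.KS3

/-- The supremum of `|Q|` on the chart. -/
noncomputable def csC {d : ℕ} {σ : Type} (Φ : σ → MvPolynomial (Fin d) ℝ)
    (Q : MvPolynomial σ ℝ) : ℝ := cs (fun _ => 0) 1 (MvPolynomial.bind₁ Φ Q)

/-- The chart is bad: no polynomial of degree at most `D` vanishes on the chart, and all the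
derivatives of every such polynomial are small, in the unit `h`. -/
def BadC {d : ℕ} {σ : Type} (D : ℕ) (h η : ℝ) (Φ : σ → MvPolynomial (Fin d) ℝ) : Prop :=
  ∀ Q : MvPolynomial σ ℝ, Q ≠ 0 → Q.totalDegree ≤ D →
    0 < csC Φ Q ∧ ∀ o, h * csC Φ (MvPolynomial.pderiv o Q) ≤ η * csC Φ Q

lemma csC_nonneg {d : ℕ} {σ : Type} (Φ : σ → MvPolynomial (Fin d) ℝ) (Q : MvPolynomial σ ℝ) :
    0 ≤ csC Φ Q := SML.cs_nonneg _ _ _

lemma mem_cube01 {d : ℕ} {u : Fin d → ℝ} (hu : u ∈ ucube d) :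
    u ∈ cube (fun _ : Fin d => (0 : ℝ)) 1 := fun i => ⟨(hu i).1, by
      have := (hu i).2
      linarith⟩

lemma le_csC {d : ℕ} {σ : Type} (Φ : σ → MvPolynomial (Fin d) ℝ) (Q : MvPolynomial σ ℝ)
    {u : Fin d → ℝ} (hu : u ∈ ucube d) : |MvPolynomial.eval (cpt Φ u) Q| ≤ csC Φ Q := by
  rw [← eval_bind]
  exact SML.le_cs zero_le_one _ (mem_cube01 hu)

lemma csC_le {d : ℕ} {σ : Type} (Φ : σ → MvPolynomial (Fin d) ℝ) (Q : MvPolynomial σ ℝ)
    {B : ℝ} (hB : 0 ≤ B) (h : ∀ u ∈ ucube d, |MvPolynomial.eval (cpt Φ u) Q| ≤ B) :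
    csC Φ Q ≤ B := by
  refine SML.cs_le _ hB ?_
  intro u hu
  rw [eval_bind]
  refine h u fun i => ⟨(hu i).1, ?_⟩
  have := (hu i).2
  linarith

/-- The recursion. -/
lemma Psi_le_normC {d : ℕ} {σ : Type} [Fintype σ] (Φ : σ → MvPolynomial (Fin d) ℝ) {h B : ℝ}
    (hh : 0 ≤ h) (hB0 : 0 ≤ B) (D : ℕ)
    (hA : ∀ Q : MvPolynomial σ ℝ, Q.totalDegree ≤ D → ∀ o,
      h * csC Φ (MvPolynomial.pderiv o Q) ≤ B * csC Φ Q) :
    ∀ e, e ≤ D → ∀ Q : MvPolynomial σ ℝ, Q.totalDegree ≤ e → ∀ u ∈ ucube d,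
      Psi Q h (cpt Φ u) ≤ (1 + Fintype.card σ * B) ^ e * csC Φ Q := by
  intro e
  induction e with
  | zero =>
    intro _ Q hQ u hu
    have hQ0 : Q.totalDegree = 0 := by omega
    rw [MvPolynomial.totalDegree_eq_zero_iff_eq_C] at hQ0
    have h1 := le_csC Φ Q hu
    rw [pow_zero, one_mul]
    refine le_trans (le_of_eq ?_) h1
    rw [hQ0]
    unfold Psi shf
    rw [MvPolynomial.aeval_C, MvPolynomial.eval_C]
    exact coefSum_C _
  | succ e ih =>
    intro he Q hQ u hu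
    have h1 := le_csC Φ Q hu
    have hx : 0 ≤ (Fintype.card σ : ℝ) * B := by positivity
    have hp : 0 ≤ (1 + (Fintype.card σ : ℝ) * B) ^ e := by positivity
    have hN := csC_nonneg Φ Q
    have h2 : ∀ o : σ, h * Psi (MvPolynomial.pderiv o Q) h (cpt Φ u) ≤
        (1 + Fintype.card σ * B) ^ e * (B * csC Φ Q) := by
      intro o
      have hdeg : (MvPolynomial.pderiv o Q).totalDegree ≤ e := SML.totalDegree_pderiv_le o Q e hQ
      have h3 := ih (by omega) _ hdeg u hu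
      have h4 := hA Q (by omega) o
      calc h * Psi (MvPolynomial.pderiv o Q) h (cpt Φ u)
          ≤ h * ((1 + Fintype.card σ * B) ^ e * csC Φ (MvPolynomial.pderiv o Q)) :=
            mul_le_mul_of_nonneg_left h3 hh
        _ = (1 + Fintype.card σ * B) ^ e * (h * csC Φ (MvPolynomial.pderiv o Q)) := by ring
        _ ≤ (1 + Fintype.card σ * B) ^ e * (B * csC Φ Q) :=
            mul_le_mul_of_nonneg_left h4 hp
    have h5 := SML.Psi_le_pderiv Q hh (cpt Φ u)
    rw [Finset.mul_sum] at h5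
    have h6 : ∑ o : σ, h * Psi (MvPolynomial.pderiv o Q) h (cpt Φ u) ≤
        Fintype.card σ * ((1 + Fintype.card σ * B) ^ e * (B * csC Φ Q)) := by
      refine (Finset.sum_le_sum fun o _ => h2 o).trans ?_
      rw [Finset.sum_const, Finset.card_univ, nsmul_eq_mul]
    have hone : (1 : ℝ) ≤ (1 + Fintype.card σ * B) ^ e := one_le_pow₀ (by linarith)
    calc Psi Q h (cpt Φ u) ≤ csC Φ Q +
          Fintype.card σ * ((1 + Fintype.card σ * B) ^ e * (B * csC Φ Q)) := by linarith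
      _ ≤ (1 + Fintype.card σ * B) ^ e * csC Φ Q +
          Fintype.card σ * ((1 + Fintype.card σ * B) ^ e * (B * csC Φ Q)) := by nlinarith
      _ = (1 + Fintype.card σ * B) ^ (e + 1) * csC Φ Q := by ring

/-- Counting jets. -/
lemma jetC (σ : Type) [Fintype σ] (d D j : ℕ)
    (hlt : (j + d).choose d < (D + Fintype.card σ).choose (Fintype.card σ))
    (g : σ → MvPolynomial (Fin d) ℝ) :
    ∃ P : MvPolynomial σ ℝ, P ≠ 0 ∧ P.totalDegree ≤ D ∧ ∀ α : Fin d →₀ ℕ, α.degree ≤ j →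
      MvPolynomial.coeff α (MvPolynomial.bind₁ g P) = 0 := by
  classical
  let L₁ : ((JET.B σ D) → ℝ) →ₗ[ℝ] MvPolynomial σ ℝ :=
    Fintype.linearCombination ℝ (fun β : JET.B σ D => MvPolynomial.monomial β.1 (1 : ℝ))
  let L₂ : MvPolynomial σ ℝ →ₗ[ℝ] MvPolynomial (Fin d) ℝ := (MvPolynomial.bind₁ g).toLinearMap
  let L₃ : MvPolynomial (Fin d) ℝ →ₗ[ℝ] ((JET.B (Fin d) j) → ℝ) :=
    LinearMap.pi (fun α : JET.B (Fin d) j => MvPolynomial.lcoeff ℝ α.1)
  have hfr : Module.finrank ℝ ((JET.B (Fin d) j) → ℝ) <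
      Module.finrank ℝ ((JET.B σ D) → ℝ) := by
    rw [Module.finrank_fintype_fun_eq_card, Module.finrank_fintype_fun_eq_card,
      Fintype.card_coe, Fintype.card_coe, JET.card_B, JET.card_B, Fintype.card_fin]
    exact hlt
  have hker : LinearMap.ker (L₃ ∘ₗ L₂ ∘ₗ L₁) ≠ ⊥ := LinearMap.ker_ne_bot_of_finrank_lt hfr
  obtain ⟨c, hc, hc0⟩ := (Submodule.ne_bot_iff _).mp hker
  have hL₁ : L₁ c = ∑ β : JET.B σ D,
      c β • MvPolynomial.monomial β.1 (1 : ℝ) := Fintype.linearCombination_apply _ _ _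
  refine ⟨L₁ c, ?_, ?_, ?_⟩
  · intro h0
    apply hc0
    funext β
    have h1 : MvPolynomial.coeff β.1 (L₁ c) = c β := by
      rw [hL₁, MvPolynomial.coeff_sum, Finset.sum_eq_single β]
      · rw [MvPolynomial.coeff_smul, MvPolynomial.coeff_monomial, if_pos rfl]
        simp
      · intro γ _ hγ
        rw [MvPolynomial.coeff_smul, MvPolynomial.coeff_monomial,
          if_neg (fun h => hγ (Subtype.ext h))]
        simp
      · intro h
        exact absurd (Finset.mem_univ β) h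
    rw [h0] at h1
    rw [← h1]
    simp
  · rw [← MvPolynomial.mem_restrictTotalDegree, hL₁]
    refine Submodule.sum_mem _ fun β _ => Submodule.smul_mem _ _ ?_
    rw [MvPolynomial.mem_restrictTotalDegree]
    refine (MvPolynomial.totalDegree_monomial_le _ _).trans ?_
    exact JET.mem_B.mp β.2
  · intro α hα
    have h1 : (L₃ ∘ₗ L₂ ∘ₗ L₁) c = 0 := hc
    exact congrFun h1 (⟨α, JET.mem_B.mpr hα⟩ : JET.B (Fin d) j)

/-- Choice of the test polynomial on a bad chart. -/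
theorem sml_chart (σ : Type) [Fintype σ] (d D j k₀ : ℕ)
    (hch : (j + d).choose d < (D + Fintype.card σ).choose (Fintype.card σ)) :
    ∃ C : ℝ, 1 ≤ C ∧ ∀ (C₀ K h : ℝ) (Φ : σ → MvPolynomial (Fin d) ℝ) (a' : Fin d → ℝ),
      1 ≤ C₀ → 1 ≤ K → 0 ≤ h → (∀ o, (Φ o).totalDegree ≤ k₀) → BadC D h (C₀ / K ^ (j + 1)) Φ →
      (∀ i, 0 ≤ a' i ∧ a' i + 1 / K ≤ 1) →
      ∃ P : MvPolynomial σ ℝ, P ≠ 0 ∧ P.totalDegree ≤ D ∧ csC Φ P = 1 ∧
        ∀ u : Fin d → ℝ, (∀ i, a' i ≤ u i ∧ u i ≤ a' i + 1 / K) → ∀ z : σ → ℝ,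
          (∀ o, |z o - cpt Φ u o| ≤ h) → Psi P h z ≤ C * C₀ ^ (D + 1) / K ^ (j + 1) := by
  classical
  set E : ℕ := k₀ * D with hE
  obtain ⟨K₁, hK₁, hcen⟩ := SML.psi_center_le d E
  obtain ⟨CT, hCT0, hTay⟩ := tay_thm d E j
  set m : ℝ := (Fintype.card σ : ℝ) with hm
  have hm0 : 0 ≤ m := by positivity
  set M₁ : ℝ := 3 ^ E * K₁ with hM₁
  have hK₁0 : 0 ≤ K₁ := by linarith
  have hM₁0 : 0 ≤ M₁ := by positivity
  refine ⟨2 ^ D * (CT * M₁ + m * (1 + m) ^ D) + 1, ?_, ?_⟩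
  · have : 0 ≤ 2 ^ D * (CT * M₁ + m * (1 + m) ^ D) := by positivity
    linarith
  intro C₀ K h Φ a' hC₀1 hK hh0 hΦ hbad haa
  have hC₀ : 0 ≤ C₀ := by linarith
  set c : ℝ := (1 + m * C₀) ^ D with hc
  have hc0 : 0 ≤ c := by positivity
  have hK0 : 0 < K := by linarith
  have hKj : 0 < K ^ (j + 1) := by positivity
  have hKj1 : 1 ≤ K ^ (j + 1) := one_le_pow₀ hK
  have hdeg : ∀ Q : MvPolynomial σ ℝ, Q.totalDegree ≤ D →
      (MvPolynomial.bind₁ Φ Q).totalDegree ≤ E := fun Q hQ =>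
    (SML.totalDegree_bind_le Φ k₀ hΦ Q).trans (Nat.mul_le_mul_left _ hQ)
  have hder : ∀ Q : MvPolynomial σ ℝ, Q.totalDegree ≤ D → ∀ o,
      h * csC Φ (MvPolynomial.pderiv o Q) ≤ C₀ / K ^ (j + 1) * csC Φ Q := by
    intro Q hQ o
    by_cases hQ0 : Q = 0
    · subst hQ0
      rw [map_zero]
      have e : csC Φ (0 : MvPolynomial σ ℝ) = 0 := by
        refine le_antisymm (csC_le Φ _ le_rfl ?_) (csC_nonneg _ _)
        intro u _
        rw [map_zero, abs_zero]
      rw [e, mul_zero, mul_zero]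
    · exact (hbad Q hQ0 hQ).2 o
  have hη : C₀ / K ^ (j + 1) ≤ C₀ := div_le_self hC₀ hKj1
  have hder' : ∀ Q : MvPolynomial σ ℝ, Q.totalDegree ≤ D → ∀ o,
      h * csC Φ (MvPolynomial.pderiv o Q) ≤ C₀ * csC Φ Q := fun Q hQ o =>
    (hder Q hQ o).trans (mul_le_mul_of_nonneg_right hη (csC_nonneg _ _))
  have hrec := Psi_le_normC Φ hh0 hC₀ D hder'
  -- the polynomial
  obtain ⟨P₀, hP₀, hP₀D, hP₀c⟩ := jetC σ d D j hch (fun o => MvPolynomial.bind₁
    (fun i => MvPolynomial.X i + MvPolynomial.C (a' i)) (Φ o))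
  have hpos : 0 < csC Φ P₀ := (hbad P₀ hP₀ hP₀D).1
  set r : ℝ := (csC Φ P₀)⁻¹ with hr
  have hr0 : r ≠ 0 := inv_ne_zero hpos.ne'
  set P : MvPolynomial σ ℝ := MvPolynomial.C r * P₀ with hP
  have hPne : P ≠ 0 := by
    rw [hP]
    refine mul_ne_zero ?_ hP₀
    rw [Ne, MvPolynomial.C_eq_zero]
    exact hr0
  have hPD : P.totalDegree ≤ D := by
    rw [hP]
    refine (MvPolynomial.totalDegree_mul _ _).trans ?_
    rw [MvPolynomial.totalDegree_C, zero_add]
    exact hP₀D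
  have hbP : MvPolynomial.bind₁ Φ P = MvPolynomial.C r * MvPolynomial.bind₁ Φ P₀ := by
    rw [hP, map_mul, MvPolynomial.bind₁_C_right]
  have hcs1 : csC Φ P = 1 := by
    unfold csC
    rw [hbP, SML.cs_C_mul _ zero_le_one hr0]
    have : cs (fun _ : Fin d => (0 : ℝ)) 1 (MvPolynomial.bind₁ Φ P₀) = csC Φ P₀ := rfl
    rw [this, hr, abs_of_pos (inv_pos.2 hpos), inv_mul_cancel₀ hpos.ne']
  refine ⟨P, hPne, hPD, hcs1, ?_⟩
  intro u hu z hzu
  have huc : u ∈ ucube d := by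
    intro i
    have h1 := hu i
    have h2 := haa i
    constructor
    · linarith [h1.1, h2.1]
    · linarith [h1.2, h2.2]
  -- smallness on the chart
  have hsmall : |MvPolynomial.eval (cpt Φ u) P| ≤ CT * M₁ / K ^ (j + 1) := by
    rw [← eval_bind]
    set R : MvPolynomial (Fin d) ℝ := shf (MvPolynomial.bind₁ Φ P) 1 a' with hR
    have hbdeg : (MvPolynomial.bind₁ Φ P).totalDegree ≤ E := hdeg P hPD
    have hRdeg : R.totalDegree ≤ E := (totalDegree_shf_le _ _ _).trans hbdeg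
    have hRc : ∀ α : Fin d →₀ ℕ, α.degree ≤ j → MvPolynomial.coeff α R = 0 := by
      intro α hα
      have e1 : shf (MvPolynomial.bind₁ Φ P₀) 1 a' = MvPolynomial.bind₁
          (fun o => MvPolynomial.bind₁ (fun i => MvPolynomial.X i + MvPolynomial.C (a' i)) (Φ o))
          P₀ := by
        unfold shf
        rw [SML.aeval_shift, MvPolynomial.bind₁_bind₁]
      rw [hR, hbP, SML.shf_C_mul, e1, MvPolynomial.coeff_C_mul, hP₀c α hα, mul_zero]
    have hRM : ∀ w : Fin d → ℝ, (∀ i, |w i| ≤ 1) → |MvPolynomial.eval w R| ≤ M₁ := by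
      intro w hw
      rw [hR, eval_shf]
      have h1 := SML.enlarge E K₁ hcen (fun _ => 0) zero_lt_one (MvPolynomial.bind₁ Φ P) hbdeg
        (y := fun i => a' i + 1 * w i) (by
        intro i
        have h2 := haa i
        have h3 := hw i
        rw [abs_le] at h3
        have h4 : 0 ≤ 1 / K := by positivity
        constructor <;> linarith [h2.1, h2.2])
      have e2 : cs (fun _ : Fin d => (0 : ℝ)) 1 (MvPolynomial.bind₁ Φ P) = 1 := hcs1
      rw [e2, mul_one] at h1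
      exact h1
    have h8 := hTay R (1 / K) M₁ hRdeg hRc (by positivity) (by
      rw [div_le_one hK0]
      exact hK) hRM (fun i => u i - a' i) (by
        intro i
        have h1 := hu i
        rw [abs_of_nonneg (by linarith [h1.1])]
        linarith [h1.2])
    rw [hR, eval_shf] at h8
    have e5 : (fun i => a' i + 1 * (u i - a' i)) = u := by
      funext i
      ring
    rw [e5] at h8
    refine h8.trans (le_of_eq ?_)
    rw [div_pow, one_pow]
    ring
  -- at the point of the chart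
  have hg : Psi P h (cpt Φ u) ≤ (CT * M₁ + m * c * C₀) / K ^ (j + 1) := by
    have h1 := SML.Psi_le_pderiv P hh0 (cpt Φ u)
    rw [Finset.mul_sum] at h1
    have h2 : ∀ o : σ, h * Psi (MvPolynomial.pderiv o P) h (cpt Φ u) ≤
        c * (C₀ / K ^ (j + 1)) := by
      intro o
      have h3 := hrec D le_rfl (MvPolynomial.pderiv o P)
        (SML.totalDegree_pderiv_le o P D (by omega)) u huc
      have h4 := hder P hPD o
      rw [hcs1, mul_one] at h4
      calc h * Psi (MvPolynomial.pderiv o P) h (cpt Φ u)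
          ≤ h * (c * csC Φ (MvPolynomial.pderiv o P)) := mul_le_mul_of_nonneg_left h3 hh0
        _ = c * (h * csC Φ (MvPolynomial.pderiv o P)) := by ring
        _ ≤ c * (C₀ / K ^ (j + 1)) := mul_le_mul_of_nonneg_left h4 hc0
    have h5 : ∑ o : σ, h * Psi (MvPolynomial.pderiv o P) h (cpt Φ u) ≤
        m * (c * (C₀ / K ^ (j + 1))) := by
      refine (Finset.sum_le_sum fun o _ => h2 o).trans ?_
      rw [Finset.sum_const, Finset.card_univ, nsmul_eq_mul]
    calc Psi P h (cpt Φ u) ≤ CT * M₁ / K ^ (j + 1) + m * (c * (C₀ / K ^ (j + 1))) := by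
          linarith
      _ = (CT * M₁ + m * c * C₀) / K ^ (j + 1) := by ring
  have hnear : Psi P h z ≤ 2 ^ P.totalDegree * Psi P h (cpt Φ u) :=
    Psi_le_of_near P h hh0 (cpt Φ u) z hzu
  have h9 : (2 : ℝ) ^ P.totalDegree ≤ 2 ^ D := pow_le_pow_right₀ (by norm_num) hPD
  calc Psi P h z ≤ 2 ^ P.totalDegree * Psi P h (cpt Φ u) := hnear
    _ ≤ 2 ^ D * ((CT * M₁ + m * c * C₀) / K ^ (j + 1)) :=
        mul_le_mul h9 hg (Psi_nonneg _ _ _) (by positivity)
    _ = 2 ^ D * (CT * M₁ + m * c * C₀) / K ^ (j + 1) := by ring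
    _ ≤ (2 ^ D * (CT * M₁ + m * (1 + m) ^ D) + 1) * C₀ ^ (D + 1) / K ^ (j + 1) := by
        refine (div_le_div_iff_of_pos_right hKj).2 ?_
        have k1 : c ≤ (1 + m) ^ D * C₀ ^ D := by
          rw [hc, ← mul_pow]
          exact pow_le_pow_left₀ (by positivity) (by nlinarith) D
        have k2 : (1 : ℝ) ≤ C₀ ^ (D + 1) := one_le_pow₀ hC₀1
        have k3 : m * c * C₀ ≤ m * (1 + m) ^ D * C₀ ^ (D + 1) := by
          calc m * c * C₀ ≤ m * ((1 + m) ^ D * C₀ ^ D) * C₀ :=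
                mul_le_mul_of_nonneg_right (mul_le_mul_of_nonneg_left k1 hm0) hC₀
            _ = m * (1 + m) ^ D * C₀ ^ (D + 1) := by ring
        have k4 : CT * M₁ ≤ CT * M₁ * C₀ ^ (D + 1) :=
          le_mul_of_one_le_right (by positivity) k2
        have k5 : 2 ^ D * (CT * M₁ + m * c * C₀) ≤
            2 ^ D * (CT * M₁ * C₀ ^ (D + 1) + m * (1 + m) ^ D * C₀ ^ (D + 1)) :=
          mul_le_mul_of_nonneg_left (add_le_add k4 k3) (by positivity)
        refine k5.trans ?_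
        nlinarith

end Pool.M3F
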