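import Pool.Agent.H37.M3F.Cor

/-!
# Triangular charts

The chart of a natural box: the base coordinate `i` is `G i (U) + w i * U i`, where `G i` depends
only on the coordinates before `i`; the passive coordinate is `F (U)`. Badness in the passive
direction gives badness in all the directions.
-/

set_option autoImplicit false

namespace Pool.M3F

open Finset Real
open Pool.Agent.H49.Ent Pool.Agent.H32.Dense Pool.STK Pool.KAF Pool.KAL Pool.KS3

/-- The triangular chart. -/
noncomputable def triC {d : ℕ} (G : Fin d → MvPolynomial (Fin d) ℝ) (w : Fin d → ℝ)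
    (F : MvPolynomial (Fin d) ℝ) : Option (Fin d) → MvPolynomial (Fin d) ℝ :=
  fun o => o.elim F (fun i => G i + MvPolynomial.C (w i) * MvPolynomial.X i)

/-- A triangular chart with natural sizes: a step in the direction `i` moves the point by at most
`C₀ / M`, and the coordinate `i` moves by about this amount. -/
structure Tri {d : ℕ} (k₀ : ℕ) (C₀ : ℝ) (M : ℕ) (Ng : Fin d → ℕ)
    (G : Fin d → MvPolynomial (Fin d) ℝ) (w : Fin d → ℝ) (F : MvPolynomial (Fin d) ℝ) :
    Prop where
  pos : ∀ i, 1 ≤ Ng i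
  le : ∀ i, (Ng i : ℝ) ≤ C₀ * M
  degG : ∀ i, (G i).totalDegree ≤ k₀
  degF : F.totalDegree ≤ k₀
  tri : ∀ i i', i ≤ i' → MvPolynomial.pderiv i' (G i) = 0
  w_pos : ∀ i, 0 < w i
  w_le : ∀ i, w i ≤ C₀ * (Ng i / M)
  le_w : ∀ i, (Ng i : ℝ) / M ≤ C₀ * w i
  slope : ∀ u ∈ ucube d, ∀ i i', |MvPolynomial.eval u (MvPolynomial.pderiv i (G i'))| ≤
    C₀ * (Ng i / M)
  slopeF : ∀ u ∈ ucube d, ∀ i, |MvPolynomial.eval u (MvPolynomial.pderiv i F)| ≤
    C₀ * (Ng i / M)

/-- No polynomial of degree at most `D` is smaller on the chart than `lm` times its derivative in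
the passive direction. -/
def BadN {d : ℕ} (D : ℕ) (lm : ℝ) (Φ : Option (Fin d) → MvPolynomial (Fin d) ℝ) : Prop :=
  ∀ Q : MvPolynomial (Option (Fin d)) ℝ, Q ≠ 0 → Q.totalDegree ≤ D →
    lm * csC Φ (MvPolynomial.pderiv none Q) < csC Φ Q

/-- The chain rule. -/
lemma pderiv_bind {d : ℕ} {σ : Type} [Fintype σ] (Φ : σ → MvPolynomial (Fin d) ℝ) (i : Fin d)
    (Q : MvPolynomial σ ℝ) : MvPolynomial.pderiv i (MvPolynomial.bind₁ Φ Q) =
      ∑ o, MvPolynomial.bind₁ Φ (MvPolynomial.pderiv o Q) * MvPolynomial.pderiv i (Φ o) := by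
  classical
  induction Q using MvPolynomial.induction_on with
  | C r => simp
  | add p q hp hq =>
    rw [map_add, map_add, hp, hq, ← Finset.sum_add_distrib]
    refine Finset.sum_congr rfl fun o _ => ?_
    rw [map_add, map_add]
    ring
  | mul_X p k hp =>
    rw [map_mul, MvPolynomial.bind₁_X_right, Derivation.leibniz, hp, smul_eq_mul, smul_eq_mul]
    have e1 : ∀ o : σ, MvPolynomial.bind₁ Φ (MvPolynomial.pderiv o (p * MvPolynomial.X k)) *
        MvPolynomial.pderiv i (Φ o) = Φ k * (MvPolynomial.bind₁ Φ (MvPolynomial.pderiv o p) *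
          MvPolynomial.pderiv i (Φ o)) + (if o = k then MvPolynomial.bind₁ Φ p *
            MvPolynomial.pderiv i (Φ o) else 0) := by
      intro o
      rw [Derivation.leibniz, MvPolynomial.pderiv_X, smul_eq_mul, smul_eq_mul, map_add, map_mul,
        map_mul, MvPolynomial.bind₁_X_right]
      by_cases ho : o = k
      · subst ho
        rw [Pi.single_eq_same, if_pos rfl, map_one]
        ring
      · rw [if_neg ho, Pi.single_eq_of_ne (Ne.symm ho), map_zero]
        ring
    simp only [e1, Finset.sum_add_distrib, Finset.sum_ite_eq', Finset.mem_univ, if_true]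
    rw [Finset.mul_sum]
    ring

/-- Mean value inequality, directions separately. -/
lemma mean_dir {d : ℕ} (R : MvPolynomial (Fin d) ℝ) (B : Fin d → ℝ)
    (h : ∀ u ∈ ucube d, ∀ i, |MvPolynomial.eval u (MvPolynomial.pderiv i R)| ≤ B i)
    {u u' : Fin d → ℝ} (hu : u ∈ ucube d) (hu' : u' ∈ ucube d) :
    |MvPolynomial.eval u' R - MvPolynomial.eval u R| ≤ ∑ i, B i * |u' i - u i| := by
  set f : Fin d → Polynomial ℝ := fun i =>
    Polynomial.C (u i) + Polynomial.X * Polynomial.C (u' i - u i) with hf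
  set g : Polynomial ℝ := MvPolynomial.aeval f R with hg
  have hev : ∀ (P : MvPolynomial (Fin d) ℝ) (t : ℝ),
      (MvPolynomial.aeval f P : Polynomial ℝ).eval t =
        MvPolynomial.eval (fun i => u i + t * (u' i - u i)) P := by
    intro P t
    induction P using MvPolynomial.induction_on with
    | C a => simp
    | add p q hp hq => simp only [map_add, Polynomial.eval_add, hp, hq]
    | mul_X p k hp =>
      rw [map_mul, map_mul, Polynomial.eval_mul, hp]
      simp [hf]
  have hmem : ∀ t ∈ Set.Icc (0 : ℝ) 1, (fun i => u i + t * (u' i - u i)) ∈ ucube d := by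
    intro t ht i
    have h1 := hu i
    have h2 := hu' i
    constructor
    · nlinarith [ht.1, ht.2, h1.1, h2.1]
    · nlinarith [ht.1, ht.2, h1.2, h2.2]
  obtain ⟨c, hc, hc'⟩ := exists_hasDerivAt_eq_slope (fun t => g.eval t)
    (fun t => g.derivative.eval t) (show (0 : ℝ) < 1 by norm_num) g.continuous.continuousOn
    (fun t _ => g.hasDerivAt t)
  have e0 : g.eval 0 = MvPolynomial.eval u R := by
    rw [hg, hev]
    have : (fun i => u i + 0 * (u' i - u i)) = u := by
      funext i
      ring
    rw [this]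
  have e1 : g.eval 1 = MvPolynomial.eval u' R := by
    rw [hg, hev]
    have : (fun i => u i + 1 * (u' i - u i)) = u' := by
      funext i
      ring
    rw [this]
  have hc2 : MvPolynomial.eval u' R - MvPolynomial.eval u R = g.derivative.eval c := by
    rw [hc', ← e0, ← e1]
    simp
  rw [hc2, hg, der_line, Polynomial.eval_finsetSum]
  refine (Finset.abs_sum_le_sum_abs _ _).trans ?_
  refine Finset.sum_le_sum fun i _ => ?_
  rw [Polynomial.eval_mul, abs_mul, hev]
  have : (Polynomial.derivative (f i)).eval c = u' i - u i := by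
    simp [hf]
  rw [this]
  exact mul_le_mul_of_nonneg_right (h _ (hmem c ⟨hc.1.le, hc.2.le⟩) i) (abs_nonneg _)

lemma Tri.dle {d k₀ : ℕ} {C₀ : ℝ} {M : ℕ} {Ng : Fin d → ℕ} {G : Fin d → MvPolynomial (Fin d) ℝ}
    {w : Fin d → ℝ} {F : MvPolynomial (Fin d) ℝ} (hT : Tri k₀ C₀ M Ng G w F)
    (u : Fin d → ℝ) (hu : u ∈ ucube d) (i : Fin d) (o : Option (Fin d)) :
    |MvPolynomial.eval u (MvPolynomial.pderiv i (triC G w F o))| ≤ 2 * C₀ * (Ng i / M) := by
  classical
  have h0 : 0 ≤ C₀ * (Ng i / M) := (abs_nonneg _).trans (hT.slopeF u hu i)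
  cases o with
  | none =>
    refine (hT.slopeF u hu i).trans ?_
    linarith
  | some i' =>
    have e1 : triC G w F (some i') = G i' + MvPolynomial.C (w i') * MvPolynomial.X i' := rfl
    rw [e1, map_add, Derivation.leibniz, MvPolynomial.pderiv_X, MvPolynomial.pderiv_C, smul_eq_mul,
      smul_eq_mul, mul_zero, add_zero, map_add, map_mul, MvPolynomial.eval_C]
    have h1 := hT.slope u hu i i'
    by_cases hi : i' = i
    · subst hi
      rw [Pi.single_eq_same, map_one, mul_one]
      have h2 := hT.w_le i'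
      have h3 := hT.w_pos i'
      refine (abs_add_le _ _).trans ?_
      rw [abs_of_pos h3]
      linarith
    · rw [Pi.single_eq_of_ne hi, map_zero, mul_zero, add_zero]
      linarith

/-- A triangular chart is a chart. -/
lemma Tri.chartOK {d k₀ : ℕ} {C₀ : ℝ} {M : ℕ} {Ng : Fin d → ℕ}
    {G : Fin d → MvPolynomial (Fin d) ℝ} {w : Fin d → ℝ} {F : MvPolynomial (Fin d) ℝ}
    (hC₀ : 1 ≤ C₀) (hM : 1 ≤ M) (hT : Tri k₀ C₀ M Ng G w F) :
    ChartOK (k₀ + 1) ((2 * d + 1) * C₀ ^ 2) M Ng (triC G w F) := by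
  classical
  have hM0 : (0 : ℝ) < M := by exact_mod_cast hM
  have hd0 : (0 : ℝ) ≤ d := Nat.cast_nonneg d
  have hN0 : ∀ i, (0 : ℝ) < Ng i := fun i => by exact_mod_cast hT.pos i
  have key : ∀ u ∈ ucube d, ∀ u' ∈ ucube d, ∀ o,
      |cpt (triC G w F) u o - cpt (triC G w F) u' o| ≤
        ∑ i, 2 * C₀ * (Ng i / M) * |u i - u' i| := fun u hu u' hu' o =>
    mean_dir (triC G w F o) (fun i => 2 * C₀ * (Ng i / M))
      (fun y hy i => hT.dle y hy i o) hu' hu
  refine ⟨hT.pos, ?_, ?_, ?_⟩
  · intro o
    cases o with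
    | none => exact hT.degF.trans (Nat.le_succ _)
    | some i =>
      have e1 : triC G w F (some i) = G i + MvPolynomial.C (w i) * MvPolynomial.X i := rfl
      rw [e1]
      refine (MvPolynomial.totalDegree_add _ _).trans (max_le ((hT.degG i).trans (Nat.le_succ _)) ?_)
      refine (MvPolynomial.totalDegree_mul _ _).trans ?_
      rw [MvPolynomial.totalDegree_C, zero_add, MvPolynomial.totalDegree_X]
      omega
  · intro u hu u' hu' hst o
    refine (key u hu u' hu' o).trans ?_
    calc ∑ i, 2 * C₀ * ((Ng i : ℝ) / M) * |u i - u' i| ≤ ∑ _i : Fin d, 2 * C₀ / M := by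
          refine Finset.sum_le_sum fun i _ => ?_
          have h1 := hN0 i
          calc 2 * C₀ * ((Ng i : ℝ) / M) * |u i - u' i|
              ≤ 2 * C₀ * ((Ng i : ℝ) / M) * (1 / Ng i) :=
                mul_le_mul_of_nonneg_left (hst i) (by positivity)
            _ = 2 * C₀ / M := by field_simp
      _ = d * (2 * C₀ / M) := by
          rw [Finset.sum_const, Finset.card_univ, Fintype.card_fin, nsmul_eq_mul]
      _ ≤ (2 * d + 1) * C₀ ^ 2 / M := by
          rw [← mul_div_assoc]
          refine div_le_div_of_nonneg_right ?_ hM0.le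
          have h5 : C₀ ≤ C₀ ^ 2 := by nlinarith
          have h6 := mul_le_mul_of_nonneg_left h5 hd0
          nlinarith
  · intro u hu u' hu' o
    refine (key u hu u' hu' o).trans ?_
    calc ∑ i, 2 * C₀ * ((Ng i : ℝ) / M) * |u i - u' i| ≤ ∑ _i : Fin d, 2 * C₀ * C₀ := by
          refine Finset.sum_le_sum fun i _ => ?_
          have h1 := hN0 i
          have h2 : (Ng i : ℝ) / M ≤ C₀ := by
            rw [div_le_iff₀ hM0]
            exact hT.le i
          have h3 : |u i - u' i| ≤ 1 := by
            have h4 := hu i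
            have h5 := hu' i
            rw [abs_le]
            constructor <;> linarith [h4.1, h4.2, h5.1, h5.2]
          calc 2 * C₀ * ((Ng i : ℝ) / M) * |u i - u' i|
              ≤ 2 * C₀ * ((Ng i : ℝ) / M) * 1 :=
                mul_le_mul_of_nonneg_left h3 (by positivity)
            _ = 2 * C₀ * ((Ng i : ℝ) / M) := by ring
            _ ≤ 2 * C₀ * C₀ := mul_le_mul_of_nonneg_left h2 (by positivity)
      _ = d * (2 * C₀ * C₀) := by
          rw [Finset.sum_const, Finset.card_univ, Fintype.card_fin, nsmul_eq_mul]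
      _ ≤ (2 * d + 1) * C₀ ^ 2 := by nlinarith

/-- Badness in the passive direction gives badness in all the directions. -/
theorem tri_bad (d D k₀ : ℕ) : ∃ C₁ : ℝ, 1 ≤ C₁ ∧
    ∀ (C₀ : ℝ) (M : ℕ) (E : ℝ) (Ng : Fin d → ℕ) (G : Fin d → MvPolynomial (Fin d) ℝ) (w : Fin d → ℝ)
      (F : MvPolynomial (Fin d) ℝ), 1 ≤ C₀ → 1 ≤ M → 0 < E → Tri k₀ C₀ M Ng G w F →
      (∀ i, E ≤ Ng i) → BadN D (E / M) (triC G w F) →
      BadC D ((2 * d + 1) * C₀ ^ 2 / M) (C₁ * C₀ ^ (2 * d + 2) / E) (triC G w F) := by
  classical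
  set E₀ : ℕ := (k₀ + 1) * D with hE₀
  obtain ⟨K₁, hK₁, hcen⟩ := SML.psi_center_le d E₀
  set Cm : ℝ := 2 * E₀ * K₁ * (1 / 1) with hCm
  have hCm0 : 0 ≤ Cm := by positivity
  set b' : ℕ → ℝ := fun e => Nat.rec 0 (fun _ B => Cm + 1 + (d + 1) * B) e
    with hb'
  have hb'0 : ∀ e, 0 ≤ b' e := by
    intro e
    induction e with
    | zero => exact le_rfl
    | succ e ih =>
      have e1 : b' (e + 1) = Cm + 1 + (d + 1) * b' e := rfl
      rw [e1]
      positivity
  have hb's : ∀ e, b' (e + 1) = Cm + 1 + (d + 1) * b' e := fun e => rfl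
  have hd0 : (0 : ℝ) ≤ d := Nat.cast_nonneg d
  refine ⟨(2 * d + 1) * (1 + b' d), by
    have := hb'0 d
    nlinarith, ?_⟩
  intro C₀ M E Ng G w F hC₀ hM hE hT hNg hbad
  have hC2 : (1 : ℝ) ≤ C₀ ^ 2 := one_le_pow₀ hC₀
  set b : ℕ → ℝ := fun e => b' e * C₀ ^ (2 * e) with hb
  have hb0 : ∀ e, 0 ≤ b e := by
    intro e
    have := hb'0 e
    simp only [hb]
    positivity
  have hbs : ∀ e, C₀ * Cm + C₀ ^ 2 + (C₀ ^ 2 * d + 1) * b e ≤ b (e + 1) := by
    intro e
    have h0 := hb'0 e
    have h1 : (1 : ℝ) ≤ C₀ ^ (2 * e) := one_le_pow₀ hC₀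
    have e1 : b (e + 1) = C₀ ^ 2 * C₀ ^ (2 * e) * (Cm + 1) +
        (d + 1) * C₀ ^ 2 * (b' e * C₀ ^ (2 * e)) := by
      simp only [hb]
      rw [hb's, show 2 * (e + 1) = 2 + 2 * e by ring, pow_add]
      ring
    rw [e1]
    have h2 : C₀ * Cm + C₀ ^ 2 ≤ C₀ ^ 2 * C₀ ^ (2 * e) * (Cm + 1) := by
      have h3 : C₀ ≤ C₀ ^ 2 := by nlinarith
      have h4 : C₀ * Cm ≤ C₀ ^ 2 * Cm := mul_le_mul_of_nonneg_right h3 hCm0
      have h5 : C₀ ^ 2 * (Cm + 1) * 1 ≤ C₀ ^ 2 * (Cm + 1) * C₀ ^ (2 * e) :=
        mul_le_mul_of_nonneg_left h1 (by positivity)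
      nlinarith
    have h3 : (C₀ ^ 2 * d + 1) * b e ≤ (d + 1) * C₀ ^ 2 * (b' e * C₀ ^ (2 * e)) := by
      have h4 : C₀ ^ 2 * d + 1 ≤ (d + 1) * C₀ ^ 2 := by nlinarith
      have h5 : b e = b' e * C₀ ^ (2 * e) := rfl
      rw [← h5]
      exact mul_le_mul_of_nonneg_right h4 (hb0 e)
    linarith
  set Φ := triC G w F with hΦ
  have hM0 : (0 : ℝ) < M := by exact_mod_cast hM
  have hN0 : ∀ i, (0 : ℝ) < Ng i := fun i => by exact_mod_cast hT.pos i
  have hch := hT.chartOK hC₀ hM
  intro Q hQ hQD
  have h1 := hbad Q hQ hQD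
  have hpos : 0 < csC Φ Q := by
    refine lt_of_le_of_lt ?_ h1
    exact mul_nonneg (by positivity) (csC_nonneg _ _)
  refine ⟨hpos, ?_⟩
  set S : ℝ := csC Φ Q with hS
  -- the passive direction
  have hnone : 1 / M * csC Φ (MvPolynomial.pderiv none Q) ≤ S / E := by
    rw [le_div_iff₀ hE]
    calc 1 / M * csC Φ (MvPolynomial.pderiv none Q) * E =
          E / M * csC Φ (MvPolynomial.pderiv none Q) := by ring
      _ ≤ S := h1.le
  -- the base directions
  have hstep : ∀ i : Fin d, ∀ β : ℝ, 0 ≤ β →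
      (∀ i' : Fin d, i < i' → 1 / M * csC Φ (MvPolynomial.pderiv (some i') Q) ≤ β * (S / E)) →
      1 / M * csC Φ (MvPolynomial.pderiv (some i) Q) ≤
        (C₀ * Cm + C₀ ^ 2 + C₀ ^ 2 * d * β) * (S / E) := by
    intro i β hβ hi'
    have hSE : 0 ≤ S / E := by positivity
    have hbd : 0 ≤ (M : ℝ) * ((C₀ * Cm + C₀ ^ 2 + C₀ ^ 2 * d * β) * (S / E)) := by positivity
    have h2 : csC Φ (MvPolynomial.pderiv (some i) Q) ≤
        M * ((C₀ * Cm + C₀ ^ 2 + C₀ ^ 2 * d * β) * (S / E)) := by
      refine csC_le Φ _ hbd ?_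
      intro u hu
      set a : Option (Fin d) → ℝ := fun o =>
        MvPolynomial.eval (cpt Φ u) (MvPolynomial.pderiv o Q) with ha
      have hle : ∀ o, |a o| ≤ csC Φ (MvPolynomial.pderiv o Q) := fun o => le_csC Φ _ hu
      -- the chain rule at the point
      have h3 := SML.markov E₀ K₁ hcen (fun _ => 0) zero_lt_one (MvPolynomial.bind₁ Φ Q)
        ((SML.totalDegree_bind_le Φ (k₀ + 1) hch.deg Q).trans (Nat.mul_le_mul_left _ hQD)) i
        (mem_cube01 hu)
      rw [pderiv_bind] at h3
      rw [map_sum, Fintype.sum_option] at h3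
      simp only [map_mul, eval_bind] at h3
      have e1 : ∀ i' : Fin d, MvPolynomial.eval u (MvPolynomial.pderiv i (Φ (some i'))) =
          (if i < i' then MvPolynomial.eval u (MvPolynomial.pderiv i (G i')) else 0) +
            (if i = i' then w i' else 0) := by
        intro i'
        have e2 : Φ (some i') = G i' + MvPolynomial.C (w i') * MvPolynomial.X i' := rfl
        rw [e2, map_add, Derivation.leibniz, MvPolynomial.pderiv_X, MvPolynomial.pderiv_C,
          smul_eq_mul, smul_eq_mul, mul_zero, add_zero, map_add, map_mul, MvPolynomial.eval_C]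
        by_cases hii : i < i'
        · rw [if_pos hii, if_neg hii.ne, Pi.single_eq_of_ne hii.ne', map_zero, mul_zero]
        · rw [if_neg hii, hT.tri i' i (not_lt.mp hii), map_zero]
          by_cases hi2 : i = i'
          · subst hi2
            rw [if_pos rfl, Pi.single_eq_same, map_one, mul_one]
          · rw [if_neg hi2, Pi.single_eq_of_ne (fun h => hi2 h.symm), map_zero, mul_zero]
      simp only [e1, mul_add, Finset.sum_add_distrib] at h3
      have e3 : ∑ i' : Fin d, MvPolynomial.eval (cpt Φ u) (MvPolynomial.pderiv (some i') Q) *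
          (if i = i' then w i' else 0) = a (some i) * w i := by
        rw [Finset.sum_eq_single i]
        · rw [if_pos rfl]
        · intro i' _ hi2
          rw [if_neg (fun h => hi2 h.symm), mul_zero]
        · intro h
          exact absurd (Finset.mem_univ i) h
      rw [e3] at h3
      have e4 : MvPolynomial.pderiv i (Φ none) = MvPolynomial.pderiv i F := rfl
      rw [e4] at h3
      have hcs : cs (fun _ : Fin d => (0 : ℝ)) 1 (MvPolynomial.bind₁ Φ Q) = S := rfl
      rw [hcs] at h3
      change _ ≤ Cm * S at h3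
      -- the bounds of the terms
      have t1 : |MvPolynomial.eval (cpt Φ u) (MvPolynomial.pderiv none Q) *
          MvPolynomial.eval u (MvPolynomial.pderiv i F)| ≤
          (M * (S / E)) * (C₀ * (Ng i / M)) := by
        rw [abs_mul]
        refine mul_le_mul ((hle none).trans ?_) (hT.slopeF u hu i) (abs_nonneg _) (by positivity)
        have := mul_le_mul_of_nonneg_left hnone hM0.le
        rw [← mul_assoc] at this
        have e5 : (M : ℝ) * (1 / M) = 1 := by field_simp
        rw [e5, one_mul] at this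
        exact this
      have t2 : |∑ i' : Fin d, MvPolynomial.eval (cpt Φ u) (MvPolynomial.pderiv (some i') Q) *
          (if i < i' then MvPolynomial.eval u (MvPolynomial.pderiv i (G i')) else 0)| ≤
          d * ((M * (β * (S / E))) * (C₀ * (Ng i / M))) := by
        refine (Finset.abs_sum_le_sum_abs _ _).trans ?_
        calc ∑ i' : Fin d, |MvPolynomial.eval (cpt Φ u) (MvPolynomial.pderiv (some i') Q) *
            (if i < i' then MvPolynomial.eval u (MvPolynomial.pderiv i (G i')) else 0)| ≤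
            ∑ _i' : Fin d, (M * (β * (S / E))) * (C₀ * (Ng i / M)) := by
              refine Finset.sum_le_sum fun i' _ => ?_
              have hN := hN0 i
              by_cases hii : i < i'
              · rw [if_pos hii, abs_mul]
                refine mul_le_mul ((hle (some i')).trans ?_) (hT.slope u hu i i')
                  (abs_nonneg _) (by positivity)
                have := mul_le_mul_of_nonneg_left (hi' i' hii) hM0.le
                rw [← mul_assoc] at this
                have e5 : (M : ℝ) * (1 / M) = 1 := by field_simp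
                rw [e5, one_mul] at this
                exact this
              · rw [if_neg hii, mul_zero, abs_zero]
                positivity
          _ = d * ((M * (β * (S / E))) * (C₀ * (Ng i / M))) := by
              rw [Finset.sum_const, Finset.card_univ, Fintype.card_fin, nsmul_eq_mul]
      have hw := hT.w_pos i
      have t3 : |a (some i)| * w i ≤ Cm * S + (M * (S / E)) * (C₀ * (Ng i / M)) +
          d * ((M * (β * (S / E))) * (C₀ * (Ng i / M))) := by
        have e6 : |a (some i)| * w i = |a (some i) * w i| := by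
          rw [abs_mul, abs_of_pos hw]
        rw [e6]
        set x₁ := MvPolynomial.eval (cpt Φ u) (MvPolynomial.pderiv none Q) *
          MvPolynomial.eval u (MvPolynomial.pderiv i F) with hx₁
        set x₂ := ∑ i' : Fin d, MvPolynomial.eval (cpt Φ u) (MvPolynomial.pderiv (some i') Q) *
          (if i < i' then MvPolynomial.eval u (MvPolynomial.pderiv i (G i')) else 0) with hx₂
        have e7 : a (some i) * w i = (x₁ + (x₂ + a (some i) * w i)) - (x₁ + x₂) := by ring
        rw [e7]
        refine (abs_sub _ _).trans ?_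
        have := abs_add_le x₁ x₂
        linarith
      -- dividing by the width
      have hNi := hN0 i
      have g1 : (Ng i : ℝ) ≤ C₀ * w i * M := by
        have := hT.le_w i
        rw [div_le_iff₀ hM0] at this
        exact this
      have g2 : Cm * S ≤ C₀ * w i * (M * (Cm * (S / E))) := by
        have h5 : E ≤ C₀ * w i * M := (hNg i).trans g1
        calc Cm * S = Cm * (S / E) * E := by field_simp
          _ ≤ Cm * (S / E) * (C₀ * w i * M) := mul_le_mul_of_nonneg_left h5 (by positivity)
          _ = C₀ * w i * (M * (Cm * (S / E))) := by ring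
      have g3 : (Ng i : ℝ) / M ≤ C₀ * w i := hT.le_w i
      have g4 : (M * (S / E)) * (C₀ * (Ng i / M)) ≤ (M * (S / E)) * (C₀ * (C₀ * w i)) :=
        mul_le_mul_of_nonneg_left (mul_le_mul_of_nonneg_left g3 (by linarith)) (by positivity)
      have g5 : d * ((M * (β * (S / E))) * (C₀ * (Ng i / M))) ≤
          d * ((M * (β * (S / E))) * (C₀ * (C₀ * w i))) :=
        mul_le_mul_of_nonneg_left (mul_le_mul_of_nonneg_left
          (mul_le_mul_of_nonneg_left g3 (by linarith)) (by positivity)) (Nat.cast_nonneg d)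
      have g6 : |a (some i)| * w i ≤
          (M * ((C₀ * Cm + C₀ ^ 2 + C₀ ^ 2 * d * β) * (S / E))) * w i := by
        refine (t3.trans (add_le_add (add_le_add g2 g4) g5)).trans (le_of_eq ?_)
        ring
      exact le_of_mul_le_mul_right g6 hw
    calc 1 / M * csC Φ (MvPolynomial.pderiv (some i) Q) ≤
          1 / M * (M * ((C₀ * Cm + C₀ ^ 2 + C₀ ^ 2 * d * β) * (S / E))) :=
          mul_le_mul_of_nonneg_left h2 (by positivity)
      _ = (C₀ * Cm + C₀ ^ 2 + C₀ ^ 2 * d * β) * (S / E) := by field_simp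
  have hall : ∀ e : ℕ, ∀ i : Fin d, d ≤ i.val + e →
      1 / M * csC Φ (MvPolynomial.pderiv (some i) Q) ≤ b e * (S / E) := by
    intro e
    induction e with
    | zero =>
      intro i hi
      have := i.2
      omega
    | succ e ih =>
      intro i hi
      have hSE : 0 ≤ S / E := by positivity
      have h5 := hstep i (b e) (hb0 e) (fun i' hii => ih i' (by
        have : i.val < i'.val := hii
        omega))
      refine h5.trans (mul_le_mul_of_nonneg_right ?_ hSE)
      refine le_trans ?_ (hbs e)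
      have := hb0 e
      nlinarith
  intro o
  have hC2' : 0 ≤ (2 * (d : ℝ) + 1) * C₀ ^ 2 := by positivity
  have hSE : 0 ≤ S / E := by positivity
  have hbd := hb0 d
  have h6 : 1 / M * csC Φ (MvPolynomial.pderiv o Q) ≤ (1 + b d) * (S / E) := by
    cases o with
    | none =>
      refine hnone.trans ?_
      nlinarith
    | some i =>
      refine (hall d i (by omega)).trans ?_
      nlinarith
  calc (2 * (d : ℝ) + 1) * C₀ ^ 2 / M * csC Φ (MvPolynomial.pderiv o Q) =
        (2 * (d : ℝ) + 1) * C₀ ^ 2 * (1 / M * csC Φ (MvPolynomial.pderiv o Q)) := by ring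
    _ ≤ (2 * (d : ℝ) + 1) * C₀ ^ 2 * ((1 + b d) * (S / E)) :=
        mul_le_mul_of_nonneg_left h6 hC2'
    _ ≤ (2 * (d : ℝ) + 1) * C₀ ^ 2 * (((1 + b' d) * C₀ ^ (2 * d)) * (S / E)) := by
        refine mul_le_mul_of_nonneg_left (mul_le_mul_of_nonneg_right ?_ hSE) hC2'
        have h7 : (1 : ℝ) ≤ C₀ ^ (2 * d) := one_le_pow₀ hC₀
        have h8 : b d = b' d * C₀ ^ (2 * d) := rfl
        rw [h8]
        nlinarith
    _ = (2 * (d : ℝ) + 1) * (1 + b' d) * C₀ ^ (2 * d + 2) / E * S := by
        rw [pow_add]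
        ring

end Pool.M3F
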